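import Pool.Agent.Lib.MP_9488bf_co.Thin.Basic

/-! A chord of an arc can be shrunk continuously with its direction almost fixed. -/

noncomputable section

namespace Pool.Agent.Lib.MP_9488bf_co.Thin

open Set Real

/-- a fixed pair of parameters in the window is joined to arbitrarily close pairs through pairs
with the property `R` -/
def Anchor (A B : ℝ) (R : ℝ → ℝ → Prop) : Prop :=
  ∃ u₁ v₁ : ℝ, ∀ δ > 0, ∃ u v : ℝ → ℝ, Continuous u ∧ Continuous v ∧ u 1 = u₁ ∧ v 1 = v₁ ∧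
    v 0 - u 0 ≤ δ ∧ ∀ l, A ≤ u l ∧ u l < v l ∧ v l ≤ B ∧ R (u l) (v l)

theorem Anchor.mono {A B : ℝ} {R R' : ℝ → ℝ → Prop} (h : Anchor A B R)
    (hR : ∀ u v, A ≤ u → u < v → v ≤ B → R u v → R' u v) : Anchor A B R' := by
  obtain ⟨u₁, v₁, h⟩ := h
  refine ⟨u₁, v₁, fun δ hδ => ?_⟩
  obtain ⟨u, v, c1, c2, e1, e2, e3, e4⟩ := h δ hδ
  exact ⟨u, v, c1, c2, e1, e2, e3, fun l => ⟨(e4 l).1, (e4 l).2.1, (e4 l).2.2.1,
    hR _ _ (e4 l).1 (e4 l).2.1 (e4 l).2.2.1 (e4 l).2.2.2⟩⟩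

theorem Anchor.neg {A B : ℝ} {R : ℝ → ℝ → Prop} (h : Anchor A B R) :
    Anchor (-B) (-A) fun u v => R (-v) (-u) := by
  obtain ⟨u₁, v₁, h⟩ := h
  refine ⟨-v₁, -u₁, fun δ hδ => ?_⟩
  obtain ⟨u, v, c1, c2, e1, e2, e3, e4⟩ := h δ hδ
  refine ⟨fun l => -v l, fun l => -u l, c2.neg, c1.neg, by simp [e2], by simp [e1], by linarith,
    fun l => ⟨by linarith [(e4 l).2.2.1], by linarith [(e4 l).2.1], by linarith [(e4 l).1], ?_⟩⟩
  simpa using (e4 l).2.2.2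

theorem pm2 {f g : ℝ × ℝ → ℝ} (hf : Continuous f) (hg : Continuous g)
    (f0 : ∀ t ∈ Icc (0 : ℝ) 1, f (0, t) ≤ 0) (f1 : ∀ t ∈ Icc (0 : ℝ) 1, 0 ≤ f (1, t))
    (g0 : ∀ s ∈ Icc (0 : ℝ) 1, g (s, 0) ≤ 0) (g1 : ∀ s ∈ Icc (0 : ℝ) 1, 0 ≤ g (s, 1)) :
    ∃ s ∈ Icc (0 : ℝ) 1, ∃ t ∈ Icc (0 : ℝ) 1, f (s, t) = 0 ∧ g (s, t) = 0 := by
  obtain ⟨x, hx, h0⟩ := Pool.Agent.Shared.Kuhn.poincare_miranda (I := Fin 2) (a := fun _ => 0)
    (b := fun _ => 1) (fun _ => zero_le_one) (fun x => ![f (x 0, x 1), g (x 0, x 1)])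
    (Continuous.continuousOn (continuous_pi fun i => by
      fin_cases i
      · exact hf.comp (by fun_prop)
      · exact hg.comp (by fun_prop)))
    (fun x hx i hi => by
      fin_cases i
      · have hi' : x 0 = 0 := hi
        simpa [hi'] using f0 (x 1) ⟨hx.1 1, hx.2 1⟩
      · have hi' : x 1 = 0 := hi
        simpa [hi'] using g0 (x 0) ⟨hx.1 0, hx.2 0⟩)
    (fun x hx i hi => by
      fin_cases i
      · have hi' : x 0 = 1 := hi
        simpa [hi'] using f1 (x 1) ⟨hx.1 1, hx.2 1⟩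
      · have hi' : x 1 = 1 := hi
        simpa [hi'] using g1 (x 0) ⟨hx.1 0, hx.2 0⟩)
  exact ⟨x 0, ⟨hx.1 0, hx.2 0⟩, x 1, ⟨hx.1 1, hx.2 1⟩, congrFun h0 0, congrFun h0 1⟩

/-- a forward excursion off a line -/
theorem excursion {g p : ℝ → ℝ} (hg : Continuous g) (hp : Continuous p) {u₀ v₀ : ℝ} (h : u₀ ≤ v₀)
    (g0 : g u₀ = 0) (g1 : g v₀ = 0) (p1 : p u₀ < p v₀)
    (hi : ∀ s ∈ Icc u₀ v₀, ∀ t ∈ Icc u₀ v₀, g s = 0 → g t = 0 → p s = p t → s = t) :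
    ∃ u v, u₀ ≤ u ∧ u < v ∧ v ≤ v₀ ∧ g u = 0 ∧ g v = 0 ∧ p u < p v ∧
      ((∀ t ∈ Icc u v, 0 ≤ g t) ∨ ∀ t ∈ Icc u v, g t ≤ 0) := by
  have hlt : u₀ < v₀ := lt_of_le_of_ne h fun e => by rw [e] at p1; exact lt_irrefl _ p1
  by_cases hall : ∀ t ∈ Icc u₀ v₀, g t = 0
  · exact ⟨u₀, v₀, le_rfl, hlt, le_rfl, g0, g1, p1, Or.inl fun t ht => (hall t ht).ge⟩
  push Not at hall
  obtain ⟨t₀, ht₀, hg₀⟩ := hall
  have cz : IsClosed {t | g t = 0} := isClosed_eq hg continuous_const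
  obtain ⟨y, hy, hy'⟩ : ∃ y ∈ Icc (p u₀) (p v₀), ∀ t ∈ Icc u₀ v₀, g t = 0 → p t ≠ y := by
    by_contra hc
    push Not at hc
    have k1 : IsCompact (p '' (Icc u₀ t₀ ∩ {t | g t = 0})) := (isCompact_Icc.inter_right cz).image hp
    have k2 : IsCompact (p '' (Icc t₀ v₀ ∩ {t | g t = 0})) := (isCompact_Icc.inter_right cz).image hp
    obtain ⟨y, -, ⟨s, ⟨hs, hs'⟩, e1⟩, ⟨t, ⟨ht, ht'⟩, e2⟩⟩ :=
      isPreconnected_closed_iff.1 (isPreconnected_Icc (a := p u₀) (b := p v₀)) _ _ k1.isClosed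
        k2.isClosed (fun y hy => by
          obtain ⟨t, ht, e, e'⟩ := hc y hy
          rcases le_total t t₀ with h' | h'
          · exact Or.inl ⟨t, ⟨⟨ht.1, h'⟩, e⟩, e'⟩
          · exact Or.inr ⟨t, ⟨⟨h', ht.2⟩, e⟩, e'⟩)
        ⟨p u₀, ⟨le_rfl, p1.le⟩, u₀, ⟨⟨le_rfl, ht₀.1⟩, g0⟩, rfl⟩
        ⟨p v₀, ⟨p1.le, le_rfl⟩, v₀, ⟨⟨ht₀.2, le_rfl⟩, g1⟩, rfl⟩
    have e := hi s ⟨hs.1, hs.2.trans ht₀.2⟩ t ⟨ht₀.1.trans ht.1, ht.2⟩ hs' ht' (e1.trans e2.symm)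
    have : s = t₀ := le_antisymm hs.2 (e ▸ ht.1)
    exact hg₀ (this ▸ hs')
  have c1 : IsCompact (Icc u₀ v₀ ∩ ({t | g t = 0} ∩ {t | p t ≤ y})) :=
    isCompact_Icc.inter_right (cz.inter (isClosed_le hp continuous_const))
  obtain ⟨u, ⟨hu, gu, pu⟩, mu⟩ := c1.exists_isGreatest ⟨u₀, ⟨le_rfl, h⟩, g0, hy.1⟩
  have c2 : IsCompact (Icc u v₀ ∩ ({t | g t = 0} ∩ {t | y ≤ p t})) :=
    isCompact_Icc.inter_right (cz.inter (isClosed_le continuous_const hp))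
  obtain ⟨v, ⟨hv, gv, pv⟩, mv⟩ := c2.exists_isLeast ⟨v₀, ⟨hu.2, le_rfl⟩, g1, hy.2⟩
  have pu' : p u < y := lt_of_le_of_ne pu (hy' u hu gu)
  have puv : p u < p v := pu'.trans_le pv
  have huv : u < v := lt_of_le_of_ne hv.1 fun e => by rw [e] at puv; exact lt_irrefl _ puv
  have nz : ∀ t ∈ Ioo u v, g t ≠ 0 := fun t ht e => by
    rcases le_total (p t) y with h' | h'
    · exact absurd (mu ⟨⟨hu.1.trans ht.1.le, ht.2.le.trans hv.2⟩, e, h'⟩) (not_le.2 ht.1)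
    · exact absurd (mv ⟨⟨ht.1.le, ht.2.le.trans hv.2⟩, e, h'⟩) (not_le.2 ht.2)
  refine ⟨u, v, hu.1, huv, hv.2, gu, gv, puv, ?_⟩
  by_contra hc
  push Not at hc
  obtain ⟨⟨s, hs, s1⟩, t, ht, t1⟩ := hc
  have hs' : s ∈ Ioo u v := ⟨lt_of_le_of_ne hs.1 fun e => s1.ne (e ▸ gu),
    lt_of_le_of_ne hs.2 fun e => s1.ne (e ▸ gv)⟩
  have ht' : t ∈ Ioo u v := ⟨lt_of_le_of_ne ht.1 fun e => t1.ne' (e ▸ gu),
    lt_of_le_of_ne ht.2 fun e => t1.ne' (e ▸ gv)⟩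
  obtain ⟨z, hz, e⟩ := isPreconnected_Ioo.intermediate_value hs' ht' hg.continuousOn
    (show (0 : ℝ) ∈ Icc (g s) (g t) from ⟨s1.le, t1.le⟩)
  exact nz z hz e

/-- climbing both sides of an excursion -/
theorem climb {g p : ℝ → ℝ} (hg : Continuous g) (hp : Continuous p) {u' v' : ℝ} (h : u' < v')
    (g0 : g u' = 0) (g1 : g v' = 0) (p1 : p u' < p v') (hpos : ∀ t ∈ Icc u' v', 0 ≤ g t)
    (hi : ∀ s ∈ Icc u' v', ∀ t ∈ Icc u' v', g s = g t → p s = p t → s = t)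
    {U : Set (ℝ × ℝ)} (hU : IsOpen U) (U1 : ∀ z ∈ U, z.1 < z.2 ∧ p z.1 < p z.2)
    (U2 : ∀ u ∈ Icc u' v', ∀ v ∈ Icc u' v', u < v → g u = g v → p u < p v → (u, v) ∈ U)
    {δ : ℝ} (hδ : 0 < δ) : ∃ z : ℝ × ℝ, JoinedIn U z (u', v') ∧ z.2 - z.1 ≤ δ := by
  by_contra hc
  push Not at hc
  obtain ⟨c, hcm, hmax⟩ := isCompact_Icc.exists_isMaxOn (nonempty_Icc.2 h.le) hg.continuousOn
  have hP : (u', v') ∈ U := U2 _ ⟨le_rfl, h.le⟩ _ ⟨h.le, le_rfl⟩ h (g0.trans g1.symm) p1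
  set W := pathComponentIn U (u', v') with hW
  have oW : IsOpen W := hU.pathComponentIn _
  set Z : Set (ℝ × ℝ) := (Icc u' c ×ˢ Icc c v') ∩ {z | g z.1 = g z.2} with hZ
  have cZ : IsClosed Z := (isClosed_Icc.prod isClosed_Icc).inter
    (isClosed_eq (hg.comp continuous_fst) (hg.comp continuous_snd))
  have c2 : IsClosed (Z ∩ Wᶜ) := cZ.inter oW.isClosed_compl
  have c1 : IsClosed (Z ∩ W) := by
    refine isClosed_of_closure_subset fun z hz => ?_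
    have z1 : z ∈ Z := cZ.closure_subset_iff.2 inter_subset_left hz
    have z2 : z ∈ {z : ℝ × ℝ | δ ≤ z.2 - z.1} :=
      (isClosed_le continuous_const (continuous_snd.sub continuous_fst)).closure_subset_iff.2
        (fun w hw => (hc w (JoinedIn.symm hw.2)).le) hz
    have z3 : z ∈ {z : ℝ × ℝ | p z.1 ≤ p z.2} :=
      (isClosed_le (hp.comp continuous_fst) (hp.comp continuous_snd)).closure_subset_iff.2
        (fun w hw => (U1 w (pathComponentIn_subset hw.2)).2.le) hz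
    have m1 : z.1 ∈ Icc u' v' := ⟨z1.1.1.1, z1.1.1.2.trans hcm.2⟩
    have m2 : z.2 ∈ Icc u' v' := ⟨hcm.1.trans z1.1.2.1, z1.1.2.2⟩
    have z4 : z.1 < z.2 := by
      have : δ ≤ z.2 - z.1 := z2
      linarith
    have z5 : z ∈ U := U2 _ m1 _ m2 z4 z1.2 (lt_of_le_of_ne z3 fun e => z4.ne (hi _ m1 _ m2 z1.2 e))
    obtain ⟨w, w1, w2⟩ := mem_closure_iff.1 hz _ (hU.pathComponentIn z) (mem_pathComponentIn_self z5)
    exact ⟨z1, JoinedIn.trans w2.2 (JoinedIn.symm w1)⟩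
  obtain ⟨φ, φ0, φ1, -⟩ := exists_continuous_zero_one_of_isClosed c1 c2
    (disjoint_left.2 fun z a b => b.2 a.2)
  let F : ℝ × ℝ → ℝ × ℝ := fun q =>
    (u' + (c - u') * ((1 - q.1) * max 0 (2 * q.2 - 1) + q.1 * min 1 (2 * q.2)),
      v' - (v' - c) * ((1 - q.1) * min 1 (2 * q.2) + q.1 * max 0 (2 * q.2 - 1)))
  have cF : Continuous F := by fun_prop
  have mF : ∀ s ∈ Icc (0 : ℝ) 1, ∀ t ∈ Icc (0 : ℝ) 1, F (s, t) ∈ Icc u' c ×ˢ Icc c v' := by
    intro s hs t ht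
    have a0 : 0 ≤ max 0 (2 * t - 1) := le_max_left _ _
    have a1 : max 0 (2 * t - 1) ≤ 1 := max_le zero_le_one (by linarith [ht.2])
    have b0 : 0 ≤ min 1 (2 * t) := le_min zero_le_one (by linarith [ht.1])
    have b1 : min 1 (2 * t) ≤ 1 := min_le_left _ _
    have d1 := sub_nonneg.2 hcm.1
    have d2 := sub_nonneg.2 hcm.2
    have s1 := sub_nonneg.2 hs.2
    have s0 := hs.1
    simp only [F, mem_prod, mem_Icc]
    generalize max 0 (2 * t - 1) = α at *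
    generalize min 1 (2 * t) = β at *
    have e1 : 0 ≤ (1 - s) * α + s * β := by positivity
    have e2 : (1 - s) * α + s * β ≤ 1 := by nlinarith
    have e3 : 0 ≤ (1 - s) * β + s * α := by positivity
    have e4 : (1 - s) * β + s * α ≤ 1 := by nlinarith
    refine ⟨⟨by nlinarith, by nlinarith⟩, by nlinarith, by nlinarith⟩
  obtain ⟨s, hs, t, ht, e1, e2⟩ := pm2 (f := fun q => g (F q).1 - g (F q).2)
    (g := fun q => φ (F q) - 1 / 2) (by fun_prop) (by fun_prop)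
    (fun t ht => by
      have m := mF 0 ⟨le_rfl, zero_le_one⟩ t ht
      rcases le_total (2 * t) 1 with h' | h'
      · have e : (F (0, t)).1 = u' := by simp [F, max_eq_left (show 2 * t - 1 ≤ 0 by linarith)]
        rw [e, g0]
        linarith [hpos _ ⟨hcm.1.trans m.2.1, m.2.2⟩]
      · have e : (F (0, t)).2 = c := by simp [F, min_eq_left h']
        rw [e]
        exact sub_nonpos.2 (hmax ⟨m.1.1, m.1.2.trans hcm.2⟩))
    (fun t ht => by
      have m := mF 1 ⟨zero_le_one, le_rfl⟩ t ht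
      rcases le_total (2 * t) 1 with h' | h'
      · have e : (F (1, t)).2 = v' := by simp [F, max_eq_left (show 2 * t - 1 ≤ 0 by linarith)]
        rw [e, g1]
        linarith [hpos _ ⟨m.1.1, m.1.2.trans hcm.2⟩]
      · have e : (F (1, t)).1 = c := by simp [F, min_eq_left h']
        rw [e]
        exact sub_nonneg.2 (hmax ⟨hcm.1.trans m.2.1, m.2.2⟩))
    (fun s hs => by
      have e : F (s, 0) = (u', v') := by simp [F]
      have : φ (u', v') = 0 := φ0 ⟨⟨⟨⟨le_rfl, hcm.1⟩, hcm.2, le_rfl⟩, g0.trans g1.symm⟩,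
        mem_pathComponentIn_self hP⟩
      rw [e, this]
      norm_num)
    (fun s hs => by
      have e : F (s, 1) = (c, c) := by
        simp only [F]
        norm_num
      have : φ (c, c) = 1 := φ1 ⟨⟨⟨⟨hcm.1, le_rfl⟩, le_rfl, hcm.2⟩, rfl⟩,
        fun w => lt_irrefl _ (U1 _ (pathComponentIn_subset w)).1⟩
      rw [e, this]
      norm_num)
  have zZ : F (s, t) ∈ Z := ⟨mF s hs t ht, sub_eq_zero.1 e1⟩
  by_cases hw : F (s, t) ∈ W
  · have : φ (F (s, t)) = 0 := φ0 ⟨zZ, hw⟩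
    rw [this] at e2
    norm_num at e2
  · have : φ (F (s, t)) = 1 := φ1 ⟨zZ, hw⟩
    rw [this] at e2
    norm_num at e2

/-- a chord in an open cone gives an anchor -/
theorem anchor_of_chord {a : ℝ → ℂ} (ha : Continuous a) {A B u₀ v₀ α β : ℝ} (hi : InjOn a (Icc A B))
    (h1 : A ≤ u₀) (h2 : u₀ < v₀) (h3 : v₀ ≤ B) (k1 : 0 < Hc α (a v₀ - a u₀))
    (k2 : 0 < Hc β (a v₀ - a u₀)) :
    Anchor A B fun u v => 0 < Hc α (a v - a u) ∧ 0 < Hc β (a v - a u) := by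
  set d := a v₀ - a u₀ with hd
  have d0 : 0 < d.re ^ 2 + d.im ^ 2 := by
    by_contra hc
    have e1 : d.re = 0 := by nlinarith [sq_nonneg d.re, sq_nonneg d.im]
    have e2 : d.im = 0 := by nlinarith [sq_nonneg d.re, sq_nonneg d.im]
    simp [Hc, e1, e2] at k1
  let g : ℝ → ℝ := fun t => d.re * (a t - a u₀).im - d.im * (a t - a u₀).re
  let p : ℝ → ℝ := fun t => d.re * (a t - a u₀).re + d.im * (a t - a u₀).im
  have cg : Continuous g := by fun_prop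
  have cp : Continuous p := by fun_prop
  have key : ∀ (γ s t : ℝ), g s = g t →
      (d.re ^ 2 + d.im ^ 2) * Hc γ (a t - a s) = (p t - p s) * Hc γ d := by
    intro γ s t e
    simp only [g, p, Hc, Complex.sub_re, Complex.sub_im] at e ⊢
    linear_combination (d.im * cos γ - d.re * sin γ) * e
  have inj : ∀ s ∈ Icc A B, ∀ t ∈ Icc A B, g s = g t → p s = p t → s = t := by
    intro s hs t ht e1 e2
    have f1 := key 0 s t e1
    have f2 := key (π / 2) s t e1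
    rw [e2, sub_self, zero_mul] at f1 f2
    have f3 := (mul_eq_zero.1 f1).resolve_left d0.ne'
    have f4 := (mul_eq_zero.1 f2).resolve_left d0.ne'
    simp only [Hc, cos_zero, sin_zero, cos_pi_div_two, sin_pi_div_two, Complex.sub_re,
      Complex.sub_im] at f3 f4
    exact hi hs ht (Complex.ext (by linarith) (by linarith))
  obtain ⟨u', v', a1, a2, a3, a4, a5, a6, a7⟩ := excursion cg cp h2.le (by simp [g])
    (by simp only [g, ← hd]; ring) (by simp only [p, ← hd, sub_self]; simpa [sq] using d0)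
    (fun s hs t ht e1 e2 e3 => inj s ⟨h1.trans hs.1, hs.2.trans h3⟩ t ⟨h1.trans ht.1, ht.2.trans h3⟩
      (e1.trans e2.symm) e3)
  let cl : ℝ → ℝ := fun t => max u' (min v' t)
  have ccl : Continuous cl := by fun_prop
  have cl1 : ∀ t ∈ Icc u' v', cl t = t := fun t ht => by
    simp only [cl, min_eq_right ht.2, max_eq_right ht.1]
  have cl2 : ∀ t, cl t ∈ Icc u' v' := fun t => ⟨le_max_left _ _, max_le a2.le (min_le_left _ _)⟩
  have cl3 : ∀ s t, s ≤ t → cl s ≤ cl t ∧ cl t - cl s ≤ t - s := fun s t hst => by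
    simp only [cl, max_def, min_def]
    split_ifs <;> constructor <;> linarith
  let U : Set (ℝ × ℝ) := {z | z.1 < z.2} ∩ ({z | p (cl z.1) < p (cl z.2)} ∩
    ({z | 0 < Hc α (a (cl z.2) - a (cl z.1))} ∩ {z | 0 < Hc β (a (cl z.2) - a (cl z.1))}))
  have oU : IsOpen U := (isOpen_lt continuous_fst continuous_snd).inter
    ((isOpen_lt (by fun_prop) (by fun_prop)).inter
      ((isOpen_lt continuous_const ((continuous_Hc α).comp (by fun_prop))).inter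
        (isOpen_lt continuous_const ((continuous_Hc β).comp (by fun_prop)))))
  have sub : Icc u' v' ⊆ Icc A B := Icc_subset_Icc (h1.trans a1) (a3.trans h3)
  have U2 : ∀ u ∈ Icc u' v', ∀ v ∈ Icc u' v', u < v → g u = g v → p (cl u) < p (cl v) →
      (u, v) ∈ U := by
    intro u hu v hv huv e1 e2
    refine ⟨huv, e2, ?_, ?_⟩
    · show 0 < Hc α (a (cl v) - a (cl u))
      rw [cl1 u hu, cl1 v hv] at *
      exact pos_of_mul (by rw [key α u v e1]; exact mul_pos (sub_pos.2 e2) k1) d0.le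
    · show 0 < Hc β (a (cl v) - a (cl u))
      rw [cl1 u hu, cl1 v hv] at *
      exact pos_of_mul (by rw [key β u v e1]; exact mul_pos (sub_pos.2 e2) k2) d0.le
  have inj' : ∀ s ∈ Icc u' v', ∀ t ∈ Icc u' v', g s = g t → p (cl s) = p (cl t) → s = t :=
    fun s hs t ht e1 e2 => inj s (sub hs) t (sub ht) e1 (by rwa [cl1 s hs, cl1 t ht] at e2)
  have pp : p (cl u') < p (cl v') := by rwa [cl1 u' ⟨le_rfl, a2.le⟩, cl1 v' ⟨a2.le, le_rfl⟩]
  refine ⟨u', v', fun δ hδ => ?_⟩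
  obtain ⟨z, ⟨γ, hγ⟩, hz⟩ : ∃ z : ℝ × ℝ, JoinedIn U z (u', v') ∧ z.2 - z.1 ≤ δ := by
    rcases a7 with a7 | a7
    · exact climb cg (p := fun t => p (cl t)) (cp.comp ccl) a2 a4 a5 pp a7 inj' oU
        (fun z hz => ⟨hz.1, hz.2.1⟩) U2 hδ
    · exact climb (g := fun t => -g t) cg.neg (p := fun t => p (cl t)) (cp.comp ccl) a2
        (by simp [a4]) (by simp [a5]) pp (fun t ht => neg_nonneg.2 (a7 t ht))
        (fun s hs t ht e => inj' s hs t ht (neg_injective e)) oU (fun z hz => ⟨hz.1, hz.2.1⟩)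
        (fun u hu v hv huv e => U2 u hu v hv huv (neg_injective e)) hδ
  have hm : ∀ l, γ.extend l ∈ U := fun l => by
    have : γ.extend l ∈ range γ := by
      rw [← γ.extend_range]
      exact mem_range_self l
    obtain ⟨t, e⟩ := this
    exact e ▸ hγ t
  refine ⟨fun l => cl (γ.extend l).1, fun l => cl (γ.extend l).2,
    ccl.comp (continuous_fst.comp γ.continuous_extend),
    ccl.comp (continuous_snd.comp γ.continuous_extend), ?_, ?_, ?_, fun l => ?_⟩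
  · simp only [Path.extend_one]
    exact cl1 u' ⟨le_rfl, a2.le⟩
  · simp only [Path.extend_one]
    exact cl1 v' ⟨a2.le, le_rfl⟩
  · have := hm 0
    simp only [Path.extend_zero] at this ⊢
    exact (cl3 _ _ (le_of_lt this.1)).2.trans hz
  · obtain ⟨m1, m2, m3, m4⟩ := hm l
    refine ⟨(sub (cl2 _)).1, lt_of_le_of_ne (cl3 _ _ (le_of_lt m1)).1 fun e => ?_, (sub (cl2 _)).2,
      m3, m4⟩
    have m2' : p (cl (γ.extend l).1) < p (cl (γ.extend l).2) := m2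
    exact m2'.ne (congrArg p e)

end Pool.Agent.Lib.MP_9488bf_co.Thin
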