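import Pool.Agent.Shared.Kuhn.Sperner

/-! Plane algebra for thin trapezoids: components in a rotating frame. -/

noncomputable section

namespace Pool.Agent.Lib.MP_9488bf_co.Thin

open Set Real

/-- component along the direction of angle `θ` -/
def Hc (θ : ℝ) (z : ℂ) : ℝ := z.re * cos θ + z.im * sin θ

/-- component along the direction of angle `θ + π / 2` -/
def Vc (θ : ℝ) (z : ℂ) : ℝ := z.im * cos θ - z.re * sin θ

/-- the unit vector of angle `θ` -/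
def ee (θ : ℝ) : ℂ := ⟨cos θ, sin θ⟩

/-- the scalar product -/
def ip (c w : ℂ) : ℝ := c.re * w.re + c.im * w.im

/-- a fixed small angle -/
def kp : ℝ := π / 24

theorem kp_pos : 0 < kp := by unfold kp; positivity

theorem nn_of_mul {s t : ℝ} (h : 0 ≤ s * t) (hs : 0 < s) : 0 ≤ t :=
  nonneg_of_mul_nonneg_right h hs

theorem np_of_mul {s t : ℝ} (h : s * t ≤ 0) (hs : 0 < s) : t ≤ 0 := by
  by_contra hc
  exact absurd h (not_le.2 (mul_pos hs (not_le.1 hc)))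

theorem pos_of_mul {s t : ℝ} (h : 0 < s * t) (hs : 0 ≤ s) : 0 < t := by
  by_contra hc
  exact absurd h (not_lt.2 (mul_nonpos_of_nonneg_of_nonpos hs (not_lt.1 hc)))

theorem Hc_add (θ : ℝ) (z w : ℂ) : Hc θ (z + w) = Hc θ z + Hc θ w := by
  simp only [Hc, Complex.add_re, Complex.add_im]; ring

theorem Hc_sub (θ : ℝ) (z w : ℂ) : Hc θ (z - w) = Hc θ z - Hc θ w := by
  simp only [Hc, Complex.sub_re, Complex.sub_im]; ring

theorem Hc_neg (θ : ℝ) (z : ℂ) : Hc θ (-z) = -Hc θ z := by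
  simp only [Hc, Complex.neg_re, Complex.neg_im]; ring

theorem Vc_add (θ : ℝ) (z w : ℂ) : Vc θ (z + w) = Vc θ z + Vc θ w := by
  simp only [Vc, Complex.add_re, Complex.add_im]; ring

theorem Vc_sub (θ : ℝ) (z w : ℂ) : Vc θ (z - w) = Vc θ z - Vc θ w := by
  simp only [Vc, Complex.sub_re, Complex.sub_im]; ring

theorem Vc_neg (θ : ℝ) (z : ℂ) : Vc θ (-z) = -Vc θ z := by
  simp only [Vc, Complex.neg_re, Complex.neg_im]; ring

theorem Hc_zero (θ : ℝ) : Hc θ 0 = 0 := by simp [Hc]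

theorem Vc_zero (θ : ℝ) : Vc θ 0 = 0 := by simp [Vc]

theorem Hc_smul (θ r : ℝ) (z : ℂ) : Hc θ (r * z) = r * Hc θ z := by
  simp only [Hc, Complex.mul_re, Complex.mul_im, Complex.ofReal_re, Complex.ofReal_im]; ring

theorem Vc_smul (θ r : ℝ) (z : ℂ) : Vc θ (r * z) = r * Vc θ z := by
  simp only [Vc, Complex.mul_re, Complex.mul_im, Complex.ofReal_re, Complex.ofReal_im]; ring

theorem Hc_ee (θ φ : ℝ) : Hc θ (ee φ) = cos (φ - θ) := by
  simp only [Hc, ee, cos_sub]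

theorem Vc_ee (θ φ : ℝ) : Vc θ (ee φ) = sin (φ - θ) := by
  simp only [Vc, ee, sin_sub]

theorem continuous_Hc (θ : ℝ) : Continuous (Hc θ) := by
  unfold Hc; fun_prop

theorem continuous_Vc (θ : ℝ) : Continuous (Vc θ) := by
  unfold Vc; fun_prop

theorem Hc_rot (θ φ : ℝ) (z : ℂ) : Hc φ z = cos (φ - θ) * Hc θ z + sin (φ - θ) * Vc θ z := by
  simp only [Hc, Vc, cos_sub, sin_sub]
  linear_combination (-(z.re * cos φ + z.im * sin φ)) * sin_sq_add_cos_sq θ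

theorem Vc_rot (θ φ : ℝ) (z : ℂ) : Vc φ z = cos (φ - θ) * Vc θ z - sin (φ - θ) * Hc θ z := by
  simp only [Hc, Vc, cos_sub, sin_sub]
  linear_combination (-(z.im * cos φ - z.re * sin φ)) * sin_sq_add_cos_sq θ

theorem cone_id (a b : ℝ) (c w : ℂ) :
    sin (b - a) * ip c w = Hc b c * Vc a w - Hc a c * Vc b w := by
  simp only [Hc, Vc, ip, sin_sub]; ring

theorem three_id (a b c : ℝ) (z : ℂ) :
    sin (c - a) * Hc b z = sin (c - b) * Hc a z + sin (b - a) * Hc c z := by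
  simp only [Hc, sin_sub]; ring

theorem norm_sq_eq (θ : ℝ) (z : ℂ) : ‖z‖ ^ 2 = Hc θ z ^ 2 + Vc θ z ^ 2 := by
  rw [Complex.sq_norm, Complex.normSq_apply]
  simp only [Hc, Vc]
  linear_combination (-(z.re ^ 2 + z.im ^ 2)) * sin_sq_add_cos_sq θ

theorem abs_Hc_le (θ : ℝ) (z : ℂ) : |Hc θ z| ≤ ‖z‖ :=
  abs_le_of_sq_le_sq' (by rw [norm_sq_eq θ z]; nlinarith [sq_nonneg (Vc θ z)]) (norm_nonneg z)
    |> abs_le.2

theorem abs_Vc_le (θ : ℝ) (z : ℂ) : |Vc θ z| ≤ ‖z‖ :=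
  abs_le_of_sq_le_sq' (by rw [norm_sq_eq θ z]; nlinarith [sq_nonneg (Hc θ z)]) (norm_nonneg z)
    |> abs_le.2

theorem norm_ee (θ : ℝ) : ‖ee θ‖ = 1 := by
  have h := norm_sq_eq θ (ee θ)
  rw [Hc_ee, Vc_ee, sub_self, cos_zero, sin_zero] at h
  nlinarith [norm_nonneg (ee θ)]

theorem norm_De {D : ℝ} (hD : 0 ≤ D) (θ : ℝ) : ‖-((D : ℂ) * ee θ)‖ = D := by
  rw [norm_neg, norm_mul, norm_ee, mul_one, Complex.norm_real, Real.norm_of_nonneg hD]

theorem norm_sub_De (D θ : ℝ) (c : ℂ) :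
    ‖c + -((D : ℂ) * ee θ)‖ ^ 2 = ‖c‖ ^ 2 - 2 * D * Hc θ c + D ^ 2 := by
  rw [norm_sq_eq θ, norm_sq_eq θ c, Hc_add, Vc_add, Hc_neg, Vc_neg, Hc_smul, Vc_smul, Hc_ee, Vc_ee,
    sub_self, cos_zero, sin_zero]
  ring

theorem Hc_De (D θ φ : ℝ) : Hc θ (-((D : ℂ) * ee φ)) = -(D * cos (φ - θ)) := by
  rw [Hc_neg, Hc_smul, Hc_ee]

theorem Vc_De (D θ φ : ℝ) : Vc θ (-((D : ℂ) * ee φ)) = -(D * sin (φ - θ)) := by
  rw [Vc_neg, Vc_smul, Vc_ee]

theorem norm_diff (p q z : ℂ) : ‖q + z‖ ^ 2 - ‖p + z‖ ^ 2 = 2 * ip (q - p) ((p + q) / 2 + z) := by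
  simp only [Complex.sq_norm, Complex.normSq_apply, ip, Complex.add_re, Complex.add_im,
    Complex.sub_re, Complex.sub_im, Complex.div_ofNat_re, Complex.div_ofNat_im]
  ring

theorem norm_le_of_ip {p q z : ℂ} (h : ip (q - p) ((p + q) / 2 + z) ≤ 0) : ‖q + z‖ ≤ ‖p + z‖ := by
  have := norm_diff p q z
  exact le_of_sq_le_sq (by linarith) (norm_nonneg _)

theorem ip_mid_le {p q z z' : ℂ} (h : ‖q + z‖ ≤ ‖p + z‖) (h' : ‖q + z'‖ ≤ ‖p + z'‖) :
    ip (q - p) ((p + q) / 2 + (z + z') / 2) ≤ 0 := by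
  have e1 := norm_diff p q z
  have e2 := norm_diff p q z'
  have a1 := pow_le_pow_left₀ (norm_nonneg _) h 2
  have a2 := pow_le_pow_left₀ (norm_nonneg _) h' 2
  have e : 2 * ip (q - p) ((p + q) / 2 + (z + z') / 2) =
      ip (q - p) ((p + q) / 2 + z) + ip (q - p) ((p + q) / 2 + z') := by
    simp only [ip, Complex.add_re, Complex.add_im, Complex.div_ofNat_re, Complex.div_ofNat_im]
    ring
  linarith

theorem ip_mid_ge {p q z z' : ℂ} (h : ‖p + z‖ ≤ ‖q + z‖) (h' : ‖p + z'‖ ≤ ‖q + z'‖) :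
    0 ≤ ip (q - p) ((p + q) / 2 + (z + z') / 2) := by
  have := ip_mid_le h h'
  have e : ip (p - q) ((q + p) / 2 + (z + z') / 2) = -ip (q - p) ((p + q) / 2 + (z + z') / 2) := by
    simp only [ip, Complex.add_re, Complex.add_im, Complex.div_ofNat_re, Complex.div_ofNat_im,
      Complex.sub_re, Complex.sub_im]
    ring
  linarith

theorem Vc_mid (θ : ℝ) (p q z : ℂ) : 2 * Vc θ ((p + q) / 2 + z) = Vc θ (p + z) + Vc θ (q + z) := by
  simp only [Vc, Complex.add_re, Complex.add_im, Complex.div_ofNat_re, Complex.div_ofNat_im]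
  ring

/-- the lens inequality -/
theorem lens {D θ : ℝ} {P Q P' : ℂ} (h : P + Q = -((D : ℂ) * ee θ)) (h' : ‖P' + Q‖ ≤ D) :
    ‖P' - P‖ ^ 2 ≤ 2 * D * Hc θ (P' - P) := by
  have e : P' + Q = (P' - P) + -((D : ℂ) * ee θ) := by rw [← h]; ring
  have h2 := pow_le_pow_left₀ (norm_nonneg _) h' 2
  rw [e, norm_sub_De] at h2
  linarith

/-- two diameters cross, with a margin -/
theorem cross_margin {D φ ψ μ : ℝ} {P Q P' Q' : ℂ} (hD : 0 < D) (h1 : ψ < φ) (h2 : φ - ψ < π)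
    (k : P + Q = -((D : ℂ) * ee φ)) (k' : P' + Q' = -((D : ℂ) * ee ψ)) (a1 : ‖P + Q'‖ ≤ D)
    (a2 : ‖P' + Q‖ ≤ D) (a3 : ‖P - P'‖ ≤ D) (a4 : ‖Q - Q'‖ ≤ D) (hμ : 0 ≤ μ) (m1 : μ ≤ ‖Q' - Q‖)
    (m2 : μ ≤ ‖P + Q'‖) : μ ^ 2 ≤ 2 * D * Vc φ (P + Q') := by
  have hs : 0 < sin (φ - ψ) := sin_pos_of_pos_of_lt_pi (by linarith) h2
  have hs1 : sin (φ - ψ) ≤ 1 := sin_le_one _
  have r := Hc_rot φ ψ (P + Q')
  rw [show ψ - φ = -(φ - ψ) by ring, cos_neg, sin_neg] at r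
  have f1 := lens (P := Q') (Q := P') (P' := Q) (by rw [add_comm]; exact k') (by rwa [add_comm])
  have e1 : Q - Q' = -(P + Q') + -((D : ℂ) * ee φ) := by rw [← k]; ring
  have e2 : P - P' = -(-(P + Q') + -((D : ℂ) * ee ψ)) := by rw [← k']; ring
  have f2 := pow_le_pow_left₀ (norm_nonneg _) a3 2
  rw [e2, norm_neg, norm_sub_De, norm_neg, Hc_neg] at f2
  have f3 := pow_le_pow_left₀ (norm_nonneg _) a4 2
  rw [e1, norm_sub_De, norm_neg, Hc_neg] at f3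
  have f4 := (abs_le.1 (abs_Hc_le φ (P + Q'))).1
  have g1 : Hc ψ (Q - Q') = -Hc ψ (P + Q') - D * cos (φ - ψ) := by
    rw [e1, Hc_add, Hc_neg, Hc_De]; ring
  rw [g1] at f1
  have n1 := pow_le_pow_left₀ hμ m1 2
  have n2 := pow_le_pow_left₀ hμ m2 2
  rw [norm_sub_rev] at n1
  have A0 : 0 ≤ -Hc φ (P + Q') := by
    have : 0 ≤ 2 * D * -Hc φ (P + Q') := by nlinarith [sq_nonneg ‖P + Q'‖]
    exact nn_of_mul this (by positivity)
  have key : μ ^ 2 ≤ 2 * D * (sin (φ - ψ) * Vc φ (P + Q')) := by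
    rcases le_total 0 (cos (φ - ψ)) with hc | hc
    · have : 0 ≤ D * (cos (φ - ψ) * (D + Hc φ (P + Q'))) :=
        mul_nonneg hD.le (mul_nonneg hc (by linarith))
      rw [r] at f1
      nlinarith
    · have : 0 ≤ D * (-cos (φ - ψ) * -Hc φ (P + Q')) :=
        mul_nonneg hD.le (mul_nonneg (by linarith) A0)
      rw [r] at f2
      nlinarith
  have B0 : 0 ≤ Vc φ (P + Q') := by
    have h3 : 0 ≤ 2 * D * (sin (φ - ψ) * Vc φ (P + Q')) := le_trans (sq_nonneg μ) key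
    exact nn_of_mul (nn_of_mul h3 (by positivity)) hs
  have : 0 ≤ D * ((1 - sin (φ - ψ)) * Vc φ (P + Q')) :=
    mul_nonneg hD.le (mul_nonneg (by linarith) B0)
  nlinarith

theorem le_third {δ : ℝ} (h1 : δ < π) (h : 1 / 2 ≤ cos δ) : δ ≤ π / 3 := by
  by_contra hc
  have := strictAntiOn_cos (a := π / 3) (b := δ) ⟨by positivity, by linarith [pi_pos]⟩
    ⟨by linarith [pi_pos, not_le.1 hc], h1.le⟩ (not_le.1 hc)
  rw [cos_pi_div_three] at this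
  linarith

theorem half_le_cos {δ : ℝ} (h0 : 0 ≤ δ) (h1 : δ ≤ π / 3) : 1 / 2 ≤ cos δ := by
  rw [← cos_pi_div_three]
  exact cos_le_cos_of_nonneg_of_le_pi h0 (by linarith [pi_pos]) h1

/-- the reversed and reflected curve -/
def rv (a : ℝ → ℂ) (s : ℝ) : ℂ := (starRingEnd ℂ) (a (-s))

/-- the reversed parameter function -/
def rx (x : ℝ → ℝ) (θ : ℝ) : ℝ := -x (-θ)

theorem Hc_conj (θ : ℝ) (z : ℂ) : Hc (-θ) ((starRingEnd ℂ) z) = Hc θ z := by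
  simp [Hc]

theorem Vc_conj (θ : ℝ) (z : ℂ) : Vc (-θ) ((starRingEnd ℂ) z) = -Vc θ z := by
  simp only [Vc, Complex.conj_re, Complex.conj_im, cos_neg, sin_neg]; ring

theorem ee_neg (θ : ℝ) : ee (-θ) = (starRingEnd ℂ) (ee θ) := by
  apply Complex.ext <;> simp [ee]

theorem rv_sub (a : ℝ → ℂ) (s t : ℝ) : rv a s - rv a t = (starRingEnd ℂ) (a (-s) - a (-t)) := by
  simp [rv]

theorem rv_add (a b : ℝ → ℂ) (s t : ℝ) : rv a s + rv b t = (starRingEnd ℂ) (a (-s) + b (-t)) := by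
  simp [rv]

theorem continuous_rv {a : ℝ → ℂ} (ha : Continuous a) : Continuous (rv a) :=
  Complex.continuous_conj.comp (ha.comp continuous_neg)

theorem continuous_rx {x : ℝ → ℝ} (hx : Continuous x) : Continuous (rx x) :=
  (hx.comp continuous_neg).neg

theorem rv_rv (a : ℝ → ℂ) : rv (rv a) = a := by
  funext s; simp [rv]

theorem rx_rx (x : ℝ → ℝ) : rx (rx x) = x := by
  funext s; simp [rx]

end Pool.Agent.Lib.MP_9488bf_co.Thin
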