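import Pool.Agent.Lib.MP_9488bf_co.Thin.Anchor

/-! The four-dimensional Poincare-Miranda argument on pairs of chords. -/

noncomputable section

namespace Pool.Agent.Lib.MP_9488bf_co.Thin

open Set Real

/-- projection on an interval -/
def clp (lo hi t : ℝ) : ℝ := max lo (min hi t)

theorem continuous_clp (lo hi : ℝ) : Continuous (clp lo hi) := by
  unfold clp; fun_prop

theorem clp_cases {lo hi : ℝ} (h : lo ≤ hi) (t : ℝ) :
    (t ≤ lo ∧ clp lo hi t = lo) ∨ (lo ≤ t ∧ t ≤ hi ∧ clp lo hi t = t) ∨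
      (hi ≤ t ∧ clp lo hi t = hi) := by
  unfold clp
  rcases le_total t lo with h1 | h1
  · exact Or.inl ⟨h1, max_eq_left ((min_le_right _ _).trans h1)⟩
  rcases le_total t hi with h2 | h2
  · exact Or.inr (Or.inl ⟨h1, h2, by rw [min_eq_right h2, max_eq_right h1]⟩)
  · exact Or.inr (Or.inr ⟨h2, by rw [min_eq_left h2, max_eq_right h]⟩)

theorem clp_mem {lo hi : ℝ} (h : lo ≤ hi) (t : ℝ) : clp lo hi t ∈ Icc lo hi := by
  rcases clp_cases h t with ⟨-, e⟩ | ⟨h1, h2, e⟩ | ⟨-, e⟩ <;> rw [e] <;> constructor <;> linarith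

/-- a short chord near the position `ξ` -/
structure ChordAt (x₁ x₂ η lo hi : ℝ) (Rm Rp : ℝ → ℝ → Prop) (ξ u v : ℝ) : Prop where
  l : lo ≤ u
  lt : u < v
  h : v ≤ hi
  nu : |u - clp (x₁ - η) (x₂ + η) ξ| ≤ 2 * η
  nv : |v - clp (x₁ - η) (x₂ + η) ξ| ≤ 2 * η
  rm : ξ ≤ x₁ - η → Rm u v
  rp : x₂ + η ≤ ξ → Rp u v

/-- the two windows of an arc -/
structure Win (x₁ x₂ η A₁ A₂ A₃ A₄ : ℝ) : Prop where
  w1 : x₁ - η ≤ A₁
  w2 : A₂ ≤ x₁ + η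
  w3 : x₂ - η ≤ A₃
  w4 : A₄ ≤ x₂ + η
  w5 : A₁ ≤ A₃
  w6 : A₂ ≤ A₄

theorem modulus {a : ℝ → ℂ} (ha : Continuous a) (A B : ℝ) {ω : ℝ} (hω : 0 < ω) :
    ∃ δ > 0, ∀ s ∈ Icc A B, ∀ t ∈ Icc A B, |s - t| ≤ δ → ‖a s - a t‖ ≤ ω := by
  obtain ⟨δ, hδ, h⟩ := Metric.uniformContinuousOn_iff_le.1
    (isCompact_Icc.uniformContinuousOn_of_continuous (ha.continuousOn (s := Icc A B))) ω hω
  exact ⟨δ, hδ, fun s hs t ht e => by
    simpa only [dist_eq_norm] using h s hs t ht (by rwa [Real.dist_eq])⟩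

theorem family {a : ℝ → ℂ} (ha : Continuous a) {x₁ x₂ η A₁ A₂ A₃ A₄ : ℝ} {Rm Rp : ℝ → ℝ → Prop}
    (hx : x₁ ≤ x₂) (hη : 0 < η) (hi : InjOn a (Icc (x₁ - η) (x₂ + η)))
    (hw : Win x₁ x₂ η A₁ A₂ A₃ A₄) (hm : Anchor A₁ A₂ Rm) (hp : Anchor A₃ A₄ Rp) :
    ∃ L > 0, ∀ L₁ > 0, ∃ u v : ℝ × ℝ → ℝ, Continuous u ∧ Continuous v ∧
      (∀ ξ l, ChordAt x₁ x₂ η A₁ A₄ Rm Rp ξ (u (ξ, l)) (v (ξ, l))) ∧
      (∀ ξ, L ≤ ‖a (v (ξ, 1)) - a (u (ξ, 1))‖) ∧ ∀ ξ, ‖a (v (ξ, 0)) - a (u (ξ, 0))‖ ≤ L₁ := by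
  obtain ⟨u₁, v₁, hm⟩ := hm
  obtain ⟨u₂, v₂, hp⟩ := hp
  obtain ⟨w1, w2, w3, w4, w5, w6⟩ := hw
  have b1 : A₁ ≤ u₁ ∧ u₁ < v₁ ∧ v₁ ≤ A₂ := by
    obtain ⟨u, v, -, -, e1, e2, -, e4⟩ := hm 1 one_pos
    exact e1 ▸ e2 ▸ ⟨(e4 1).1, (e4 1).2.1, (e4 1).2.2.1⟩
  have b2 : A₃ ≤ u₂ ∧ u₂ < v₂ ∧ v₂ ≤ A₄ := by
    obtain ⟨u, v, -, -, e1, e2, -, e4⟩ := hp 1 one_pos
    exact e1 ▸ e2 ▸ ⟨(e4 1).1, (e4 1).2.1, (e4 1).2.2.1⟩
  have conv : ∀ w ∈ Icc (0 : ℝ) 1, ∀ p q p' q' : ℝ, A₁ ≤ p → p < q → q ≤ A₂ → A₃ ≤ p' → p' < q' →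
      q' ≤ A₄ → A₁ ≤ (1 - w) * p + w * p' ∧ (1 - w) * p + w * p' < (1 - w) * q + w * q' ∧
        (1 - w) * q + w * q' ≤ A₄ := by
    intro w hw p q p' q' c1 c2 c3 c4 c5 c6
    have h0 := hw.1
    have h1 := sub_nonneg.2 hw.2
    refine ⟨by nlinarith, ?_, by nlinarith⟩
    rcases eq_or_lt_of_le h0 with e | e
    · rw [← e]; linarith
    · nlinarith [mul_pos e (sub_pos.2 c5), mul_nonneg h1 (sub_pos.2 c2).le]
  obtain ⟨w₀, hw₀, hmin⟩ := isCompact_Icc.exists_isMinOn (nonempty_Icc.2 zero_le_one)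
    (f := fun w : ℝ => ‖a ((1 - w) * v₁ + w * v₂) - a ((1 - w) * u₁ + w * u₂)‖)
    (Continuous.continuousOn (by fun_prop))
  refine ⟨‖a ((1 - w₀) * v₁ + w₀ * v₂) - a ((1 - w₀) * u₁ + w₀ * u₂)‖, ?_, fun L₁ hL₁ => ?_⟩
  · obtain ⟨c1, c2, c3⟩ := conv w₀ hw₀ _ _ _ _ b1.1 b1.2.1 b1.2.2 b2.1 b2.2.1 b2.2.2
    refine norm_pos_iff.2 (sub_ne_zero.2 fun e => c2.ne' (hi ?_ ?_ e))
    · exact ⟨by linarith, by linarith⟩
    · exact ⟨by linarith, by linarith⟩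
  obtain ⟨δ, hδ, hmod⟩ := modulus ha (x₁ - η) (x₂ + η) hL₁
  obtain ⟨um, vm, cu, cv, e1, e2, e3, e4⟩ := hm δ hδ
  obtain ⟨up, vp, cu', cv', f1, f2, f3, f4⟩ := hp δ hδ
  have hl : x₁ - η ≤ x₂ + η := by linarith
  have hd : 0 < x₂ - x₁ + 2 * η := by linarith
  let w : ℝ → ℝ := fun ξ => (clp (x₁ - η) (x₂ + η) ξ - (x₁ - η)) / (x₂ - x₁ + 2 * η)
  have cw : Continuous w := ((continuous_clp _ _).sub continuous_const).div_const _
  have mw : ∀ ξ, w ξ ∈ Icc (0 : ℝ) 1 := fun ξ =>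
    ⟨div_nonneg (sub_nonneg.2 (clp_mem hl ξ).1) hd.le,
      (div_le_one hd).2 (by linarith [(clp_mem hl ξ).2])⟩
  have ew : ∀ ξ, clp (x₁ - η) (x₂ + η) ξ = (1 - w ξ) * (x₁ - η) + w ξ * (x₂ + η) := fun ξ => by
    have : w ξ * (x₂ - x₁ + 2 * η) = clp (x₁ - η) (x₂ + η) ξ - (x₁ - η) := div_mul_cancel₀ _ hd.ne'
    linear_combination -this
  have near : ∀ ξ p p', x₁ - η ≤ p → p ≤ x₁ + η → x₂ - η ≤ p' → p' ≤ x₂ + η →
      |(1 - w ξ) * p + w ξ * p' - clp (x₁ - η) (x₂ + η) ξ| ≤ 2 * η := by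
    intro ξ p p' c1 c2 c3 c4
    have h0 := (mw ξ).1
    have h1 := sub_nonneg.2 (mw ξ).2
    rw [ew ξ, abs_le]
    constructor <;> nlinarith
  refine ⟨fun q => (1 - w q.1) * um q.2 + w q.1 * up q.2,
    fun q => (1 - w q.1) * vm q.2 + w q.1 * vp q.2, by fun_prop, by fun_prop, fun ξ l => ?_,
    fun ξ => ?_, fun ξ => ?_⟩
  · obtain ⟨g1, g2, g3, g4⟩ := e4 l
    obtain ⟨k1, k2, k3, k4⟩ := f4 l
    obtain ⟨c1, c2, c3⟩ := conv _ (mw ξ) _ _ _ _ g1 g2 g3 k1 k2 k3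
    refine ⟨c1, c2, c3, near ξ _ _ (by linarith) (by linarith) (by linarith) (by linarith),
      near ξ _ _ (by linarith) (by linarith) (by linarith) (by linarith), fun h => ?_, fun h => ?_⟩
    · have : w ξ = 0 := by
        have : clp (x₁ - η) (x₂ + η) ξ = x₁ - η := max_eq_left ((min_le_right _ _).trans h)
        simp only [w, this, sub_self, zero_div]
      simpa [this] using g4
    · have : w ξ = 1 := by
        have : clp (x₁ - η) (x₂ + η) ξ = x₂ + η := by rw [clp, min_eq_left h, max_eq_right hl]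
        simp only [w, this]
        rw [div_eq_one_iff_eq hd.ne']
        ring
      simpa [this] using k4
  · simp only [e1, e2, f1, f2]
    exact hmin (mw ξ)
  · obtain ⟨g1, g2, g3, -⟩ := e4 0
    obtain ⟨k1, k2, k3, -⟩ := f4 0
    obtain ⟨c1, c2, c3⟩ := conv _ (mw ξ) _ _ _ _ g1 g2 g3 k1 k2 k3
    have h0 := (mw ξ).1
    have h1 := sub_nonneg.2 (mw ξ).2
    refine hmod _ ⟨by linarith, by linarith⟩ _ ⟨by linarith, by linarith⟩ ?_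
    rw [abs_of_pos (sub_pos.2 c2)]
    nlinarith

/-- the conclusion: all thin shapes occur -/
def Concl (a b : ℝ → ℂ) : Prop :=
  ∃ τ > 0, ∀ s t : ℝ, 0 < s → s < τ → 0 < t → t < τ → ∃ u v u' v' : ℝ, ∃ M : ℂ,
    M = (a u + a v) / 2 + (b u' + b v') / 2 ∧ M ≠ 0 ∧ ip (a v - a u) M = 0 ∧
      ip (b v' - b u') M = 0 ∧ ‖a v - a u‖ = s * ‖M‖ ∧ ‖b v' - b u'‖ = t * ‖M‖

section

variable (a b : ℝ → ℂ) (x y : ℝ → ℝ) (t₁ t₂ ε η : ℝ)

/-- the chord moves towards all relevant points of the other arc -/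
def RelP (lo hi u v : ℝ) : Prop := ∀ θ ∈ Icc t₁ t₂, x t₂ - ε ≤ x θ → ∀ z ∈ Icc lo hi,
  y θ - 2 * ε ≤ z → ‖a v + b z‖ ≤ ‖a u + b z‖

/-- the chord moves away from all relevant points of the other arc -/
def RelM (lo hi u v : ℝ) : Prop := ∀ θ ∈ Icc t₁ t₂, x θ ≤ x t₁ + ε → ∀ z ∈ Icc lo hi,
  z ≤ y θ + 2 * ε → ‖a u + b z‖ ≤ ‖a v + b z‖

/-- short chords ahead of a diameter -/
def TameP : Prop := ∀ θ ∈ Icc t₁ t₂, ∀ u v z : ℝ, u < v → x θ + ε / 2 ≤ u → v ≤ x t₂ →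
  v ≤ x θ + 2 * ε → v - u ≤ 4 * η → y t₁ - η ≤ z → y t₁ ≤ y θ - ε / 2 → y θ - 2 * ε ≤ z →
    z ≤ y θ - ε / 2 → ‖a v + b z‖ ≤ ‖a u + b z‖

/-- short chords behind a diameter -/
def TameM : Prop := ∀ θ ∈ Icc t₁ t₂, ∀ u v z : ℝ, u < v → v ≤ x θ - ε / 2 → x t₁ ≤ u →
  x θ - 2 * ε ≤ u → v - u ≤ 4 * η → z ≤ y t₂ + η → y θ + ε / 2 ≤ y t₂ → z ≤ y θ + 2 * ε →
    y θ + ε / 2 ≤ z → ‖a u + b z‖ ≤ ‖a v + b z‖

/-- the curve of diameters avoids a small square -/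
def Avoid : Prop := ∀ θ ∈ Icc t₁ t₂, ¬(|x θ + ε - x t₂| ≤ 2 * η ∧ |y θ - ε - y t₁| ≤ 2 * η)

end

theorem sgood {a b : ℝ → ℂ} {x y : ℝ → ℝ} {t₁ t₂ ε η A₁ A₄ B₁ B₄ θ d u v u' v' : ℝ}
    {Rm Rp : ℝ → ℝ → Prop} (hη : 0 < η) (hε : 4 * η ≤ ε) (hθ : θ ∈ Icc t₁ t₂)
    (x1 : x t₁ ≤ x θ) (x2 : x θ ≤ x t₂) (y1 : y t₁ ≤ y θ) (y2 : y θ ≤ y t₂)
    (d1 : d < 0 → θ = t₁) (d2 : 0 < d → θ = t₂) (hB : y t₁ - η ≤ B₁) (hA : A₄ ≤ x t₂ + η)
    (ca : ChordAt (x t₁) (x t₂) η A₁ A₄ Rm (RelP a b x y t₁ t₂ ε B₁ B₄) (x θ + 2 * ε * d + ε) u v)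
    (cb : ChordAt (y t₁) (y t₂) η B₁ B₄ (RelM b a y x t₁ t₂ ε A₁ A₄) Rp (y θ + 2 * ε * d - ε) u' v')
    (ta : TameP a b x y t₁ t₂ ε η) (tb : TameM b a y x t₁ t₂ ε η) (av : Avoid x y t₁ t₂ ε η) :
    (‖a v + b u'‖ ≤ ‖a u + b u'‖ ∧ ‖a v + b v'‖ ≤ ‖a u + b v'‖) ∨
      (‖b u' + a u‖ ≤ ‖b v' + a u‖ ∧ ‖b u' + a v‖ ≤ ‖b v' + a v‖) := by
  obtain ⟨a1, a2, a3, a4, a5, -, a7⟩ := ca
  obtain ⟨b1, b2, b3, b4, b5, b6, -⟩ := cb
  rw [abs_le] at a4 a5 b4 b5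
  have hε0 : 0 < ε := by linarith
  have dn : d < 0 → 2 * ε * d < 0 := fun h => by nlinarith
  have dp : 0 < d → 0 < 2 * ε * d := fun h => by positivity
  have cx := clp_cases (show x t₁ - η ≤ x t₂ + η by linarith) (x θ + 2 * ε * d + ε)
  have cy := clp_cases (show y t₁ - η ≤ y t₂ + η by linarith) (y θ + 2 * ε * d - ε)
  by_cases h1 : x t₂ + η ≤ x θ + 2 * ε * d + ε
  · have k1 : x t₂ - ε ≤ x θ := by
      rcases lt_trichotomy d 0 with h | h | h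
      · linarith [dn h]
      · rw [h] at h1; linarith
      · rw [d2 h]; linarith
    have k2 : y θ - 2 * ε ≤ u' := by
      rcases lt_trichotomy d 0 with h | h | h
      · rw [d1 h]; linarith
      · rw [h] at cy b4
        rcases cy with ⟨c, e⟩ | ⟨-, -, e⟩ | ⟨c, e⟩ <;> rw [e] at b4 <;> linarith
      · have := dp h
        rcases cy with ⟨c, e⟩ | ⟨-, -, e⟩ | ⟨c, e⟩ <;> rw [e] at b4 <;> linarith
    exact Or.inl ⟨a7 h1 θ hθ k1 u' ⟨b1, by linarith⟩ k2,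
      a7 h1 θ hθ k1 v' ⟨by linarith, b3⟩ (by linarith)⟩
  by_cases h2 : y θ + 2 * ε * d - ε ≤ y t₁ - η
  · have k1 : y θ ≤ y t₁ + ε := by
      rcases lt_trichotomy d 0 with h | h | h
      · rw [d1 h]; linarith
      · rw [h] at h2; linarith
      · linarith [dp h]
    have k2 : v ≤ x θ + 2 * ε := by
      rcases lt_trichotomy d 0 with h | h | h
      · have := dn h
        rcases cx with ⟨c, e⟩ | ⟨-, -, e⟩ | ⟨c, e⟩ <;> rw [e] at a5 <;> linarith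
      · rw [h] at cx a5
        rcases cx with ⟨c, e⟩ | ⟨-, -, e⟩ | ⟨c, e⟩ <;> rw [e] at a5 <;> linarith
      · rw [d2 h]; linarith
    exact Or.inr ⟨b6 h2 θ hθ k1 u ⟨a1, by linarith⟩ (by linarith),
      b6 h2 θ hθ k1 v ⟨by linarith, a3⟩ k2⟩
  push Not at h1 h2
  have hd : d = 0 := by
    rcases lt_trichotomy d 0 with h | h | h
    · have := dn h
      rw [d1 h] at h2; linarith
    · exact h
    · have := dp h
      rw [d2 h] at h1; linarith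
  subst hd
  simp only [mul_zero, add_zero] at *
  have ex : clp (x t₁ - η) (x t₂ + η) (x θ + ε) = x θ + ε := by
    rcases cx with ⟨c, e⟩ | ⟨-, -, e⟩ | ⟨c, e⟩ <;> rw [e] <;> linarith
  have ey : clp (y t₁ - η) (y t₂ + η) (y θ - ε) = y θ - ε := by
    rcases cy with ⟨c, e⟩ | ⟨-, -, e⟩ | ⟨c, e⟩ <;> rw [e] <;> linarith
  rw [ex] at a4 a5
  rw [ey] at b4 b5
  by_cases h3 : x θ + ε + 2 * η ≤ x t₂
  · exact Or.inl ⟨ta θ hθ u v u' a2 (by linarith) (by linarith) (by linarith) (by linarith)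
      (by linarith) (by linarith) (by linarith) (by linarith),
      ta θ hθ u v v' a2 (by linarith) (by linarith) (by linarith) (by linarith)
      (by linarith) (by linarith) (by linarith) (by linarith)⟩
  by_cases h4 : y t₁ ≤ y θ - ε - 2 * η
  · exact Or.inr ⟨tb θ hθ u' v' u b2 (by linarith) (by linarith) (by linarith) (by linarith)
      (by linarith) (by linarith) (by linarith) (by linarith),
      tb θ hθ u' v' v b2 (by linarith) (by linarith) (by linarith) (by linarith)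
      (by linarith) (by linarith) (by linarith) (by linarith)⟩
  push Not at h3 h4
  exact (av θ hθ ⟨abs_le.2 ⟨by linarith, by linarith⟩, abs_le.2 ⟨by linarith, by linarith⟩⟩).elim

theorem continuous_ip {X : Type} [TopologicalSpace X] {f g : X → ℂ} (hf : Continuous f)
    (hg : Continuous g) : Continuous fun q => ip (f q) (g q) := by
  unfold ip; fun_prop

theorem pm4 {lo hi : ℝ} (h : lo ≤ hi) {G₁ G₂ G₃ G₄ : (Fin 4 → ℝ) → ℝ} (c1 : Continuous G₁)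
    (c2 : Continuous G₂) (c3 : Continuous G₃) (c4 : Continuous G₄)
    (h0 : ∀ q, q 0 = lo → 0 ≤ q 1 → q 1 ≤ 1 → 0 ≤ G₁ q ∧ 0 ≤ G₂ q)
    (h1 : ∀ q, q 0 = hi → 0 ≤ q 1 → q 1 ≤ 1 → G₁ q ≤ 0 ∧ G₂ q ≤ 0)
    (h2 : ∀ q, q 1 = 0 → G₂ q ≤ 0 ∨ 0 ≤ G₁ q) (h3 : ∀ q, q 1 = 1 → G₁ q ≤ 0 ∨ 0 ≤ G₂ q)
    (h4 : ∀ q, 0 ≤ q 1 → q 1 ≤ 1 → q 2 = 0 → G₃ q ≤ 0) (h5 : ∀ q, q 2 = 1 → 0 ≤ G₃ q)
    (h6 : ∀ q, 0 ≤ q 1 → q 1 ≤ 1 → q 3 = 0 → G₄ q ≤ 0) (h7 : ∀ q, q 3 = 1 → 0 ≤ G₄ q) :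
    ∃ q : Fin 4 → ℝ, 0 ≤ q 1 ∧ q 1 ≤ 1 ∧ G₁ q = 0 ∧ G₂ q = 0 ∧ G₃ q = 0 ∧ G₄ q = 0 := by
  obtain ⟨q, hq, e⟩ := Pool.Agent.Shared.Kuhn.poincare_miranda (I := Fin 4) (a := ![lo, 0, 0, 0])
    (b := ![hi, 1, 1, 1]) (fun i => by fin_cases i <;> simp [h])
    (fun q => ![-(G₁ q + G₂ q), -((1 - q 1) * max (G₁ q) (-G₂ q) + q 1 * min (G₁ q) (-G₂ q)),
      G₃ q, G₄ q])
    (Continuous.continuousOn (continuous_pi fun i => by
      fin_cases i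
      · show Continuous fun q : Fin 4 → ℝ => -(G₁ q + G₂ q)
        fun_prop
      · show Continuous fun q : Fin 4 → ℝ =>
          -((1 - q 1) * max (G₁ q) (-G₂ q) + q 1 * min (G₁ q) (-G₂ q))
        fun_prop
      · exact c3
      · exact c4))
    (fun q hq i hi => by
      have q0 : 0 ≤ q 1 := hq.1 1
      have q1 : q 1 ≤ 1 := hq.2 1
      fin_cases i
      · show -(G₁ q + G₂ q) ≤ 0
        linarith [(h0 q hi q0 q1).1, (h0 q hi q0 q1).2]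
      · show -((1 - q 1) * max (G₁ q) (-G₂ q) + q 1 * min (G₁ q) (-G₂ q)) ≤ 0
        have hi' : q 1 = 0 := hi
        have : 0 ≤ max (G₁ q) (-G₂ q) := by
          rcases h2 q hi' with h | h
          · exact le_max_of_le_right (by linarith)
          · exact le_max_of_le_left h
        rw [hi']; linarith
      · exact h4 q q0 q1 hi
      · exact h6 q q0 q1 hi)
    (fun q hq i hi => by
      have q0 : 0 ≤ q 1 := hq.1 1
      have q1 : q 1 ≤ 1 := hq.2 1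
      fin_cases i
      · show 0 ≤ -(G₁ q + G₂ q)
        linarith [(h1 q hi q0 q1).1, (h1 q hi q0 q1).2]
      · show 0 ≤ -((1 - q 1) * max (G₁ q) (-G₂ q) + q 1 * min (G₁ q) (-G₂ q))
        have hi' : q 1 = 1 := hi
        have : min (G₁ q) (-G₂ q) ≤ 0 := by
          rcases h3 q hi' with h | h
          · exact min_le_of_left_le h
          · exact min_le_of_right_le (by linarith)
        rw [hi']; linarith
      · exact h5 q hi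
      · exact h7 q hi)
  have e0 : -(G₁ q + G₂ q) = 0 := congrFun e 0
  have e1 : -((1 - q 1) * max (G₁ q) (-G₂ q) + q 1 * min (G₁ q) (-G₂ q)) = 0 := congrFun e 1
  have e2 : -G₂ q = G₁ q := by linarith
  rw [e2, max_self, min_self] at e1
  exact ⟨q, hq.1 1, hq.2 1, by linarith, by linarith, congrFun e 2, congrFun e 3⟩

theorem core {a b : ℝ → ℂ} {x y : ℝ → ℝ} {D t₁ t₂ ε η A₁ A₂ A₃ A₄ B₁ B₂ B₃ B₄ : ℝ}
    (ha : Continuous a) (hb : Continuous b) (hx : Continuous x) (hy : Continuous y) (hD : 0 < D)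
    (h12 : t₁ ≤ t₂) (mx : MonotoneOn x (Icc t₁ t₂)) (my : MonotoneOn y (Icc t₁ t₂)) (hη : 0 < η)
    (hε : 4 * η ≤ ε) (ia : InjOn a (Icc (x t₁ - η) (x t₂ + η)))
    (ib : InjOn b (Icc (y t₁ - η) (y t₂ + η))) (hab : ∀ s t, ‖a s + b t‖ ≤ D)
    (key : ∀ θ ∈ Icc t₁ t₂, ‖a (x θ) + b (y θ)‖ = D)
    (na : ∀ θ ∈ Icc t₁ t₂, ∀ s, |s - x θ| ≤ 2 * ε → ‖a s - a (x θ)‖ ≤ D / 4)
    (nb : ∀ θ ∈ Icc t₁ t₂, ∀ s, |s - y θ| ≤ 2 * ε → ‖b s - b (y θ)‖ ≤ D / 4)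
    (wa : Win (x t₁) (x t₂) η A₁ A₂ A₃ A₄) (wb : Win (y t₁) (y t₂) η B₁ B₂ B₃ B₄)
    (am : Anchor A₁ A₂ (RelM a b x y t₁ t₂ ε B₁ B₄)) (ap : Anchor A₃ A₄ (RelP a b x y t₁ t₂ ε B₁ B₄))
    (bm : Anchor B₁ B₂ (RelM b a y x t₁ t₂ ε A₁ A₄)) (bp : Anchor B₃ B₄ (RelP b a y x t₁ t₂ ε A₁ A₄))
    (tap : TameP a b x y t₁ t₂ ε η) (tam : TameM a b x y t₁ t₂ ε η)
    (tbp : TameP b a y x t₁ t₂ ε η) (tbm : TameM b a y x t₁ t₂ ε η)
    (av : Avoid x y t₁ t₂ ε η) (av' : Avoid y x t₁ t₂ ε η) : Concl a b := by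
  have l1 : t₁ ∈ Icc t₁ t₂ := ⟨le_rfl, h12⟩
  have l2 : t₂ ∈ Icc t₁ t₂ := ⟨h12, le_rfl⟩
  have hε0 : 0 < ε := by linarith
  obtain ⟨La, hLa, fa⟩ := family ha (mx l1 l2 h12) hη ia wa am ap
  obtain ⟨Lb, hLb, fb⟩ := family hb (my l1 l2 h12) hη ib wb bm bp
  refine ⟨min La Lb / D, by positivity, fun s t s0 s1 t0 t1 => ?_⟩
  obtain ⟨u, v, cu, cv, u1, u2, u3⟩ := fa (s * (D / 2)) (by positivity)
  obtain ⟨u', v', cu', cv', v1, v2, v3⟩ := fb (t * (D / 2)) (by positivity)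
  let th : (Fin 4 → ℝ) → ℝ := fun q => clp t₁ t₂ (q 0)
  have cth : Continuous th := (continuous_clp _ _).comp (continuous_apply 0)
  have mth : ∀ q, th q ∈ Icc t₁ t₂ := fun q => clp_mem h12 _
  have d1 : ∀ q, q 0 - th q < 0 → th q = t₁ := fun q h => by
    rcases clp_cases h12 (q 0) with ⟨c, e⟩ | ⟨-, -, e⟩ | ⟨c, e⟩
    · exact e
    · simp only [th, e] at h; linarith
    · simp only [th, e] at h; linarith
  have d2 : ∀ q, 0 < q 0 - th q → th q = t₂ := fun q h => by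
    rcases clp_cases h12 (q 0) with ⟨c, e⟩ | ⟨-, -, e⟩ | ⟨c, e⟩
    · simp only [th, e] at h; linarith
    · simp only [th, e] at h; linarith
    · exact e
  let ξ : (Fin 4 → ℝ) → ℝ := fun q => x (th q) + 2 * ε * (q 0 - th q) + (2 * q 1 - 1) * ε
  let ζ : (Fin 4 → ℝ) → ℝ := fun q => y (th q) + 2 * ε * (q 0 - th q) - (2 * q 1 - 1) * ε
  have cξ : Continuous ξ := by fun_prop
  have cζ : Continuous ζ := by fun_prop
  let P : (Fin 4 → ℝ) → ℂ := fun q => a (u (ξ q, q 2))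
  let Q : (Fin 4 → ℝ) → ℂ := fun q => a (v (ξ q, q 2))
  let P' : (Fin 4 → ℝ) → ℂ := fun q => b (u' (ζ q, q 3))
  let Q' : (Fin 4 → ℝ) → ℂ := fun q => b (v' (ζ q, q 3))
  have cP : Continuous P := by fun_prop
  have cQ : Continuous Q := by fun_prop
  have cP' : Continuous P' := by fun_prop
  have cQ' : Continuous Q' := by fun_prop
  let M : (Fin 4 → ℝ) → ℂ := fun q => (P q + Q q) / 2 + (P' q + Q' q) / 2
  have cM : Continuous M := by fun_prop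
  have Mc : ∀ q, M q = (P' q + Q' q) / 2 + (P q + Q q) / 2 := fun q => add_comm _ _
  have Mle : ∀ q, ‖M q‖ ≤ D := fun q => by
    have e : M q = ((P q + P' q) + (Q q + Q' q)) / 2 := by simp only [M]; ring
    rw [e, norm_div, Complex.norm_ofNat]
    linarith [norm_add_le (P q + P' q) (Q q + Q' q), hab (u (ξ q, q 2)) (u' (ζ q, q 3)),
      hab (v (ξ q, q 2)) (v' (ζ q, q 3))]
  have near : ∀ (x : ℝ → ℝ) (θ d k w : ℝ), x t₁ ≤ x θ → x θ ≤ x t₂ → (d < 0 → θ = t₁) →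
      (0 < d → θ = t₂) → |k| ≤ ε → |w - clp (x t₁ - η) (x t₂ + η) (x θ + 2 * ε * d + k)| ≤ 2 * η →
      |w - x θ| ≤ 2 * ε := by
    intro x θ d k w x1 x2 e1 e2 hk hw
    rw [abs_le] at hk hw ⊢
    have cx := clp_cases (show x t₁ - η ≤ x t₂ + η by linarith) (x θ + 2 * ε * d + k)
    rcases lt_trichotomy d 0 with h | h | h
    · have : 2 * ε * d < 0 := by nlinarith
      have e3 := congrArg x (e1 h)
      rcases cx with ⟨c, e⟩ | ⟨c, c', e⟩ | ⟨c, e⟩ <;> rw [e] at hw <;> constructor <;> linarith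
    · rw [h] at cx hw
      rcases cx with ⟨c, e⟩ | ⟨c, c', e⟩ | ⟨c, e⟩ <;> rw [e] at hw <;> constructor <;> linarith
    · have : 0 < 2 * ε * d := by positivity
      have e3 := congrArg x (e2 h)
      rcases cx with ⟨c, e⟩ | ⟨c, c', e⟩ | ⟨c, e⟩ <;> rw [e] at hw <;> constructor <;> linarith
  have Mge : ∀ q, 0 ≤ q 1 → q 1 ≤ 1 → D / 2 ≤ ‖M q‖ := fun q q0 q1 => by
    have m := mth q
    have k1 : |(2 * q 1 - 1) * ε| ≤ ε := abs_le.2 ⟨by nlinarith, by nlinarith⟩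
    have k2 : |-((2 * q 1 - 1) * ε)| ≤ ε := by rwa [abs_neg]
    have n1 := na _ m _ (near x _ _ _ _ (mx l1 m m.1) (mx m l2 m.2) (d1 q) (d2 q) k1 (u1 (ξ q) (q 2)).nu)
    have n2 := na _ m _ (near x _ _ _ _ (mx l1 m m.1) (mx m l2 m.2) (d1 q) (d2 q) k1 (u1 (ξ q) (q 2)).nv)
    have n3 := nb _ m _ (near y _ _ _ _ (my l1 m m.1) (my m l2 m.2) (d1 q) (d2 q) k2 (v1 (ζ q) (q 3)).nu)
    have n4 := nb _ m _ (near y _ _ _ _ (my l1 m m.1) (my m l2 m.2) (d1 q) (d2 q) k2 (v1 (ζ q) (q 3)).nv)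
    have e : a (x (th q)) + b (y (th q)) = M q - ((P q - a (x (th q))) + (Q q - a (x (th q))) +
        ((P' q - b (y (th q))) + (Q' q - b (y (th q))))) / 2 := by simp only [M]; ring
    have k := key _ m
    have k3 := norm_sub_le (M q) (((P q - a (x (th q))) + (Q q - a (x (th q))) +
        ((P' q - b (y (th q))) + (Q' q - b (y (th q))))) / 2)
    rw [← e, k, norm_div, Complex.norm_ofNat] at k3
    linarith [norm_add_le ((P q - a (x (th q))) + (Q q - a (x (th q))))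
      ((P' q - b (y (th q))) + (Q' q - b (y (th q)))),
      norm_add_le (P q - a (x (th q))) (Q q - a (x (th q))),
      norm_add_le (P' q - b (y (th q))) (Q' q - b (y (th q)))]
  obtain ⟨q, q0, q1, g1, g2, g3, g4⟩ := pm4 (lo := t₁ - 1) (hi := t₂ + 1) (by linarith)
    (G₁ := fun q => ip (Q q - P q) (M q)) (G₂ := fun q => ip (Q' q - P' q) (M q))
    (G₃ := fun q => ‖Q q - P q‖ - s * ‖M q‖) (G₄ := fun q => ‖Q' q - P' q‖ - t * ‖M q‖)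
    (continuous_ip (cQ.sub cP) cM) (continuous_ip (cQ'.sub cP') cM) (by fun_prop) (by fun_prop)
    (fun q e q0 q1 => by
      have e1 : th q = t₁ := max_eq_left ((min_le_right _ _).trans (by rw [e]; linarith))
      have z1 : ξ q ≤ x t₁ - η := by simp only [ξ, e1, e]; nlinarith
      have z2 : ζ q ≤ y t₁ - η := by simp only [ζ, e1, e]; nlinarith
      obtain ⟨a1, a2, a3, -, a5, a6, -⟩ := u1 (ξ q) (q 2)
      obtain ⟨b1, b2, b3, -, b5, b6, -⟩ := v1 (ζ q) (q 3)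
      rw [clp, max_eq_left ((min_le_right _ _).trans z1), abs_le] at a5
      rw [clp, max_eq_left ((min_le_right _ _).trans z2), abs_le] at b5
      refine ⟨ip_mid_ge (a6 z1 t₁ l1 (by linarith) _ ⟨b1, by linarith⟩ (by linarith))
        (a6 z1 t₁ l1 (by linarith) _ ⟨by linarith, b3⟩ (by linarith)), ?_⟩
      rw [Mc]
      exact ip_mid_ge (b6 z2 t₁ l1 (by linarith) _ ⟨a1, by linarith⟩ (by linarith))
        (b6 z2 t₁ l1 (by linarith) _ ⟨by linarith, a3⟩ (by linarith)))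
    (fun q e q0 q1 => by
      have e1 : th q = t₂ := by
        simp only [th, clp, e]
        rw [min_eq_left (by linarith), max_eq_right h12]
      have z1 : x t₂ + η ≤ ξ q := by simp only [ξ, e1, e]; nlinarith
      have z2 : y t₂ + η ≤ ζ q := by simp only [ζ, e1, e]; nlinarith
      obtain ⟨a1, a2, a3, a4, -, -, a6⟩ := u1 (ξ q) (q 2)
      obtain ⟨b1, b2, b3, b4, -, -, b6⟩ := v1 (ζ q) (q 3)
      rw [clp, min_eq_left z1, max_eq_right (by linarith [mx l1 l2 h12]), abs_le] at a4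
      rw [clp, min_eq_left z2, max_eq_right (by linarith [my l1 l2 h12]), abs_le] at b4
      refine ⟨ip_mid_le (a6 z1 t₂ l2 (by linarith) _ ⟨b1, by linarith⟩ (by linarith))
        (a6 z1 t₂ l2 (by linarith) _ ⟨by linarith, b3⟩ (by linarith)), ?_⟩
      rw [Mc]
      exact ip_mid_le (b6 z2 t₂ l2 (by linarith) _ ⟨a1, by linarith⟩ (by linarith))
        (b6 z2 t₂ l2 (by linarith) _ ⟨by linarith, a3⟩ (by linarith)))
    (fun q e => by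
      have m := mth q
      have z1 : ξ q = x (th q) + 2 * ε * (q 0 - th q) - ε := by simp only [ξ, e]; ring
      have z2 : ζ q = y (th q) + 2 * ε * (q 0 - th q) + ε := by simp only [ζ, e]; ring
      rcases sgood hη hε m (my l1 m m.1) (my m l2 m.2) (mx l1 m m.1) (mx m l2 m.2) (d1 q) (d2 q)
        wa.w1 wb.w4 (z2 ▸ v1 (ζ q) (q 3)) (z1 ▸ u1 (ξ q) (q 2)) tbp tam av' with h | h <;>
        rw [← z1, ← z2] at h
      · left
        rw [Mc]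
        exact ip_mid_le h.1 h.2
      · exact Or.inr (ip_mid_ge h.1 h.2))
    (fun q e => by
      have m := mth q
      have z1 : ξ q = x (th q) + 2 * ε * (q 0 - th q) + ε := by simp only [ξ, e]; ring
      have z2 : ζ q = y (th q) + 2 * ε * (q 0 - th q) - ε := by simp only [ζ, e]; ring
      rcases sgood hη hε m (mx l1 m m.1) (mx m l2 m.2) (my l1 m m.1) (my m l2 m.2) (d1 q) (d2 q)
        wb.w1 wa.w4 (z1 ▸ u1 (ξ q) (q 2)) (z2 ▸ v1 (ζ q) (q 3)) tap tbm av with h | h <;>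
        rw [← z1, ← z2] at h
      · exact Or.inl (ip_mid_le h.1 h.2)
      · right
        rw [Mc]
        exact ip_mid_ge h.1 h.2)
    (fun q q0 q1 e => by
      have h1 := u3 (ξ q)
      have h2 := mul_le_mul_of_nonneg_left (Mge q q0 q1) s0.le
      simp only [P, Q, e]
      linarith)
    (fun q e => by
      have h1 := u2 (ξ q)
      have h2 := mul_le_mul_of_nonneg_left (Mle q) s0.le
      have h3 := (lt_div_iff₀ hD).1 s1
      simp only [P, Q, e]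
      linarith [min_le_left La Lb])
    (fun q q0 q1 e => by
      have h1 := v3 (ζ q)
      have h2 := mul_le_mul_of_nonneg_left (Mge q q0 q1) t0.le
      simp only [P', Q', e]
      linarith)
    (fun q e => by
      have h1 := v2 (ζ q)
      have h2 := mul_le_mul_of_nonneg_left (Mle q) t0.le
      have h3 := (lt_div_iff₀ hD).1 t1
      simp only [P', Q', e]
      linarith [min_le_right La Lb])
  refine ⟨u (ξ q, q 2), v (ξ q, q 2), u' (ζ q, q 3), v' (ζ q, q 3), M q, rfl, fun e => ?_, g1, g2,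
    sub_eq_zero.1 g3, sub_eq_zero.1 g4⟩
  have := Mge q q0 q1
  rw [e, norm_zero] at this
  linarith

end Pool.Agent.Lib.MP_9488bf_co.Thin
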