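import Pool.Agent.Lib.MP_9488bf_co.Thin.Basic

/-! At an end of an interval of diameters both arcs turn inwards. -/

noncomputable section

namespace Pool.Agent.Lib.MP_9488bf_co.Thin

open Set Real

theorem three_idV (a b c : ℝ) (z : ℂ) :
    sin (c - a) * Vc b z = sin (c - b) * Vc a z + sin (b - a) * Vc c z := by
  simp only [Vc, sin_sub]; ring

/-- no chord up to time `s` lies in the open cone -/
def No (a : ℝ → ℂ) (θ φ s : ℝ) : Prop :=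
  ∀ u v, 0 ≤ u → u < v → v ≤ s → ¬(0 < Hc θ (a v - a u) ∧ 0 < Hc φ (a v - a u))

section

variable {a : ℝ → ℂ} {r φ θm θ θ' s : ℝ}

theorem No.mono_s {s' : ℝ} (h : No a θ φ s) (hs : s' ≤ s) : No a θ φ s' :=
  fun u v h0 h1 h2 => h u v h0 h1 (h2.trans hs)

theorem cone_mono {c : ℂ} (h1 : φ ≤ θ') (h2 : θ' ≤ θ) (h3 : θ - φ < π) (k1 : 0 < Hc θ c)
    (k2 : 0 < Hc φ c) : 0 < Hc θ' c := by
  rcases eq_or_lt_of_le h2 with e | e
  · rwa [e]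
  have s1 : 0 < sin (θ - θ') := sin_pos_of_pos_of_lt_pi (by linarith) (by linarith)
  have s2 : 0 ≤ sin (θ' - φ) := sin_nonneg_of_nonneg_of_le_pi (by linarith) (by linarith)
  have s3 : 0 ≤ sin (θ - φ) := sin_nonneg_of_nonneg_of_le_pi (by linarith) (by linarith)
  refine pos_of_mul ?_ s3
  rw [three_id φ θ' θ]
  positivity

theorem No.mono_θ (h : No a θ' φ s) (h1 : φ ≤ θ') (h2 : θ' ≤ θ) (h3 : θ - φ < π) : No a θ φ s :=
  fun u v h0 k1 k2 k => h u v h0 k1 k2 ⟨cone_mono h1 h2 h3 k.1 k.2, k.2⟩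

theorem No_zero : No a θ φ 0 := fun _ _ h0 h1 h2 _ => absurd (h0.trans_lt h1) (not_lt.2 h2)

theorem isClosed_No (ha : Continuous a) : IsClosed {s | No a θ φ s} := by
  refine isOpen_compl_iff.1 (isOpen_iff_forall_mem_open.2 fun s hs => ?_)
  have hs' : ¬No a θ φ s := hs
  unfold No at hs'
  push Not at hs'
  obtain ⟨u, v, h0, h1, h2, h3, h4⟩ := hs'
  have o : IsOpen ({w | u < w} ∩ ({w | 0 < Hc θ (a w - a u)} ∩ {w | 0 < Hc φ (a w - a u)})) :=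
    isOpen_Ioi.inter ((isOpen_lt continuous_const ((continuous_Hc θ).comp (by fun_prop))).inter
      (isOpen_lt continuous_const ((continuous_Hc φ).comp (by fun_prop))))
  obtain ⟨l, hl, k⟩ := exists_Ioc_subset_of_mem_nhds (o.mem_nhds ⟨h1, h3, h4⟩) ⟨u, h1⟩
  obtain ⟨w, w1, w2⟩ := exists_between hl
  obtain ⟨k1, k2, k3⟩ := k ⟨w1, w2.le⟩
  exact ⟨Ioi w, fun t ht hN => hN u w h0 k1 (le_of_lt ht) ⟨k2, k3⟩, isOpen_Ioi, w2.trans_le h2⟩

theorem exists_max (ha : Continuous a) (hr : 0 ≤ r) (θ φ : ℝ) :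
    ∃ S ∈ Icc 0 r, No a θ φ S ∧ ∀ s ∈ Icc 0 r, No a θ φ s → s ≤ S := by
  obtain ⟨S, ⟨h1, h2⟩, h3⟩ := (isCompact_Icc.inter_right (isClosed_No (θ := θ) (φ := φ) ha)
    (s := Icc 0 r)).exists_isGreatest ⟨0, ⟨le_rfl, hr⟩, No_zero⟩
  exact ⟨S, h1, h2, fun s hs hN => h3 ⟨hs, hN⟩⟩

theorem No.left (h : No a θ φ s) (h1 : φ ≤ θ) (h2 : θ - φ < π / 2) {u : ℝ} (hu : u ∈ Icc 0 s)
    (hV : Vc θ (a s - a u) ≤ 0) : Hc θ (a s - a u) ≤ 0 := by
  by_contra hc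
  push Not at hc
  have hus : u < s := lt_of_le_of_ne hu.2 fun e => by
    rw [e, sub_self, Hc_zero] at hc
    exact lt_irrefl _ hc
  refine h u s hu.1 hus le_rfl ⟨hc, ?_⟩
  have c1 : 0 < cos (θ - φ) := cos_pos_of_mem_Ioo ⟨by linarith [pi_pos], h2⟩
  have s1 : 0 ≤ sin (θ - φ) := sin_nonneg_of_nonneg_of_le_pi (by linarith) (by linarith [pi_pos])
  rw [Hc_rot θ φ, show φ - θ = -(θ - φ) by ring, cos_neg, sin_neg]
  nlinarith [mul_pos c1 hc, mul_nonneg s1 (neg_nonneg.2 hV)]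

/-- the invariant of the backward induction -/
structure Iv (a : ℝ → ℂ) (r φ θm θ s : ℝ) : Prop where
  mem : s ∈ Icc 0 r
  no : No a θ φ s
  low : ∀ u ∈ Icc 0 s, Vc θ (a s - a u) ≤ 0
  far : ∀ u ∈ Icc 0 r, No a θ φ u → Vc θ (a s - a u) ≤ 0 ∨ Vc θm (a s - a u) ≤ 0

theorem exists_Iv (ha : Continuous a) (hr : 0 ≤ r) (φ θm θ : ℝ) : ∃ s, Iv a r φ θm θ s := by
  obtain ⟨S, h1, h2, h3⟩ := exists_max ha hr θ φ
  obtain ⟨s, hs, hmin⟩ := isCompact_Icc.exists_isMinOn (nonempty_Icc.2 h1.1)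
    (f := fun u => Vc θ (a u)) ((continuous_Vc θ).comp ha).continuousOn
  have k : ∀ u ∈ Icc 0 S, Vc θ (a s - a u) ≤ 0 := fun u hu => by
    rw [Vc_sub]
    exact sub_nonpos.2 (hmin hu)
  exact ⟨s, ⟨hs.1, hs.2.trans h1.2⟩, h2.mono_s hs.2, fun u hu => k u ⟨hu.1, hu.2.trans hs.2⟩,
    fun u hu hN => Or.inl (k u ⟨hu.1, h3 u hu hN⟩)⟩

theorem Iv.step (ha : Continuous a) (h : Iv a r φ θm θ s) (h1 : φ ≤ θ') (h2 : θ' ≤ θ) (h3 : θ ≤ θm)
    (h4 : θm - φ < π / 2) : ∃ s', Iv a r φ θm θ' s' ∧ Hc θ (a s - a s') ≤ 0 := by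
  have hπ := pi_pos
  by_cases hN : No a θ' φ s
  · refine ⟨s, ⟨h.mem, hN, fun u hu => ?_, fun u hu hu' => ?_⟩, by rw [sub_self, Hc_zero]⟩
    · by_contra hc
      push Not at hc
      have k1 := h.low u hu
      have k2 := h.no.left (h1.trans h2) (by linarith) hu k1
      have c1 : 0 < cos (θ - θ') := cos_pos_of_mem_Ioo ⟨by linarith, by linarith⟩
      have s1 : 0 ≤ sin (θ - θ') := sin_nonneg_of_nonneg_of_le_pi (by linarith) (by linarith)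
      rw [Vc_rot θ θ', show θ' - θ = -(θ - θ') by ring, cos_neg, sin_neg] at hc
      nlinarith [mul_nonneg c1.le (neg_nonneg.2 k1), mul_nonneg s1 (neg_nonneg.2 k2)]
    · rcases h.far u hu (hu'.mono_θ h1 h2 (by linarith)) with k | k
      · by_contra hc
        push Not at hc
        rcases eq_or_lt_of_le h2 with e | e
        · rw [e] at hc; linarith [hc.1]
        have s1 : 0 < sin (θ - θ') := sin_pos_of_pos_of_lt_pi (by linarith) (by linarith)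
        have s2 : 0 ≤ sin (θm - θ) := sin_nonneg_of_nonneg_of_le_pi (by linarith) (by linarith)
        have s3 : 0 ≤ sin (θm - θ') := sin_nonneg_of_nonneg_of_le_pi (by linarith) (by linarith)
        have := three_idV θ' θ θm (a s - a u)
        nlinarith [mul_pos s1 hc.2, mul_nonneg s2 hc.1.le, mul_nonneg s3 (neg_nonneg.2 k)]
      · exact Or.inr k
  · obtain ⟨s', hs'⟩ := exists_Iv ha (h.mem.1.trans h.mem.2) φ θm θ'
    have hle : s' ≤ s := by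
      by_contra hc
      exact hN (hs'.no.mono_s (not_le.1 hc).le)
    exact ⟨s', hs', h.no.left (h1.trans h2) (by linarith) ⟨hs'.mem.1, hle⟩
      (h.low s' ⟨hs'.mem.1, hle⟩)⟩

theorem est {c : ℂ} {L : ℝ} (h : Vc θ c ≤ 0 ∨ Vc θm c ≤ 0) (h1 : θ ≤ θm) (h2 : θm - θ ≤ π / 3)
    (hL : 0 ≤ L) (hH : Hc θ c ≤ L) : Vc θ c ≤ 2 * L := by
  rcases le_total (Vc θ c) 0 with k | k
  · linarith
  rcases h with h | h
  · linarith
  have c1 := half_le_cos (sub_nonneg.2 h1) h2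
  have s1 : 0 ≤ sin (θm - θ) := sin_nonneg_of_nonneg_of_le_pi (by linarith) (by linarith [pi_pos])
  have s2 := sin_le_one (θm - θ)
  rw [Vc_rot θ θm] at h
  nlinarith [mul_le_mul_of_nonneg_left hH s1, mul_le_mul_of_nonneg_right c1 k,
    mul_le_mul_of_nonneg_right s2 hL]

end

theorem young {a b : ℝ → ℂ} (ha : Continuous a) (hb : Continuous b) {D r m θ₀ φ ψ : ℝ} (hD : 0 < D)
    (hr : 0 ≤ r) (hm : 0 < m) (hm' : m ≤ π / 3) (h1 : φ ≤ θ₀) (h2 : θ₀ + m - φ < π / 2)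
    (h3 : ψ ≤ θ₀) (h4 : θ₀ + m - ψ < π / 2) (h0 : -Hc θ₀ (a 0 + b 0) = D)
    (hle : ∀ θ ∈ Icc θ₀ (θ₀ + m), ∀ s ∈ Icc 0 r, ∀ t ∈ Icc 0 r, -Hc θ (a s + b t) ≤ D)
    (hFa : ∀ θ ∈ Icc θ₀ (θ₀ + m), No a θ φ r → Vc θ (a r + b 0) ≤ 0)
    (hFb : ∀ θ ∈ Icc θ₀ (θ₀ + m), No b θ ψ r → Vc θ (a 0 + b r) ≤ 0)
    (hne : ∀ s ∈ Icc 0 r, ∀ t ∈ Icc 0 r, -Hc (θ₀ + m) (a s + b t) < D) :
    ∃ θ ∈ Icc θ₀ (θ₀ + m), ∃ s ∈ Icc 0 r, ∃ t ∈ Icc 0 r,
      (∀ s' ∈ Icc 0 s, ∀ t' ∈ Icc 0 t, 0 < Vc θ (a s' + b t')) ∧ ¬No a θ φ s ∧ ¬No b θ ψ t := by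
  by_contra NA
  have K : ∀ θ ∈ Icc θ₀ (θ₀ + m), ∃ U ∈ Icc 0 r, ∃ W ∈ Icc 0 r, No a θ φ U ∧ No b θ ψ W ∧
      Vc θ (a U + b W) ≤ 0 := by
    intro θ hθ
    obtain ⟨S, s1, s2, s3⟩ := exists_max ha hr θ φ
    obtain ⟨T, t1, t2, t3⟩ := exists_max hb hr θ ψ
    rcases eq_or_lt_of_le s1.2 with e | s4
    · exact ⟨r, ⟨hr, le_rfl⟩, 0, ⟨le_rfl, hr⟩, e ▸ s2, No_zero, hFa θ hθ (e ▸ s2)⟩
    rcases eq_or_lt_of_le t1.2 with e | t4
    · exact ⟨0, ⟨le_rfl, hr⟩, r, ⟨hr, le_rfl⟩, No_zero, e ▸ t2, hFb θ hθ (e ▸ t2)⟩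
    by_contra hc
    push Not at hc
    have o : IsOpen {z : ℝ × ℝ | 0 < Vc θ (a z.1 + b z.2)} :=
      isOpen_lt continuous_const ((continuous_Vc θ).comp (by fun_prop))
    obtain ⟨O₁, O₂, o1, o2, i1, i2, i3⟩ := generalized_tube_lemma (isCompact_Icc (a := 0) (b := S))
      (isCompact_Icc (a := 0) (b := T)) o (fun z hz =>
        hc z.1 ⟨hz.1.1, hz.1.2.trans s1.2⟩ z.2 ⟨hz.2.1, hz.2.2.trans t1.2⟩ (s2.mono_s hz.1.2)
          (t2.mono_s hz.2.2))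
    have ext : ∀ {O : Set ℝ} {S : ℝ}, IsOpen O → 0 ≤ S → S < r → Icc 0 S ⊆ O →
        ∃ S', S < S' ∧ S' ≤ r ∧ Icc 0 S' ⊆ O := by
      intro O S o s0 s1 i
      obtain ⟨l, hl, k⟩ := exists_Ico_subset_of_mem_nhds (o.mem_nhds (i ⟨s0, le_rfl⟩)) ⟨r, s1⟩
      obtain ⟨w, w1, w2⟩ := exists_between (lt_min hl s1)
      refine ⟨w, w1, (w2.trans_le (min_le_right _ _)).le, fun z hz => ?_⟩
      rcases le_total z S with h | h
      · exact i ⟨hz.1, h⟩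
      · exact k ⟨h, hz.2.trans_lt (w2.trans_le (min_le_left _ _))⟩
    obtain ⟨S', a1, a2, a3⟩ := ext o1 s1.1 s4 i1
    obtain ⟨T', b1, b2, b3⟩ := ext o2 t1.1 t4 i2
    have m1 : S' ∈ Icc 0 r := ⟨s1.1.trans a1.le, a2⟩
    have m2 : T' ∈ Icc 0 r := ⟨t1.1.trans b1.le, b2⟩
    exact NA ⟨θ, hθ, S', m1, T', m2, fun s hs t ht => i3 (mk_mem_prod (a3 hs) (b3 ht)),
      fun h => absurd (s3 S' m1 h) (not_le.2 a1), fun h => absurd (t3 T' m2 h) (not_le.2 b1)⟩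
  have E : ∀ θ ∈ Icc θ₀ (θ₀ + m), ∀ s t, Iv a r φ (θ₀ + m) θ s → Iv b r ψ (θ₀ + m) θ t →
      Vc θ (a s + b t) ≤ 4 * (D + Hc θ (a s + b t)) := by
    intro θ hθ s t hs ht
    obtain ⟨U, u1, W, w1, u2, w2, k⟩ := K θ hθ
    have l0 := hle θ hθ s hs.mem t ht.mem
    have l1 := hle θ hθ U u1 t ht.mem
    have l2 := hle θ hθ s hs.mem W w1
    have e1 := est (L := D + Hc θ (a s + b t)) (hs.far U u1 u2) hθ.2 (by linarith [hθ.1])
      (by linarith) (by rw [Hc_sub]; rw [Hc_add] at *; linarith)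
    have e2 := est (L := D + Hc θ (a s + b t)) (ht.far W w1 w2) hθ.2 (by linarith [hθ.1])
      (by linarith) (by rw [Hc_sub]; rw [Hc_add] at *; linarith)
    rw [Vc_sub] at e1 e2
    rw [Vc_add] at k ⊢
    linarith
  have R : ∀ δ : ℝ, 0 < δ → ∀ k : ℕ, k * δ ≤ m → ∀ s t, Iv a r φ (θ₀ + m) (θ₀ + k * δ) s →
      Iv b r ψ (θ₀ + m) (θ₀ + k * δ) t →
      D + Hc (θ₀ + k * δ) (a s + b t) ≤ k * (D * δ ^ 2 / 2) * (1 + 4 * δ) ^ k := by
    intro δ hδ k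
    induction k with
    | zero =>
      intro _ s t hs ht
      simp only [Nat.cast_zero, zero_mul, add_zero] at hs ht ⊢
      have k1 := hs.no.left h1 (by linarith) ⟨le_rfl, hs.mem.1⟩ (hs.low 0 ⟨le_rfl, hs.mem.1⟩)
      have k2 := ht.no.left h3 (by linarith) ⟨le_rfl, ht.mem.1⟩ (ht.low 0 ⟨le_rfl, ht.mem.1⟩)
      rw [Hc_sub] at k1 k2
      rw [Hc_add] at h0 ⊢
      linarith
    | succ k ih =>
      intro hk s t hs ht
      push_cast at hk hs ht ⊢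
      have k0 : 0 ≤ (k : ℝ) * δ := by positivity
      obtain ⟨s', hs', l1⟩ := hs.step ha (θ' := θ₀ + k * δ) (by linarith) (by linarith)
        (by linarith) h2
      obtain ⟨t', ht', l2⟩ := ht.step hb (θ' := θ₀ + k * δ) (by linarith) (by linarith)
        (by linarith) h4
      have hθ : θ₀ + k * δ ∈ Icc θ₀ (θ₀ + m) := ⟨by linarith, by linarith⟩
      have i1 := ih (by linarith) s' t' hs' ht'
      have i2 := E _ hθ s' t' hs' ht'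
      have i3 := hle _ hθ s' hs'.mem t' ht'.mem
      have r1 := Hc_rot (θ₀ + k * δ) (θ₀ + (k + 1) * δ) (a s' + b t')
      rw [show θ₀ + (k + 1) * δ - (θ₀ + k * δ) = δ by ring] at r1
      have c1 : 1 - δ ^ 2 / 2 ≤ cos δ := one_sub_sq_div_two_le_cos
      have c2 := cos_le_one δ
      have s1 : 0 ≤ sin δ := sin_nonneg_of_nonneg_of_le_pi hδ.le (by linarith [pi_pos])
      have s2 : sin δ ≤ δ := sin_le hδ.le
      have p1 : (1 : ℝ) ≤ (1 + 4 * δ) ^ (k + 1) := one_le_pow₀ (by linarith)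
      rw [Hc_sub] at l1 l2
      have l3 : Hc (θ₀ + (k + 1) * δ) (a s + b t) ≤ Hc (θ₀ + (k + 1) * δ) (a s' + b t') := by
        rw [Hc_add, Hc_add]; linarith
      set L := D + Hc (θ₀ + k * δ) (a s' + b t') with hL
      have L0 : 0 ≤ L := by linarith
      have e1 : Hc (θ₀ + k * δ) (a s' + b t') = L - D := by rw [hL]; ring
      rw [e1] at r1
      have q1 : sin δ * Vc (θ₀ + k * δ) (a s' + b t') ≤ δ * (4 * L) :=
        (mul_le_mul_of_nonneg_left i2 s1).trans (mul_le_mul_of_nonneg_right s2 (by linarith))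
      have q2 : cos δ * L ≤ L := by nlinarith
      have q3 : D * (1 - cos δ) ≤ D * δ ^ 2 / 2 := by nlinarith
      have q4 : (1 + 4 * δ) * L ≤ (1 + 4 * δ) * (k * (D * δ ^ 2 / 2) * (1 + 4 * δ) ^ k) :=
        mul_le_mul_of_nonneg_left i1 (by linarith)
      have q5 : D * δ ^ 2 / 2 ≤ D * δ ^ 2 / 2 * (1 + 4 * δ) ^ (k + 1) :=
        le_mul_of_one_le_right (by positivity) p1
      rw [pow_succ (1 + 4 * δ) k] at q5 ⊢
      linarith
  obtain ⟨s, hs⟩ := exists_Iv ha hr φ (θ₀ + m) (θ₀ + m)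
  obtain ⟨t, ht⟩ := exists_Iv hb hr ψ (θ₀ + m) (θ₀ + m)
  have L0 : 0 < D + Hc (θ₀ + m) (a s + b t) := by linarith [hne s hs.mem t ht.mem]
  obtain ⟨n, hn⟩ := exists_nat_gt (D * m ^ 2 / 2 * exp (4 * m) / (D + Hc (θ₀ + m) (a s + b t)))
  have n0 : (0 : ℝ) < n := lt_of_le_of_lt (by positivity) hn
  have e : (n : ℝ) * (m / n) = m := by field_simp
  have k := R (m / n) (by positivity) n e.le s t (by rwa [e]) (by rwa [e])
  rw [e] at k
  have p1 : (1 + 4 * (m / n)) ^ n ≤ exp (4 * m) := by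
    calc (1 + 4 * (m / n)) ^ n ≤ exp (4 * (m / n)) ^ n :=
          pow_le_pow_left₀ (by positivity) (by linarith [add_one_le_exp (4 * (m / n))]) n
      _ = exp (4 * m) := by rw [← exp_nat_mul]; congr 1; field_simp
  have p2 : (n : ℝ) * (D * (m / n) ^ 2 / 2) = D * m ^ 2 / 2 / n := by field_simp
  rw [p2] at k
  have p3 : D * m ^ 2 / 2 / n * (1 + 4 * (m / n)) ^ n ≤ D * m ^ 2 / 2 / n * exp (4 * m) :=
    mul_le_mul_of_nonneg_left p1 (by positivity)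
  rw [div_lt_iff₀ L0] at hn
  have p4 : D * m ^ 2 / 2 / n * exp (4 * m) < D + Hc (θ₀ + m) (a s + b t) := by
    rw [div_mul_eq_mul_div, div_lt_iff₀ n0]
    linarith
  linarith

end Pool.Agent.Lib.MP_9488bf_co.Thin
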