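import Pool.Agent.Lib.MP_9488bf_co.Thin.Val
import Pool.Agent.Lib.MP_9488bf_co.Thin.Young

/-! Anchors at an end of an interval of diameters. -/

noncomputable section

namespace Pool.Agent.Lib.MP_9488bf_co.Thin

open Set Real

/-- chords in the cone in every neighbourhood of an interval -/
def Chd (a : ℝ → ℂ) (x₂ s θ φ : ℝ) : Prop :=
  ∀ σ > 0, ∃ u v, x₂ - σ ≤ u ∧ u < v ∧ v ≤ x₂ + s + σ ∧ 0 < Hc θ (a v - a u) ∧ 0 < Hc φ (a v - a u)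

/-- the data at an end -/
structure EndD (a b : ℝ → ℂ) (x₂ y₂ t₂ tb tb' η θp s t g : ℝ) : Prop where
  ms : s ∈ Icc 0 (η / 2)
  mt : t ∈ Icc 0 (η / 2)
  hg : 0 < g
  gap : ∀ s' ∈ Icc x₂ (x₂ + s), ∀ t' ∈ Icc y₂ (y₂ + t), g ≤ Vc θp (a s' + b t')
  ca : Chd a x₂ s θp (tb - kp)
  cb : Chd b y₂ t θp (tb' - kp)
  da : ∀ s' ∈ Icc x₂ (x₂ + s), Hc (t₂ + kp) (a s' - a x₂) ≤ 0
  db : ∀ t' ∈ Icc y₂ (y₂ + t), Hc (t₂ + kp) (b t' - b y₂) ≤ 0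

section

variable {D t₁ t₂ tb tb' ε η μ : ℝ} {a b : ℝ → ℂ} {x y : ℝ → ℝ}

theorem EndD.swap {x₂ y₂ θp s t g : ℝ} (h : EndD a b x₂ y₂ t₂ tb tb' η θp s t g) :
    EndD b a y₂ x₂ t₂ tb' tb η θp t s g :=
  ⟨h.mt, h.ms, h.hg, fun s' hs t' ht => by rw [add_comm]; exact h.gap t' ht s' hs, h.cb, h.ca, h.db,
    h.da⟩

theorem Side.rep (h : Side D t₁ t₂ a x) (hD : 0 < D) (hπ : t₂ - t₁ < π) (hb : IsTb x t₁ t₂ tb)
    (ty : Fp a (x t₂) (t₂ + kp) ∨ Sp a (x t₂) (t₂ + kp) (tb - kp)) :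
    ∃ α : ℝ → ℂ, Continuous α ∧ α 0 = a (x t₂) ∧ ∃ r₀ > 0,
      (∀ r ∈ Ioc 0 r₀, ∃ m₀ > 0, ∀ θ ∈ Icc t₂ (t₂ + m₀), No α θ (tb - kp) r →
        Vc θ (α r - α 0) + D * sin (θ - t₂) ≤ 0) ∧
      (∀ s, 0 ≤ s → ∀ θ ∈ Icc t₂ (t₂ + kp), ∃ s', Hc θ (a s') ≤ Hc θ (α s)) ∧
      ∀ θ ∈ Icc t₂ (t₂ + kp), ∀ s ∈ Icc 0 r₀, ¬No α θ (tb - kp) s → ∃ s₁ ∈ Icc 0 s,
        (∀ s' ∈ Icc 0 s₁, a (x t₂ + s') = α s') ∧ Chd a (x t₂) s₁ θ (tb - kp) ∧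
          ∀ s' ∈ Icc (x t₂) (x t₂ + s₁), Hc (t₂ + kp) (a s' - a (x t₂)) ≤ 0 := by
  have k0 := kp_pos
  have kk : kp = π / 24 := rfl
  have b1 := h.tb_le hπ hb
  have b2 := hb.mem.2
  have h12 := hb.mem.1.trans hb.mem.2
  have l2 : t₂ ∈ Icc t₁ t₂ := ⟨h12, le_rfl⟩
  have x12 := h.mono ⟨le_rfl, h12⟩ l2 h12
  have ca := h.ca
  rcases ty with ⟨r₁, hr₁, hF⟩ | hS
  · obtain ⟨ρ, hρ, hi⟩ := h.inj
    refine ⟨fun s => a (x t₂ + s), by fun_prop, by simp, min r₁ ρ, lt_min hr₁ hρ, fun r hr => ?_,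
      fun s _ θ _ => ⟨_, le_rfl⟩, fun θ _ s hs hN => ⟨s, ⟨hs.1, le_rfl⟩, fun _ _ => rfl, ?_,
        fun s' hs' => hF s' ⟨hs'.1, by linarith [hs'.2, hs.2, min_le_left r₁ ρ]⟩⟩⟩
    · have r1 := hr.2.trans (min_le_left _ _)
      have r2 := hr.2.trans (min_le_right _ _)
      have r0 := hr.1
      have p1 := h.pos hD l2 (s := x t₂ + r) fun e => by
        have := hi ⟨by linarith, by linarith⟩ ⟨by linarith, by linarith⟩ e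
        linarith
      have p2 := V_neg k0 (by linarith) p1 (hF _ ⟨by linarith, by linarith⟩)
      refine ⟨min kp (-Vc t₂ (a (x t₂ + r) - a (x t₂)) / (2 * D)), by positivity, fun θ hθ _ => ?_⟩
      have q1 := min_le_left kp (-Vc t₂ (a (x t₂ + r) - a (x t₂)) / (2 * D))
      have q2 := min_le_right kp (-Vc t₂ (a (x t₂ + r) - a (x t₂)) / (2 * D))
      have q3 : θ - t₂ ≤ -Vc t₂ (a (x t₂ + r) - a (x t₂)) / (2 * D) := by linarith [hθ.2]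
      rw [le_div_iff₀ (by positivity)] at q3
      have q7 := half_le_cos (δ := θ - t₂) (by linarith [hθ.1]) (by linarith [hθ.2])
      have q8 : 0 ≤ sin (θ - t₂) :=
        sin_nonneg_of_nonneg_of_le_pi (by linarith [hθ.1]) (by linarith [hθ.2])
      have q9 : sin (θ - t₂) ≤ θ - t₂ := sin_le (by linarith [hθ.1])
      simp only [add_zero]
      rw [Vc_rot t₂]
      linarith [mul_le_mul_of_nonneg_left q9 hD.le, mul_le_mul_of_nonneg_right q7 p2.le,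
        mul_nonneg q8 p1.le]
    · unfold No at hN
      push Not at hN
      obtain ⟨u, v, h0, h1, h2, h3, h4⟩ := hN
      exact fun σ hσ => ⟨x t₂ + u, x t₂ + v, by linarith, by linarith, by linarith, h3, h4⟩
  · refine ⟨fun s => a (x t₂) + s * ee t₂, by fun_prop, by simp, 1, one_pos, fun r hr => ?_,
      fun s hs θ hθ => ⟨x t₂, ?_⟩, fun θ hθ s hs _ => ⟨0, ⟨le_rfl, hs.1⟩, fun s' hs' => ?_,
        fun σ hσ => ?_, fun s' hs' => ?_⟩⟩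
    · refine ⟨kp, k0, fun θ hθ hN => (hN 0 r le_rfl hr.1 le_rfl ?_).elim⟩
      have e : a (x t₂) + r * ee t₂ - (a (x t₂) + (0 : ℝ) * ee t₂) = r * ee t₂ := by simp
      simp only [e, Hc_smul, Hc_ee]
      exact ⟨mul_pos hr.1 (cos_pos_of_mem_Ioo ⟨by linarith [hθ.2], by linarith [hθ.1]⟩),
        mul_pos hr.1 (cos_pos_of_mem_Ioo ⟨by linarith, by linarith⟩)⟩
    · rw [Hc_add, Hc_smul, Hc_ee]
      linarith [mul_nonneg hs (cos_nonneg_of_mem_Icc (x := t₂ - θ)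
        ⟨by linarith [hθ.2], by linarith [hθ.1]⟩)]
    · rw [le_antisymm hs'.2 hs'.1]
      simp
    · obtain ⟨u, v, h1, h2, h3, h4, h5⟩ := hS σ hσ
      exact ⟨u, v, h1, h2, by linarith,
        cone_mono (by linarith [hθ.1]) hθ.2 (by linarith) h4 h5, h5⟩
    · rw [le_antisymm (by linarith [hs'.2] : s' ≤ x t₂) hs'.1, sub_self, Hc_zero]

theorem Pair.endD (P : Pair D t₁ t₂ a b x y) (ba : IsTb x t₁ t₂ tb) (bb : IsTb y t₁ t₂ tb')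
    (ta : Fp a (x t₂) (t₂ + kp) ∨ Sp a (x t₂) (t₂ + kp) (tb - kp))
    (tb₀ : Fp b (y t₂) (t₂ + kp) ∨ Sp b (y t₂) (t₂ + kp) (tb' - kp)) (hη : 0 < η) {m₀ : ℝ}
    (hm₀ : 0 < m₀) : ∃ θp s t g, t₂ ≤ θp ∧ θp ≤ t₂ + kp ∧ θp ≤ t₂ + m₀ ∧
      EndD a b (x t₂) (y t₂) t₂ tb tb' η θp s t g := by
  have k0 := kp_pos
  have kk : kp = π / 24 := rfl
  have b1 := P.sa.tb_le P.hπ ba
  have b2 := P.sb.tb_le P.hπ bb
  have b3 := ba.mem.2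
  have b4 := bb.mem.2
  obtain ⟨α, cα, α0, r₁, hr₁, a1, a2, a3⟩ := P.sa.rep P.hD P.hπ ba ta
  obtain ⟨β, cβ, β0, r₂, hr₂, c1, c2, c3⟩ := P.sb.rep P.hD P.hπ bb tb₀
  have hr : 0 < min (η / 2) (min r₁ r₂) := by positivity
  have r0 := min_le_left (η / 2) (min r₁ r₂)
  have r1 := (min_le_right (η / 2) (min r₁ r₂)).trans (min_le_left r₁ r₂)
  have r2 := (min_le_right (η / 2) (min r₁ r₂)).trans (min_le_right r₁ r₂)
  obtain ⟨m₁, hm₁, a1⟩ := a1 _ ⟨hr, r1⟩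
  obtain ⟨m₂, hm₂, c1⟩ := c1 _ ⟨hr, r2⟩
  generalize min (η / 2) (min r₁ r₂) = r at *
  obtain ⟨θ₁, e1, e2, e3⟩ := P.eR (min (min kp m₀) (min m₁ m₂)) (by positivity)
  have n1 := (min_le_left (min kp m₀) (min m₁ m₂)).trans (min_le_left kp m₀)
  have n2 := (min_le_left (min kp m₀) (min m₁ m₂)).trans (min_le_right kp m₀)
  have n3 := (min_le_right (min kp m₀) (min m₁ m₂)).trans (min_le_left m₁ m₂)
  have n4 := (min_le_right (min kp m₀) (min m₁ m₂)).trans (min_le_right m₁ m₂)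
  have key : α 0 + β 0 = -((D : ℂ) * ee t₂) := by rw [α0, β0]; exact P.key t₂ ⟨P.h12, le_rfl⟩
  have cmp : ∀ θ ∈ Icc t₂ (t₂ + kp), ∀ s t, 0 ≤ s → 0 ≤ t →
      ∃ s' t', -Hc θ (α s + β t) ≤ -Hc θ (a s' + b t') := fun θ hθ s t hs ht => by
    obtain ⟨s', k1⟩ := a2 s hs θ hθ
    obtain ⟨t', k2⟩ := c2 t ht θ hθ
    exact ⟨s', t', by rw [Hc_add, Hc_add]; linarith⟩
  obtain ⟨θ, hθ, s, hs, t, ht, g1, g2, g3⟩ := young cα cβ (r := r) (m := θ₁ - t₂) (θ₀ := t₂)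
    (φ := tb - kp) (ψ := tb' - kp) P.hD hr.le (by linarith) (by linarith) (by linarith)
    (by linarith) (by linarith) (by linarith)
    (by rw [key, Hc_De, sub_self, cos_zero]; ring)
    (fun θ hθ s hs t ht => by
      obtain ⟨s', t', k⟩ := cmp θ ⟨hθ.1, by linarith [hθ.2]⟩ s t hs.1 ht.1
      linarith [(abs_le.1 (abs_Hc_le θ (a s' + b t'))).1, P.hab s' t'])
    (fun θ hθ hN => by
      have := a1 θ ⟨hθ.1, by linarith [hθ.2]⟩ hN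
      rw [show α r + β 0 = α r - α 0 + (α 0 + β 0) by ring, key, Vc_add, Vc_De,
        show t₂ - θ = -(θ - t₂) by ring, sin_neg]
      linarith)
    (fun θ hθ hN => by
      have := c1 θ ⟨hθ.1, by linarith [hθ.2]⟩ hN
      rw [show α 0 + β r = β r - β 0 + (α 0 + β 0) by ring, key, Vc_add, Vc_De,
        show t₂ - θ = -(θ - t₂) by ring, sin_neg]
      linarith)
    (fun s hs t ht => by
      rw [show t₂ + (θ₁ - t₂) = θ₁ by ring]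
      obtain ⟨s', t', k⟩ := cmp θ₁ ⟨e1.le, by linarith⟩ s t hs.1 ht.1
      exact k.trans_lt (e3 s' t'))
  have mθ : θ ∈ Icc t₂ (t₂ + kp) := ⟨hθ.1, by linarith [hθ.2]⟩
  obtain ⟨s₁, hs₁, u1, u2, u3⟩ := a3 θ mθ s ⟨hs.1, hs.2.trans r1⟩ g2
  obtain ⟨t₃, ht₃, v1, v2, v3⟩ := c3 θ mθ t ⟨ht.1, ht.2.trans r2⟩ g3
  obtain ⟨z, hz, hmin⟩ := (isCompact_Icc.prod isCompact_Icc).exists_isMinOn
    (s := Icc 0 s ×ˢ Icc 0 t) ⟨(0, 0), ⟨le_rfl, hs.1⟩, le_rfl, ht.1⟩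
    (f := fun z : ℝ × ℝ => Vc θ (α z.1 + β z.2))
    ((continuous_Vc θ).comp (by fun_prop)).continuousOn
  refine ⟨θ, s₁, t₃, Vc θ (α z.1 + β z.2), hθ.1, mθ.2, by linarith [hθ.2],
    ⟨hs₁.1, by linarith [hs₁.2, hs.2]⟩, ⟨ht₃.1, by linarith [ht₃.2, ht.2]⟩, g1 _ hz.1 _ hz.2,
    fun s' hs' t' ht' => ?_, u2, v2, u3, v3⟩
  have w1 := u1 (s' - x t₂) ⟨by linarith [hs'.1], by linarith [hs'.2]⟩
  have w2 := v1 (t' - y t₂) ⟨by linarith [ht'.1], by linarith [ht'.2]⟩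
  rw [add_sub_cancel] at w1 w2
  rw [w1, w2]
  exact hmin (a := (s' - x t₂, t' - y t₂)) ⟨⟨by linarith [hs'.1], by linarith [hs'.2, hs₁.2]⟩,
    by linarith [ht'.1], by linarith [ht'.2, ht₃.2]⟩

theorem near_Icc {lo hi σ s : ℝ} (h : lo ≤ hi) (hσ : 0 ≤ σ) (h1 : lo - σ ≤ s) (h2 : s ≤ hi + σ) :
    ∃ s₀ ∈ Icc lo hi, |s - s₀| ≤ σ := by
  refine ⟨clp lo hi s, clp_mem h s, ?_⟩
  rcases clp_cases h s with ⟨c, e⟩ | ⟨-, -, e⟩ | ⟨c, e⟩ <;> rw [e, abs_le] <;> constructor <;> linarith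

theorem Pair.anchorP (P : Pair D t₁ t₂ a b x y) (sa : Sm D t₁ t₂ a x ε η μ)
    (sb : Sm D t₁ t₂ b y ε η μ) (hη : 0 < η) (hε : 4 * η ≤ ε) (hμ : 0 < μ) (hμ' : μ ≤ D / 2)
    {θp s t g t' σ : ℝ} (ba : IsTb x t₁ t₂ tb) (bb : IsTb y t₁ t₂ tb')
    (ea : ∀ θ ∈ Icc t₁ t₂, x t₂ - ε ≤ x θ → tb - kp / 2 ≤ θ)
    (eb : ∀ θ ∈ Icc t₁ t₂, y t₂ - ε ≤ y θ → tb' - kp / 2 ≤ θ) (p1 : t₂ ≤ θp) (p2 : θp ≤ t₂ + kp)
    (p3 : D * (θp - t₂) ≤ μ ^ 2 / (8 * D)) (E : EndD a b (x t₂) (y t₂) t₂ tb tb' η θp s t g)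
    (ia : InjOn a (Icc (x t₁ - 3 * ε) (x t₂ + 3 * ε))) (mt' : t' ∈ Icc 0 (η / 2))
    (dm : ∀ z ∈ Icc (y t₁ - t') (y t₁), Hc (t₁ - kp) (b z - b (y t₁)) ≤ 0) (hσ : 0 < σ)
    (hσ' : σ ≤ η / 2)
    (oa : ∀ s ∈ Icc (x t₁ - 3 * ε) (x t₂ + 3 * ε), ∀ t ∈ Icc (x t₁ - 3 * ε) (x t₂ + 3 * ε),
      |s - t| ≤ σ → ‖a s - a t‖ ≤ g / 2)
    (ob : ∀ s ∈ Icc (y t₁ - 3 * ε) (y t₂ + 3 * ε), ∀ t ∈ Icc (y t₁ - 3 * ε) (y t₂ + 3 * ε),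
      |s - t| ≤ σ → ‖b s - b t‖ ≤ g / 2) :
    Anchor (x t₂ - σ) (x t₂ + s + σ) (RelP a b x y t₁ t₂ ε (y t₁ - t' - σ) (y t₂ + t + σ)) := by
  have l1 : t₁ ∈ Icc t₁ t₂ := ⟨le_rfl, P.h12⟩
  have l2 : t₂ ∈ Icc t₁ t₂ := ⟨P.h12, le_rfl⟩
  have x12 := P.sa.mono l1 l2 P.h12
  have y12 := P.sb.mono l1 l2 P.h12
  have k0 := kp_pos
  have kk : kp = π / 24 := rfl
  obtain ⟨s0, s1⟩ := E.ms
  obtain ⟨t0, t1⟩ := E.mt
  obtain ⟨t2, t3⟩ := mt'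
  obtain ⟨u, v, h1, h2, h3, h4, h5⟩ := E.ca σ hσ
  have step : ∀ w ∈ Icc (x t₂ - σ) (x t₂ + s + σ), ∀ z z₀ : ℝ, y t₁ - η ≤ z → z ≤ y t₂ + η →
      y t₁ - η ≤ z₀ → z₀ ≤ y t₂ + η → |z - z₀| ≤ σ →
      (∀ w₀ ∈ Icc (x t₂) (x t₂ + s), g ≤ Vc θp (a w₀ + b z₀)) → 0 ≤ Vc θp (a w + b z) := by
    intro w hw z z₀ z1 z2 z3 z4 z5 hg
    obtain ⟨w₀, w1, w2⟩ := near_Icc (lo := x t₂) (hi := x t₂ + s) (by linarith) hσ.le hw.1 hw.2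
    have n1 := oa w ⟨by linarith [hw.1], by linarith [hw.2]⟩ w₀
      ⟨by linarith [w1.1], by linarith [w1.2]⟩ w2
    have n2 := ob z ⟨by linarith, by linarith⟩ z₀ ⟨by linarith, by linarith⟩ z5
    rw [show a w + b z = a w₀ + b z₀ + (a w - a w₀) + (b z - b z₀) by ring, Vc_add, Vc_add _ _ (a w - a w₀)]
    linarith [hg w₀ w1, (abs_le.1 (abs_Vc_le θp (a w - a w₀))).1,
      (abs_le.1 (abs_Vc_le θp (b z - b z₀))).1]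
  refine (anchor_of_chord P.sa.ca (ia.mono (Icc_subset_Icc (by linarith) (by linarith))) h1 h2 h3 h4
    h5).mono fun u v u1 u2 u3 k => P.valP sa sb hη hε hμ.le hμ' ba bb ea eb p1 p2 p3 (by linarith)
      (by linarith) (by linarith) (by linarith) (by linarith) (fun w hw z hz => ?_)
      (fun e w hw z hz => ?_) u1 u2 u3 k.1 k.2
  · obtain ⟨z₀, z1, z2⟩ := near_Icc (lo := y t₂) (hi := y t₂ + t) (s := z) (by linarith) hσ.le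
      (by linarith [hz.1]) hz.2
    exact step w hw z z₀ (by linarith [hz.1]) (by linarith [hz.2]) (by linarith [z1.1])
      (by linarith [z1.2]) z2 fun w₀ w1 => E.gap w₀ w1 z₀ z1
  · obtain ⟨z₀, z1, z2⟩ := near_Icc (lo := y t₁ - t') (hi := y t₁) (s := z) (by linarith) hσ.le
      hz.1 (by linarith [hz.2])
    refine step w hw z z₀ (by linarith [hz.1]) (by linarith [hz.2]) (by linarith [z1.1])
      (by linarith [z1.2]) z2 fun w₀ w1 => ?_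
    have c := le_third P.hπ (P.sb.corner t₂ l2 t₁ l1 e.symm)
    have q := V_nonneg (α := t₁ - kp) (β := t₁) (θ := θp) (by linarith) (by linarith)
      (by linarith [P.h12]) (by linarith) (P.sb.nn P.hD l1 z₀) (dm z₀ z1)
    rw [show a w₀ + b z₀ = a w₀ + b (y t₂) + (b z₀ - b (y t₁)) by rw [e]; ring, Vc_add]
    linarith [E.gap w₀ w1 (y t₂) ⟨le_rfl, by linarith⟩]

end

end Pool.Agent.Lib.MP_9488bf_co.Thin
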