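import Pool.Agent.Lib.MP_9488bf_co.Thin.Side

/-! A Jordan curve has constant width or a maximal interval of diameters. -/

noncomputable section

namespace Pool.Agent.Lib.MP_9488bf_co.Thin

open Set Real

namespace SetupAux

theorem lens' {D θ : ℝ} {p q s : ℂ} (h : q - p = (D : ℂ) * ee θ) (h' : ‖s - q‖ ≤ D) :
    ‖s - p‖ ^ 2 ≤ 2 * D * Hc θ (s - p) :=
  lens (P := p) (Q := -q) (P' := s) (by rw [← h]; ring) (by rwa [← sub_eq_add_neg])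

theorem eq_of_Hc {D θ : ℝ} {p s : ℂ} (hD : 0 < D) (h : ‖s - p‖ ^ 2 ≤ 2 * D * Hc θ (s - p))
    (h' : Hc θ (s - p) ≤ 0) : s = p := by
  have h1 : 2 * D * Hc θ (s - p) ≤ 0 := mul_nonpos_of_nonneg_of_nonpos (by positivity) h'
  have h2 : ‖s - p‖ ^ 2 = 0 := le_antisymm (h.trans h1) (sq_nonneg _)
  exact sub_eq_zero.1 (norm_eq_zero.1 (pow_eq_zero_iff two_ne_zero |>.1 h2))

theorem Hc_nn {D θ : ℝ} {z : ℂ} (hD : 0 < D) (h : ‖z‖ ^ 2 ≤ 2 * D * Hc θ z) : 0 ≤ Hc θ z :=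
  nn_of_mul ((sq_nonneg _).trans h) (by positivity)

theorem Hc_swap (θ : ℝ) (p s : ℂ) : Hc θ (p - s) = -Hc θ (s - p) := by
  rw [← Hc_neg, neg_sub]

theorem uniq {D θ : ℝ} {p q p' q' : ℂ} (hD : 0 < D) (h : q - p = (D : ℂ) * ee θ)
    (h' : q' - p' = (D : ℂ) * ee θ) (a : ‖p' - q‖ ≤ D) (a' : ‖p - q'‖ ≤ D) : p' = p := by
  have h1 := Hc_nn hD (lens' h' a')
  rw [Hc_swap] at h1
  exact eq_of_Hc hD (lens' h a) (by linarith)

theorem lip {D θ φ : ℝ} {p p' : ℂ} (hD : 0 < D) (h : ‖p' - p‖ ^ 2 ≤ 2 * D * Hc θ (p' - p))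
    (h' : ‖p - p'‖ ^ 2 ≤ 2 * D * Hc φ (p - p')) : ‖p - p'‖ ≤ 2 * D * |θ - φ| := by
  rw [Hc_swap, norm_sub_rev] at h'
  rw [norm_sub_rev]
  generalize p' - p = z at h h'
  have h1 : Hc θ z - Hc φ z ≤ 2 * (‖z‖ * |θ - φ|) := by
    have e : Hc θ z - Hc φ z = z.re * (cos θ - cos φ) + z.im * (sin θ - sin φ) := by
      simp only [Hc]; ring
    have a1 : z.re * (cos θ - cos φ) ≤ ‖z‖ * |θ - φ| :=
      (le_abs_self _).trans (by
        rw [abs_mul]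
        exact mul_le_mul (Complex.abs_re_le_norm z) (abs_cos_sub_cos_le _ _) (abs_nonneg _)
          (norm_nonneg _))
    have a2 : z.im * (sin θ - sin φ) ≤ ‖z‖ * |θ - φ| :=
      (le_abs_self _).trans (by
        rw [abs_mul]
        exact mul_le_mul (Complex.abs_im_le_norm z) (abs_sin_sub_sin_le _ _) (abs_nonneg _)
          (norm_nonneg _))
    linarith
  have h2 : 2 * D * (Hc θ z - Hc φ z) ≤ 2 * D * (2 * (‖z‖ * |θ - φ|)) :=
    mul_le_mul_of_nonneg_left h1 (by positivity)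
  rcases (norm_nonneg z).eq_or_lt with h3 | h3
  · rw [← h3]; positivity
  · refine le_of_mul_le_mul_left ?_ h3
    nlinarith

theorem mono_of {f : ℝ → ℝ} {t₁ t₂ : ℝ} (hf : Continuous f) (h12 : f t₁ ≤ f t₂)
    (hM : ∀ α ∈ Icc t₁ t₂, ∀ β ∈ Icc t₁ t₂, ∀ θ ∈ Icc α β, f α = f β → f θ = f α) :
    MonotoneOn f (Icc t₁ t₂) := by
  have h1 : ∀ θ ∈ Icc t₁ t₂, f t₁ ≤ f θ := by
    intro θ hθ
    by_contra hc
    obtain ⟨c, hc1, hc2⟩ := intermediate_value_Icc hθ.2 hf.continuousOn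
      (⟨(not_le.1 hc).le, h12⟩ : f t₁ ∈ Icc (f θ) (f t₂))
    exact hc (hM t₁ ⟨le_rfl, hθ.1.trans hθ.2⟩ c ⟨hθ.1.trans hc1.1, hc1.2⟩ θ ⟨hθ.1, hc1.1⟩
      hc2.symm).ge
  intro α hα β hβ hαβ
  by_contra hc
  obtain ⟨c, hc1, hc2⟩ := intermediate_value_Icc hα.1 hf.continuousOn
    (⟨h1 β hβ, (not_le.1 hc).le⟩ : f β ∈ Icc (f t₁) (f α))
  have := hM c ⟨hc1.1, hc1.2.trans hα.2⟩ β hβ α ⟨hc1.2, hαβ⟩ hc2
  exact hc (by rw [this, hc2])

theorem core {D t₁ t₂ : ℝ} {a : ℝ → ℂ} {x : ℝ → ℝ} (hD : 0 < D) (h12 : t₁ ≤ t₂)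
    (ca : Continuous a) (cx : Continuous x) (hx : x t₁ ≤ x t₂)
    (hper : ∀ s t, a s = a t ↔ ∃ k : ℤ, s = t + k * (2 * π))
    (hM : ∀ α ∈ Icc t₁ t₂, ∀ β ∈ Icc t₁ t₂, ∀ θ ∈ Icc α β, a (x α) = a (x β) → x θ = x α)
    (diam : ∀ s t, ‖a s - a t‖ ≤ D)
    (hq : ∀ θ ∈ Icc t₁ t₂, ∃ s, a s - a (x θ) = (D : ℂ) * ee θ) : Side D t₁ t₂ a x := by
  have hlt : x t₂ < x t₁ + 2 * π := by
    by_contra hc
    obtain ⟨c, hc1, hc2⟩ := intermediate_value_Icc h12 cx.continuousOn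
      (⟨by linarith [pi_pos], not_lt.1 hc⟩ : x t₁ + 2 * π ∈ Icc (x t₁) (x t₂))
    have := hM t₁ ⟨le_rfl, h12⟩ c hc1 c ⟨hc1.1, le_rfl⟩
      ((hper _ _).2 ⟨1, by rw [hc2]; simp⟩).symm
    linarith [pi_pos]
  refine ⟨ca, cx, ⟨(x t₁ + 2 * π - x t₂) / 3, by linarith, fun s hs t ht hst => ?_⟩,
    mono_of cx hx fun α hα β hβ θ hθ h => hM α hα β hβ θ hθ (by rw [h]), fun θ hθ s => ?_,
    fun θ hθ φ hφ h => ?_, diam⟩
  · obtain ⟨k, hk⟩ := (hper _ _).1 hst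
    have h1 : (k : ℝ) * (2 * π) < 1 * (2 * π) := by linarith [hs.2, ht.1]
    have h2 : (-1 : ℝ) * (2 * π) < k * (2 * π) := by linarith [hs.1, ht.2]
    have h3 : (k : ℝ) < 1 := lt_of_mul_lt_mul_right h1 (by positivity)
    have h4 : (-1 : ℝ) < k := lt_of_mul_lt_mul_right h2 (by positivity)
    have h5 : k < 1 := by exact_mod_cast h3
    have h6 : -1 < k := by exact_mod_cast h4
    have h7 : k = 0 := by omega
    rw [hk, h7]; simp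
  · obtain ⟨q, hq⟩ := hq θ hθ
    exact lens' hq (diam _ _)
  · obtain ⟨q, hq1⟩ := hq θ hθ
    obtain ⟨q', hq2⟩ := hq φ hφ
    have e : a q - a q' = (D : ℂ) * ee θ + -((D : ℂ) * ee φ) := by
      rw [← hq1, ← hq2, h]; ring
    have h1 := pow_le_pow_left₀ (norm_nonneg _) (diam q q') 2
    have h2 : ‖(D : ℂ) * ee θ‖ = D := by rw [← norm_neg]; exact norm_De hD.le θ
    rw [e, norm_sub_De, h2, Hc_smul, Hc_ee] at h1
    have h3 : 0 ≤ D ^ 2 * (2 * cos (θ - φ) - 1) := by nlinarith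
    have := nn_of_mul h3 (by positivity)
    linarith

theorem side {γ : Circle → ℂ} (hγ : Continuous γ) (hi : Function.Injective γ) {D t₁ t₂ : ℝ}
    (hD : 0 < D) (h12 : t₁ ≤ t₂) (hπ : t₂ - t₁ < π) (diam : ∀ u v, ‖γ u - γ v‖ ≤ D)
    (hall : ∀ θ ∈ Icc t₁ t₂, ∃ u v, γ v - γ u = (D : ℂ) * ee θ) :
    ∃ (a : ℝ → ℂ) (x : ℝ → ℝ), Side D t₁ t₂ a x ∧ (∀ s, ∃ u, γ u = a s) ∧
      ∀ θ ∈ Icc t₁ t₂, ∃ v, γ v - a (x θ) = (D : ℂ) * ee θ := by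
  have hall' : ∀ θ : Icc t₁ t₂, ∃ u v, γ v - γ u = (D : ℂ) * ee θ := fun θ => hall θ θ.2
  choose u v huv using hall'
  have hl : ∀ θ φ : Icc t₁ t₂,
      ‖γ (u φ) - γ (u θ)‖ ^ 2 ≤ 2 * D * Hc θ (γ (u φ) - γ (u θ)) :=
    fun θ φ => lens' (huv θ) (diam _ _)
  have cu : Continuous u := by
    rw [(hγ.isClosedEmbedding hi).isInducing.continuous_iff]
    refine (LipschitzWith.of_dist_le_mul (K := ⟨2 * D, by positivity⟩) fun θ φ => ?_).continuous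
    rw [dist_eq_norm, Subtype.dist_eq, Real.dist_eq]
    exact lip hD (hl θ φ) (hl φ θ)
  have hA : ∀ α β θ : Icc t₁ t₂, α ≤ θ → θ ≤ β → u α = u β → u θ = u α := by
    intro α β θ h1 h2 h3
    rcases (h1.trans h2).eq_or_lt with h4 | h4
    · rw [le_antisymm h1 (h4 ▸ h2)]
    have h1' : (α : ℝ) ≤ θ := h1
    have h2' : (θ : ℝ) ≤ β := h2
    have h4' : (α : ℝ) < β := h4
    have b1 := α.2.1
    have b2 := β.2.2
    have a1 := Hc_nn hD (hl α θ)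
    have a2 := Hc_nn hD (hl β θ)
    rw [← h3] at a2
    have s1 : 0 < sin ((β : ℝ) - α) := sin_pos_of_pos_of_lt_pi (by linarith) (by linarith)
    have s2 : 0 ≤ sin ((β : ℝ) - θ) := sin_nonneg_of_nonneg_of_le_pi (by linarith) (by linarith)
    have s3 : 0 ≤ sin ((θ : ℝ) - α) := sin_nonneg_of_nonneg_of_le_pi (by linarith) (by linarith)
    have a3 : 0 ≤ Hc θ (γ (u θ) - γ (u α)) := by
      refine nn_of_mul ?_ s1
      rw [three_id]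
      positivity
    exact (hi (eq_of_Hc hD (hl θ α) (by rw [Hc_swap]; linarith))).symm
  obtain ⟨e₀, he₀⟩ := Circle.exp_surjective (u (projIcc t₁ t₂ h12 0))
  obtain ⟨x, ⟨-, hx⟩, -⟩ := Circle.isCoveringMap_exp.existsUnique_continuousMap_lifts
    (⟨fun θ : ℝ => u (projIcc t₁ t₂ h12 θ), cu.comp continuous_projIcc⟩ : C(ℝ, Circle)) 0 e₀ he₀
  have hx' : ∀ θ (hθ : θ ∈ Icc t₁ t₂), Circle.exp (x θ) = u ⟨θ, hθ⟩ := by
    intro θ hθ
    have := congrFun hx θ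
    simp only [Function.comp_apply, ContinuousMap.coe_mk] at this
    rw [this, projIcc_of_mem h12 hθ]
  have hM : ∀ α ∈ Icc t₁ t₂, ∀ β ∈ Icc t₁ t₂, ∀ θ ∈ Icc α β,
      γ (Circle.exp (x α)) = γ (Circle.exp (x β)) → x θ = x α := by
    intro α hα β hβ θ hθ h
    have h1 := hi h
    rw [hx' α hα, hx' β hβ] at h1
    have h2 : ∀ c ∈ Icc α β, Circle.exp (x c) = u ⟨α, hα⟩ := by
      intro c hc
      have h3 : c ∈ Icc t₁ t₂ := ⟨hα.1.trans hc.1, hc.2.trans hβ.2⟩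
      rw [hx' c h3]
      exact hA ⟨α, hα⟩ ⟨β, hβ⟩ ⟨c, h3⟩ hc.1 hc.2 h1
    exact Circle.isCoveringMap_exp.constOn_of_comp isPreconnected_Icc x.continuous.continuousOn
      (fun c hc c' hc' => by rw [h2 c hc, h2 c' hc']) hθ ⟨le_rfl, hθ.1.trans hθ.2⟩
  have hq : ∀ θ ∈ Icc t₁ t₂, ∃ v, γ v - γ (Circle.exp (x θ)) = (D : ℂ) * ee θ :=
    fun θ hθ => ⟨v ⟨θ, hθ⟩, by rw [hx' θ hθ]; exact huv ⟨θ, hθ⟩⟩
  have hper : ∀ s t, γ (Circle.exp s) = γ (Circle.exp t) ↔ ∃ k : ℤ, s = t + k * (2 * π) :=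
    fun s t => hi.eq_iff.trans Circle.exp_eq_exp
  rcases le_total (x t₁) (x t₂) with h | h
  · refine ⟨fun s => γ (Circle.exp s), x, core hD h12 (hγ.comp Circle.exp.continuous) x.continuous h
      hper hM (fun s t => diam _ _) fun θ hθ => ?_, fun s => ⟨_, rfl⟩, hq⟩
    obtain ⟨w, hw⟩ := hq θ hθ
    obtain ⟨s, rfl⟩ := Circle.exp_surjective w
    exact ⟨s, hw⟩
  · refine ⟨fun s => γ (Circle.exp (-s)), fun θ => -x θ, core hD h12
      (hγ.comp (Circle.exp.continuous.comp continuous_neg)) x.continuous.neg (neg_le_neg h)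
      (fun s t => (hper _ _).trans ?_) (fun α hα β hβ θ hθ h1 => ?_) (fun s t => diam _ _)
      fun θ hθ => ?_, fun s => ⟨_, rfl⟩, fun θ hθ => ?_⟩
    · constructor
      · rintro ⟨k, hk⟩
        exact ⟨-k, by push_cast; linarith⟩
      · rintro ⟨k, hk⟩
        exact ⟨-k, by push_cast; linarith⟩
    · simp only [neg_neg] at h1
      rw [hM α hα β hβ θ hθ h1]
    · obtain ⟨w, hw⟩ := hq θ hθ
      obtain ⟨s, rfl⟩ := Circle.exp_surjective w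
      exact ⟨-s, by simpa only [neg_neg] using hw⟩
    · simpa only [neg_neg] using hq θ hθ

theorem right_end {T : Set ℝ} (hT : IsClosed T) {c r : ℝ} (hc : c ∈ T) (hr : r ∉ T) (hcr : c ≤ r) :
    ∃ t, c ≤ t ∧ t < r ∧ Icc c t ⊆ T ∧ ∀ m > 0, ∃ θ, t < θ ∧ θ ≤ t + m ∧ θ ∉ T := by
  set B : Set ℝ := {t | c ≤ t ∧ t ∉ T} with hB
  have hne : B.Nonempty := ⟨r, hcr, hr⟩
  have hbd : BddBelow B := ⟨c, fun t ht => ht.1⟩
  have h1 : c ≤ sInf B := le_csInf hne fun t ht => ht.1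
  have h2 : Ico c (sInf B) ⊆ T := by
    intro t ht
    by_contra h
    exact absurd (csInf_le hbd ⟨ht.1, h⟩) (not_le.2 ht.2)
  have h3 : Icc c (sInf B) ⊆ T := by
    rcases h1.eq_or_lt with h | h
    · rw [← h, Icc_self]
      exact singleton_subset_iff.2 hc
    · rw [← closure_Ico h.ne]
      exact hT.closure_subset_iff.2 h2
  have h4 : sInf B ∈ T := h3 ⟨h1, le_rfl⟩
  refine ⟨sInf B, h1, lt_of_le_of_ne (csInf_le hbd ⟨hcr, hr⟩) (fun h => hr (h ▸ h4)), h3,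
    fun m hm => ?_⟩
  obtain ⟨θ, hθ, h5⟩ := exists_lt_of_csInf_lt hne (by linarith : sInf B < sInf B + m)
  exact ⟨θ, lt_of_le_of_ne (csInf_le hbd hθ) (fun h => hθ.2 (h ▸ h4)), h5.le, hθ.2⟩

theorem ee_add_pi (θ : ℝ) : ee (θ + π) = -ee θ := by
  apply Complex.ext <;> simp [ee]

theorem continuous_ee : Continuous ee := by
  have : ee = fun θ : ℝ => ((cos θ : ℝ) : ℂ) + ((sin θ : ℝ) : ℂ) * Complex.I := by
    funext θ
    apply Complex.ext <;> simp [ee, -Complex.ofReal_cos, -Complex.ofReal_sin]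
  rw [this]
  fun_prop

theorem polar (z : ℂ) : z = ((‖z‖ : ℝ) : ℂ) * ee (Complex.arg z) := by
  apply Complex.ext
  · simp [ee, Complex.norm_mul_cos_arg]
  · simp [ee, Complex.norm_mul_sin_arg]

theorem eq_De {D θ : ℝ} {z : ℂ} (hD : 0 < D) (h : ‖z‖ ≤ D) (h' : D ≤ Hc θ z) :
    z = (D : ℂ) * ee θ := by
  have h1 := norm_sub_De D θ z
  have h2 := pow_le_pow_left₀ (norm_nonneg _) h 2
  have h3 : ‖z + -((D : ℂ) * ee θ)‖ ^ 2 = 0 := le_antisymm (by nlinarith) (sq_nonneg _)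
  have h4 := norm_eq_zero.1 (pow_eq_zero_iff two_ne_zero |>.1 h3)
  linear_combination h4

end SetupAux

open SetupAux in
theorem setup {γ : Circle → ℂ} (hγ : Continuous γ) (hi : Function.Injective γ) :
    ∃ D : ℝ, 0 < D ∧ (∀ p ∈ range γ, ∀ q ∈ range γ, ‖p - q‖ ≤ D) ∧
      ((∀ θ : ℝ, ∃ p ∈ range γ, ∃ q ∈ range γ, q - p = (D : ℂ) * ee θ) ∨
        ∃ (t₁ t₂ : ℝ) (a b : ℝ → ℂ) (x y : ℝ → ℝ), Pair D t₁ t₂ a b x y ∧
          (∀ s, a s ∈ range γ) ∧ ∀ s, -b s ∈ range γ) := by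
  obtain ⟨⟨u₀, v₀⟩, -, hmax⟩ := (isCompact_univ (X := Circle × Circle)).exists_isMaxOn
    univ_nonempty (f := fun w => ‖γ w.1 - γ w.2‖) (by fun_prop)
  set D := ‖γ u₀ - γ v₀‖ with hDdef
  have diam : ∀ u v, ‖γ u - γ v‖ ≤ D := fun u v => hmax (mem_univ (u, v))
  have hD : 0 < D := by
    refine lt_of_lt_of_le (norm_pos_iff.2 (sub_ne_zero.2 fun h => ?_))
      (diam (Circle.exp π) (Circle.exp 0))
    have h1 := congrArg (fun w : Circle => (w : ℂ).re) (hi h)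
    simp at h1
    linarith
  refine ⟨D, hD, ?_, ?_⟩
  · rintro _ ⟨u, rfl⟩ _ ⟨v, rfl⟩
    exact diam u v
  set T : Set ℝ := {θ | ∃ u v, γ v - γ u = (D : ℂ) * ee θ} with hT
  by_cases hall : ∀ θ, θ ∈ T
  · refine Or.inl fun θ => ?_
    obtain ⟨u, v, h⟩ := hall θ
    exact ⟨_, ⟨u, rfl⟩, _, ⟨v, rfl⟩, h⟩
  right
  obtain ⟨θ₀, hθ₀⟩ := not_forall.1 hall
  have hTc : IsClosed T := by
    have h1 : IsClosed {w : ℝ × (Circle × Circle) | γ w.2.2 - γ w.2.1 = (D : ℂ) * ee w.1} :=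
      isClosed_eq (by fun_prop) (continuous_const.mul (continuous_ee.comp continuous_fst))
    convert isClosedMap_fst_of_compactSpace _ h1 using 1
    ext θ
    constructor
    · rintro ⟨u, v, h⟩
      exact ⟨(θ, u, v), h, rfl⟩
    · rintro ⟨⟨θ', u, v⟩, h, rfl⟩
      exact ⟨u, v, h⟩
  have hc : Complex.arg (γ u₀ - γ v₀) ∈ T := ⟨v₀, u₀, polar _⟩
  generalize Complex.arg (γ u₀ - γ v₀) = c at hc
  have hp : Function.Periodic (fun θ => θ ∈ T) π := by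
    intro θ
    apply propext
    constructor
    · rintro ⟨u, v, h⟩
      rw [ee_add_pi] at h
      exact ⟨v, u, by linear_combination -h⟩
    · rintro ⟨u, v, h⟩
      exact ⟨v, u, by rw [ee_add_pi]; linear_combination -h⟩
  obtain ⟨l, hl1, hl2, hl3⟩ : ∃ l, l ≤ c ∧ c ≤ l + π ∧ l ∉ T := by
    refine ⟨θ₀ + (⌊(c - θ₀) / π⌋ : ℤ) * π, ?_, ?_, fun h => hθ₀ ?_⟩
    · have := (le_div_iff₀ pi_pos).1 (Int.floor_le ((c - θ₀) / π))
      linarith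
    · have := (div_lt_iff₀ pi_pos).1 (Int.lt_floor_add_one ((c - θ₀) / π))
      linarith
    · exact (hp.int_mul _ θ₀).mp h
  obtain ⟨t₂, a1, a2, a3, a4⟩ := right_end hTc hc (fun h => hl3 ((hp l).mp h)) hl2
  obtain ⟨t, b1, b2, b3, b4⟩ := right_end (T := {θ | -θ ∈ T}) (hTc.preimage continuous_neg)
    (c := -c) (r := -l) (by simpa using hc) (by simpa using hl3) (neg_le_neg hl1)
  have h12 : -t ≤ t₂ := by linarith
  have hπ : t₂ - -t < π := by linarith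
  have hI : ∀ θ ∈ Icc (-t) t₂, θ ∈ T := by
    intro θ hθ
    rcases le_total c θ with h | h
    · exact a3 ⟨h, hθ.2⟩
    · have := b3 (a := -θ) ⟨neg_le_neg h, by linarith [hθ.1]⟩
      simpa using this
  obtain ⟨a, x, sa, ha1, ha2⟩ := side hγ hi hD h12 hπ diam hI
  obtain ⟨b, y, sb, hb1, hb2⟩ := side (γ := fun w => -γ w) hγ.neg
    (fun u v h => hi (neg_injective h)) hD h12 hπ
    (fun u v => by rw [neg_sub_neg]; exact diam v u) (fun θ hθ => by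
      obtain ⟨u, v, h⟩ := hI θ hθ
      exact ⟨v, u, by linear_combination h⟩)
  have hout : ∀ θ, θ ∉ T → ∀ s t, -Hc θ (a s + b t) < D := by
    intro θ hθ s t
    obtain ⟨u, hu⟩ := ha1 s
    obtain ⟨v, hv⟩ := hb1 t
    by_contra h
    refine hθ ⟨u, v, eq_De hD (diam v u) ?_⟩
    rw [← Hc_neg, ← hu, ← hv] at h
    have e : γ v - γ u = -(γ u + -γ v) := by ring
    rw [e]
    exact not_lt.1 h
  refine ⟨-t, t₂, a, b, x, y, ⟨hD, h12, hπ, sa, sb, fun s t => ?_, fun θ hθ => ?_, fun m hm => ?_,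
    fun m hm => ?_⟩, ha1, fun s => ?_⟩
  · obtain ⟨u, hu⟩ := ha1 s
    obtain ⟨v, hv⟩ := hb1 t
    rw [← hu, ← hv, ← sub_eq_add_neg]
    exact diam u v
  · obtain ⟨v, hv⟩ := ha2 θ hθ
    obtain ⟨v', hv'⟩ := hb2 θ hθ
    obtain ⟨u, hu⟩ := ha1 (x θ)
    obtain ⟨u', hu'⟩ := hb1 (y θ)
    rw [← hu] at hv ⊢
    rw [← hu'] at hv' ⊢
    have h1 : γ u' - γ v' = (D : ℂ) * ee θ := by linear_combination hv'
    have h2 : γ v' = γ u := uniq hD hv h1 (diam _ _) (diam _ _)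
    rw [← h2]
    linear_combination -h1
  · obtain ⟨θ, h1, h2, h3⟩ := a4 m hm
    exact ⟨θ, h1, h2, hout θ h3⟩
  · obtain ⟨θ, h1, h2, h3⟩ := b4 m hm
    exact ⟨-θ, by linarith, by linarith, hout _ h3⟩
  · obtain ⟨v, hv⟩ := hb1 s
    exact ⟨v, by rw [← hv, neg_neg]⟩

end Pool.Agent.Lib.MP_9488bf_co.Thin
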