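import Pool.Agent.Lib.MP_9488bf_co.Thin.Basic

/-! Thin trapezoids in sets of constant width. -/

noncomputable section

namespace Pool.Agent.Lib.MP_9488bf_co.Thin

open Set Real

/-- the isosceles trapezoid with height `‖w‖` and parallel sides `s ‖w‖`, `t ‖w‖` is inscribed -/
def Ins (S : Set ℂ) (s t : ℝ) : Prop :=
  ∃ z w : ℂ, w ≠ 0 ∧ z + (s / 2 : ℝ) * Complex.I * w ∈ S ∧ z - (s / 2 : ℝ) * Complex.I * w ∈ S ∧
    z + w + (t / 2 : ℝ) * Complex.I * w ∈ S ∧ z + w - (t / 2 : ℝ) * Complex.I * w ∈ S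

namespace WidthAux

open MeasureTheory Filter Topology

/-- the length of the part of `T` below `u` -/
def G (T : Set ℝ) (u : ℝ) : ℝ := ∫ x in Iic u, T.indicator (fun _ => (1 : ℝ)) x

theorem int_ind {α : Type*} [MeasurableSpace α] {μ : Measure α} {T : Set α} (hT : MeasurableSet T)
    (hf : μ T ≠ ⊤) : Integrable (T.indicator fun _ => (1 : ℝ)) μ :=
  (integrable_indicator_iff hT).2 (integrableOn_const hf)

theorem G_sub {T : Set ℝ} (hT : MeasurableSet T) (hf : volume T ≠ ⊤) (a u : ℝ) :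
    G T u - G T a = ∫ x in a..u, T.indicator (fun _ => (1 : ℝ)) x :=
  intervalIntegral.integral_Iic_sub_Iic (int_ind hT hf).integrableOn (int_ind hT hf).integrableOn

theorem G_lip {T : Set ℝ} (hT : MeasurableSet T) (hf : volume T ≠ ⊤) (a u : ℝ) :
    |G T u - G T a| ≤ |u - a| := by
  rw [G_sub hT hf]
  have := intervalIntegral.norm_integral_le_of_norm_le_const (a := a) (b := u) (C := 1)
    (f := T.indicator fun _ => (1 : ℝ)) fun x _ => by
      by_cases h : x ∈ T <;> simp [h]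
  simpa using this

theorem G_der {T : Set ℝ} (hT : MeasurableSet T) (hf : volume T ≠ ⊤) {a c : ℝ}
    (h : ∀ᶠ x in 𝓝 a, T.indicator (fun _ => (1 : ℝ)) x = c) : HasDerivAt (G T) c a := by
  have h1 : ContinuousAt (T.indicator fun _ => (1 : ℝ)) a :=
    (continuousAt_const (y := c)).congr (h.mono fun _ e => e.symm)
  have h2 := intervalIntegral.integral_hasDerivAt_right (a := a) (b := a)
    (int_ind hT hf).intervalIntegrable
    ((measurable_const.indicator hT).stronglyMeasurable.stronglyMeasurableAtFilter) h1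
  rw [h.self_of_nhds] at h2
  have h3 := h2.add_const (G T a)
  refine h3.congr_of_eventuallyEq (Eventually.of_forall fun u => ?_)
  have := G_sub hT hf a u
  dsimp only
  linarith

theorem slice {L : Set (ℝ × ℝ)} (hL : MeasurableSet L) (hf : volume L ≠ ⊤) {g : ℝ → ℝ}
    (hg : Continuous g) : Integrable (fun v => G (Prod.mk v ⁻¹' L) (g v)) ∧
      volume.real (L ∩ {p | p.2 ≤ g p.1}) = ∫ v, G (Prod.mk v ⁻¹' L) (g v) := by
  have h1 : MeasurableSet (L ∩ {p : ℝ × ℝ | p.2 ≤ g p.1}) :=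
    hL.inter (isClosed_le continuous_snd (hg.comp continuous_fst)).measurableSet
  have h2 := int_ind h1 (ne_top_of_le_ne_top hf (measure_mono inter_subset_left))
  have h3 : ∀ v, ∫ x, (L ∩ {p : ℝ × ℝ | p.2 ≤ g p.1}).indicator (fun _ => (1 : ℝ)) (v, x) =
      G (Prod.mk v ⁻¹' L) (g v) := fun v => by
    rw [G, ← integral_indicator measurableSet_Iic]
    congr 1
    funext x
    by_cases a : (v, x) ∈ L <;> by_cases b : x ≤ g v <;> simp [indicator, a, b]
  rw [Measure.volume_eq_prod] at h2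
  refine ⟨by simpa only [h3] using h2.integral_prod_left, ?_⟩
  rw [← integral_indicator_one h1, Measure.volume_eq_prod]
  exact (integral_prod _ h2).trans (by simp only [h3])

theorem area_der {L : Set (ℝ × ℝ)} (hL : MeasurableSet L) {R : ℝ}
    (hR : L ⊆ Icc (-R) R ×ˢ Icc (-R) R) {a v₁ v₂ : ℝ} (h12 : v₁ ≤ v₂)
    (hin : ∀ v, v₁ < v → v < v₂ → ∀ᶠ x in 𝓝 a, (v, x) ∈ L)
    (hout : ∀ v, v < v₁ ∨ v₂ < v → ∀ᶠ x in 𝓝 a, (v, x) ∉ L) (α β : ℝ) :
    HasDerivAt (fun h : ℝ => volume.real (L ∩ {p | p.2 ≤ a + h * (α + β * p.1)}))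
      (α * (v₂ - v₁) + β * ((v₂ ^ 2 - v₁ ^ 2) / 2)) 0 := by
  have hf : volume L ≠ ⊤ := ne_top_of_le_ne_top
    (isCompact_Icc.prod isCompact_Icc).measure_lt_top.ne (measure_mono hR)
  have hs := fun h : ℝ => slice hL hf (g := fun v => a + h * (α + β * v)) (by fun_prop)
  have m1 : ∀ v, MeasurableSet (Prod.mk v ⁻¹' L) := fun v => measurable_prodMk_left hL
  have m2 : ∀ v, volume (Prod.mk v ⁻¹' L) ≠ ⊤ := fun v => ne_top_of_le_ne_top
    (isCompact_Icc (a := -R) (b := R)).measure_lt_top.ne (measure_mono fun x hx => (hR hx).2)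
  have cl : Continuous fun v : ℝ => α + β * v := by fun_prop
  have key := hasDerivAt_integral_of_dominated_loc_of_lip (μ := volume) (x₀ := (0 : ℝ))
    (F := fun h v => G (Prod.mk v ⁻¹' L) (a + h * (α + β * v)))
    (F' := (Ioo v₁ v₂).indicator fun v => α + β * v)
    (bound := (Icc (-R) R).indicator fun v => α + β * v) (s := univ) univ_mem
    (Eventually.of_forall fun h => (hs h).1.aestronglyMeasurable) (hs 0).1
    (cl.aestronglyMeasurable.indicator measurableSet_Ioo) (Eventually.of_forall fun v => ?_)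
    ((integrable_indicator_iff measurableSet_Icc).2 cl.continuousOn.integrableOn_Icc) ?_
  · simp only [(hs _).2]
    refine key.2.congr_deriv ?_
    rw [integral_indicator measurableSet_Ioo, ← integral_Ioc_eq_integral_Ioo,
      ← intervalIntegral.integral_of_le h12, intervalIntegral.integral_add (by simp)
        (by apply Continuous.intervalIntegrable; fun_prop), intervalIntegral.integral_const_mul,
      integral_id]
    simp [mul_comm]
  · refine LipschitzOnWith.of_dist_le_mul fun h _ h' _ => ?_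
    by_cases hv : v ∈ Icc (-R) R
    · rw [indicator_of_mem hv, Real.dist_eq, Real.dist_eq, Real.coe_nnabs, ← abs_mul]
      refine (G_lip (m1 v) (m2 v) _ _).trans (le_of_eq ?_)
      congr 1
      ring
    · have e : Prod.mk v ⁻¹' L = ∅ := eq_empty_of_forall_notMem fun x hx => hv (hR hx).1
      simp only [e, G, indicator_empty, integral_zero, dist_self]
      positivity
  · have n1 : ∀ᵐ v : ℝ, v ≠ v₁ := by simp [ae_iff]
    have n2 : ∀ᵐ v : ℝ, v ≠ v₂ := by simp [ae_iff]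
    filter_upwards [n1, n2] with v a1 a2
    have d : HasDerivAt (fun h : ℝ => a + h * (α + β * v)) (α + β * v) 0 := by
      simpa using ((hasDerivAt_id (0 : ℝ)).mul_const (α + β * v)).const_add a
    by_cases hv : v ∈ Ioo v₁ v₂
    · have := G_der (m1 v) (m2 v) (a := a + 0 * (α + β * v)) (c := 1) (by
        rw [zero_mul, add_zero]
        exact (hin v hv.1 hv.2).mono fun x hx => indicator_of_mem (s := Prod.mk v ⁻¹' L) hx _)
      rw [indicator_of_mem hv]
      exact (this.comp 0 d).congr_deriv (one_mul _)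
    · have := G_der (m1 v) (m2 v) (a := a + 0 * (α + β * v)) (c := 0) (by
        rw [zero_mul, add_zero]
        refine (hout v ?_).mono fun x hx => indicator_of_notMem (s := Prod.mk v ⁻¹' L) hx _
        rcases lt_or_gt_of_ne a1 with b | b
        · exact .inl b
        · exact .inr (lt_of_le_of_ne (not_lt.1 fun c => hv ⟨b, c⟩) a2.symm))
      rw [indicator_of_notMem hv]
      exact (this.comp 0 d).congr_deriv (zero_mul _)

/-- the point with components `p.2`, `p.1` in the frame of angle `θ` -/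
def Ph (θ : ℝ) (p : ℝ × ℝ) : ℂ := ee θ * ⟨p.2, p.1⟩

theorem Hc_Ph (θ : ℝ) (p : ℝ × ℝ) : Hc θ (Ph θ p) = p.2 := by
  simp only [Hc, Ph, ee, Complex.mul_re, Complex.mul_im]
  linear_combination p.2 * sin_sq_add_cos_sq θ

theorem Vc_Ph (θ : ℝ) (p : ℝ × ℝ) : Vc θ (Ph θ p) = p.1 := by
  simp only [Vc, Ph, ee, Complex.mul_re, Complex.mul_im]
  linear_combination p.1 * sin_sq_add_cos_sq θ

theorem Ph_eq (θ : ℝ) (p : ℝ × ℝ) : Ph θ p = ee θ * ((p.2 : ℂ) + p.1 * Complex.I) := by
  rw [Ph, Complex.mk_eq_add_mul_I]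

theorem cont_Ph (θ : ℝ) : Continuous (Ph θ) := by
  rw [funext (Ph_eq θ)]
  fun_prop

theorem mp_Ph (θ : ℝ) : MeasurePreserving (Ph θ) volume volume := by
  have h1 := (rotation (Circle.exp θ)).measurePreserving
  have h2 := Complex.volume_preserving_equiv_real_prod.symm
  have h3 : MeasurePreserving (Prod.swap : ℝ × ℝ → ℝ × ℝ) volume volume :=
    Measure.measurePreserving_swap
  have e : Ph θ = rotation (Circle.exp θ) ∘ Complex.measurableEquivRealProd.symm ∘ Prod.swap := by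
    funext p
    simp only [Function.comp_apply, rotation_apply, Circle.coe_exp, Ph]
    congr 1
    apply Complex.ext <;> simp [ee, Complex.exp_ofReal_mul_I_re, Complex.exp_ofReal_mul_I_im]
  rw [e]
  exact h1.comp (h2.comp h3)

theorem line_null (θ a : ℝ) : volume {z | Hc θ z = a} = 0 := by
  have h : MeasurableSet {z | Hc θ z = a} :=
    (isClosed_eq (continuous_Hc θ) continuous_const).measurableSet
  have e : Ph θ ⁻¹' {z | Hc θ z = a} = univ ×ˢ {a} := by
    ext p
    simp [Hc_Ph]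
  rw [← (mp_Ph θ).measure_preimage h.nullMeasurableSet, e, Measure.volume_eq_prod,
    Measure.prod_prod]
  simp

/-- the intersection of the discs of radius `D` around the points of `S` -/
def KK (S : Set ℂ) (D : ℝ) : Set ℂ := {z | ∀ p ∈ S, ‖z - p‖ ≤ D}

variable {S : Set ℂ} {D : ℝ}

theorem K_closed : IsClosed (KK S D) := by
  simp only [KK, ofPred_forall]
  exact isClosed_iInter fun p => isClosed_iInter fun _ =>
    isClosed_le (by fun_prop) continuous_const

theorem int_nhds (hS : IsCompact S) {z : ℂ} (h : ∀ p ∈ S, ‖z - p‖ < D) : KK S D ∈ 𝓝 z :=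
  hS.eventually_forall_of_forall_eventually (P := fun x p => ‖x - p‖ ≤ D) fun p hp =>
    (ContinuousAt.eventually_lt (f := fun x : ℂ × ℂ => ‖x.1 - x.2‖) (g := fun _ => D)
      (by fun_prop) continuousAt_const (h p hp)).mono fun _ => le_of_lt

theorem strict (hS : IsCompact S) {x y : ℂ} (hx : x ∈ KK S D) (hy : y ∈ KK S D) (hne : x ≠ y)
    {l m : ℝ} (hl : 0 < l) (hm : 0 < m) (h : l + m = 1) : KK S D ∈ 𝓝 (l • x + m • y) := by
  refine int_nhds hS fun p hp => ?_
  have := norm_combo_lt_of_ne (hx p hp) (hy p hp) (fun e => hne (sub_left_injective e)) hl hm h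
  rwa [smul_sub, smul_sub, sub_add_sub_comm, ← add_smul, h, one_smul] at this

theorem bd (hS : IsCompact S) (hle : ∀ p ∈ S, ∀ q ∈ S, ‖p - q‖ ≤ D)
    (hall : ∀ θ : ℝ, ∃ p ∈ S, ∃ q ∈ S, q - p = (D : ℂ) * ee θ) {z : ℂ} (hz : z ∈ KK S D)
    (hn : KK S D ∉ 𝓝 z) : z ∈ S := by
  obtain ⟨p, hp, h1⟩ : ∃ p ∈ S, D ≤ ‖z - p‖ := by
    by_contra h
    push Not at h
    exact hn (int_nhds hS h)
  have h2 : ‖z - p‖ = D := le_antisymm (hz p hp) h1
  obtain ⟨p', a1, q', a2, a3⟩ := hall (Complex.arg (z - p))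
  have h3 : (D : ℂ) * ee (Complex.arg (z - p)) = z - p := by
    have := Complex.norm_mul_cos_add_sin_mul_I (z - p)
    rw [h2] at this
    rw [ee, Complex.mk_eq_add_mul_I, Complex.ofReal_cos, Complex.ofReal_sin, this]
  rw [h3] at a3
  have h4 := parallelogram_law_with_norm ℝ (z - p) (p - p')
  have b1 := hz p' a1
  have b2 := hle q' a2 p hp
  rw [show z - p + (p - p') = z - p' by ring,
    show z - p - (p - p') = q' - p by linear_combination -a3, h2] at h4
  have b3 : ‖p - p'‖ = 0 := by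
    have c1 := mul_self_le_mul_self (norm_nonneg _) b1
    have c2 := mul_self_le_mul_self (norm_nonneg _) b2
    exact mul_self_eq_zero.1 (le_antisymm (by nlinarith) (mul_self_nonneg _))
  have b4 : z = q' := by linear_combination -a3 + norm_eq_zero.1 b3
  exact b4 ▸ a2

theorem chord (hS : IsCompact S) (hle : ∀ p ∈ S, ∀ q ∈ S, ‖p - q‖ ≤ D)
    (hall : ∀ θ : ℝ, ∃ p ∈ S, ∃ q ∈ S, q - p = (D : ℂ) * ee θ) {R : ℝ}
    (hR : ∀ z ∈ KK S D, ‖z‖ < R) (θ a : ℝ) : ∃ v₁ v₂ : ℝ, v₁ ≤ v₂ ∧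
      (∀ v, v₁ < v → v < v₂ → KK S D ∈ 𝓝 (Ph θ (v, a))) ∧
      (∀ v, v < v₁ ∨ v₂ < v → Ph θ (v, a) ∉ KK S D) ∧
      (v₁ < v₂ → Ph θ (v₁, a) ∈ S ∧ Ph θ (v₂, a) ∈ S) := by
  have c : Continuous fun v : ℝ => Ph θ (v, a) := (cont_Ph θ).comp (by fun_prop)
  have hC : IsCompact {v : ℝ | Ph θ (v, a) ∈ KK S D} :=
    (isCompact_Icc (a := -R) (b := R)).of_isClosed_subset (K_closed.preimage c) fun v hv => by
      have := (abs_Vc_le θ _).trans (hR _ hv).le
      rwa [Vc_Ph, abs_le] at this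
  rcases eq_empty_or_nonempty {v : ℝ | Ph θ (v, a) ∈ KK S D} with h | h
  · exact ⟨0, 0, le_rfl, fun v a b => absurd (a.trans b) (lt_irrefl _),
      fun v _ hv => (eq_empty_iff_forall_notMem.1 h v) hv, fun a => absurd a (lt_irrefl _)⟩
  obtain ⟨v₁, a1, a2⟩ := hC.exists_isLeast h
  obtain ⟨v₂, b1, b2⟩ := hC.exists_isGreatest h
  refine ⟨v₁, v₂, a2 b1, fun v c1 c2 => ?_, fun v hv hm => ?_, fun _ =>
    ⟨bd hS hle hall a1 fun hn => ?_, bd hS hle hall b1 fun hn => ?_⟩⟩
  · have d : 0 < v₂ - v₁ := by linarith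
    have := strict hS a1 b1 (fun e => by
      have := congrArg (Vc θ) e
      rw [Vc_Ph, Vc_Ph] at this
      exact d.ne' (sub_eq_zero.2 this.symm)) (l := (v₂ - v) / (v₂ - v₁)) (m := (v - v₁) / (v₂ - v₁))
      (div_pos (by linarith) d) (div_pos (by linarith) d) (by field_simp; ring)
    convert this using 2
    have d' : (v₂ : ℂ) - v₁ ≠ 0 := by exact_mod_cast d.ne'
    simp only [Ph_eq, Complex.real_smul]
    push_cast
    field_simp
    ring
  · rcases hv with hv | hv
    exacts [absurd (a2 hm) (not_le.2 hv), absurd (b2 hm) (not_le.2 hv)]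
  · obtain ⟨v, h1, h2⟩ := (c.continuousAt.eventually_mem hn).exists_lt
    exact absurd (a2 h2) (not_le.2 h1)
  · obtain ⟨v, h1, h2⟩ := (c.continuousAt.eventually_mem hn).exists_gt
    exact absurd (b2 h2) (not_le.2 h1)

/-- the area of a cap -/
def Ar (K : Set ℂ) (θ a : ℝ) : ℝ := volume.real (K ∩ {z | Hc θ z ≤ a})

theorem cap_der {K : Set ℂ} (hK : IsClosed K) {R : ℝ} (hR : ∀ z ∈ K, ‖z‖ < R) {θ a v₁ v₂ : ℝ}
    (h12 : v₁ ≤ v₂) (hin : ∀ v, v₁ < v → v < v₂ → K ∈ 𝓝 (Ph θ (v, a)))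
    (hout : ∀ v, v < v₁ ∨ v₂ < v → Ph θ (v, a) ∉ K) (α β : ℝ) :
    HasDerivAt (fun h : ℝ => volume.real (K ∩ {z | Hc θ z ≤ a + h * (α + β * Vc θ z)}))
      (α * (v₂ - v₁) + β * ((v₂ ^ 2 - v₁ ^ 2) / 2)) 0 := by
  have c : ∀ v, Continuous fun x : ℝ => Ph θ (v, x) := fun v => (cont_Ph θ).comp (by fun_prop)
  have := area_der (L := Ph θ ⁻¹' K) (hK.preimage (cont_Ph θ)).measurableSet (R := R) (a := a)
    (fun p hp => by
      have h1 := (abs_Vc_le θ _).trans (hR _ hp).le
      have h2 := (abs_Hc_le θ _).trans (hR _ hp).le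
      rw [Vc_Ph, abs_le] at h1
      rw [Hc_Ph, abs_le] at h2
      exact ⟨h1, h2⟩) h12 (fun v a b => (c v).continuousAt.eventually_mem (hin v a b))
    (fun v hv => (c v).continuousAt.eventually_mem (hK.isOpen_compl.mem_nhds (hout v hv))) α β
  refine this.congr_of_eventuallyEq (Eventually.of_forall fun h => ?_)
  have m : MeasurableSet (K ∩ {z | Hc θ z ≤ a + h * (α + β * Vc θ z)}) :=
    (hK.inter (isClosed_le (continuous_Hc θ) (by have := continuous_Vc θ; fun_prop))).measurableSet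
  dsimp only
  rw [← (mp_Ph θ).measureReal_preimage m.nullMeasurableSet]
  congr 1
  ext p
  simp [Hc_Ph, Vc_Ph]

theorem tilt (θ c : ℝ) : ∃ θ' k : ℝ, k ^ 2 ≤ 1 ∧
    ∀ u : ℝ, {z | Hc θ z ≤ u + c * Vc θ z} = {z | Hc θ' z ≤ k * u} := by
  have h1 := cos_arctan_pos (-c)
  have h2 : sin (arctan (-c)) = -c * cos (arctan (-c)) := by
    have := tan_arctan (-c)
    rwa [tan_eq_sin_div_cos, div_eq_iff h1.ne'] at this
  refine ⟨θ + arctan (-c), cos (arctan (-c)), cos_sq_le_one _, fun u => ?_⟩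
  ext z
  simp only [mem_ofPred_eq]
  rw [Hc_rot θ (θ + _), add_sub_cancel_left, h2, ← mul_le_mul_iff_right₀ h1]
  constructor <;> intro h <;> linarith

theorem Ar_cont {K : Set ℂ} (hK : IsClosed K) (hf : volume K ≠ ⊤) :
    Continuous fun x : ℝ × ℝ => Ar K x.1 x.2 := by
  have m : ∀ x : ℝ × ℝ, MeasurableSet (K ∩ {z | Hc x.1 z ≤ x.2}) := fun x =>
    (hK.inter (isClosed_le (continuous_Hc _) continuous_const)).measurableSet
  simp only [Ar, ← integral_indicator_one (m _)]
  refine continuous_iff_continuousAt.2 fun x => continuousAt_of_dominated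
    (bound := K.indicator fun _ => (1 : ℝ)) (Eventually.of_forall fun y =>
      (measurable_one.indicator (m y)).aestronglyMeasurable) (Eventually.of_forall fun y =>
      Eventually.of_forall fun z => ?_) (int_ind hK.measurableSet hf) ?_
  · by_cases a : z ∈ K <;> by_cases b : Hc y.1 z ≤ y.2 <;> simp [indicator, a, b]
  · have n : ∀ᵐ z : ℂ, Hc x.1 z ≠ x.2 := by
      rw [ae_iff]
      simpa using line_null x.1 x.2
    filter_upwards [n] with z hz
    have c : Continuous fun y : ℝ × ℝ => Hc y.1 z := by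
      unfold Hc
      fun_prop
    refine (continuousAt_const (y := (K ∩ {z | Hc x.1 z ≤ x.2}).indicator (1 : ℂ → ℝ) z)).congr ?_
    rcases lt_or_gt_of_ne hz with h | h
    · filter_upwards [c.continuousAt.eventually_lt continuous_snd.continuousAt h] with y hy
      by_cases a : z ∈ K <;> simp [indicator, h.le, hy.le, a]
    · filter_upwards [continuous_snd.continuousAt.eventually_lt c.continuousAt h] with y hy
      simp [indicator, not_le.2 h, not_le.2 hy]

theorem Ar_clamp {K : Set ℂ} {R : ℝ} (hR : ∀ z ∈ K, ‖z‖ < R) (θ a : ℝ) :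
    Ar K θ (max (-R) (min R a)) = Ar K θ a := by
  unfold Ar
  congr 1
  ext z
  refine and_congr_right fun hz => ?_
  have := abs_lt.1 ((abs_Hc_le θ z).trans_lt (hR z hz))
  simp only [mem_ofPred_eq, le_max_iff, le_min_iff]
  exact ⟨fun h => h.elim (fun h => by linarith) fun h => h.2, fun h => .inr ⟨this.2.le, h⟩⟩

theorem exists_min {K : Set ℂ} (hK : IsClosed K) (hf : volume K ≠ ⊤) {R : ℝ} (h0 : 0 ≤ R)
    (hR : ∀ z ∈ K, ‖z‖ < R) (s t : ℝ) : ∃ θ a b : ℝ, ∀ θ' a' b' : ℝ,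
      Ar K θ a / s - Ar K θ b / t + (b - a) ^ 2 / 2 ≤
        Ar K θ' a' / s - Ar K θ' b' / t + (b' - a') ^ 2 / 2 := by
  have c := Ar_cont hK hf
  have c1 : Continuous fun x : ℝ × ℝ × ℝ => Ar K x.1 x.2.1 :=
    c.comp (f := fun x : ℝ × ℝ × ℝ => (x.1, x.2.1)) (by fun_prop)
  have c2 : Continuous fun x : ℝ × ℝ × ℝ => Ar K x.1 x.2.2 :=
    c.comp (f := fun x : ℝ × ℝ × ℝ => (x.1, x.2.2)) (by fun_prop)
  obtain ⟨⟨θ, a, b⟩, -, h⟩ := ((isCompact_Icc (a := 0) (b := 2 * π)).prod
    ((isCompact_Icc (a := -R) (b := R)).prod (isCompact_Icc (a := -R) (b := R)))).exists_isMinOn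
    ⟨(0, 0, 0), ⟨le_rfl, two_pi_pos.le⟩, ⟨by linarith, h0⟩, ⟨by linarith, h0⟩⟩
    (f := fun x : ℝ × ℝ × ℝ => Ar K x.1 x.2.1 / s - Ar K x.1 x.2.2 / t + (x.2.2 - x.2.1) ^ 2 / 2)
    (Continuous.continuousOn (by fun_prop))
  refine ⟨θ, a, b, fun θ' a' b' => ?_⟩
  have p : Function.Periodic (Ar K) (2 * π) := fun x => by
    funext u
    simp only [Ar, Hc, cos_add_two_pi, sin_add_two_pi]
  obtain ⟨φ, h1, h2⟩ := p.exists_mem_Ico₀ two_pi_pos θ'
  have q : ∀ u, max (-R) (min R u) ∈ Icc (-R) R := fun u =>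
    ⟨le_max_left _ _, max_le (by linarith) (min_le_left _ _)⟩
  have h3 := isMinOn_iff.1 h (φ, max (-R) (min R a'), max (-R) (min R b'))
    ⟨Ico_subset_Icc_self h1, q _, q _⟩
  simp only [Ar_clamp hR, ← h2] at h3
  have h4 : (max (-R) (min R b') - max (-R) (min R a')) ^ 2 ≤ (b' - a') ^ 2 := by
    refine sq_le_sq.2 (((abs_max_sub_max_le_max _ _ _ _).trans ?_))
    refine max_le (by simp) ((abs_min_sub_min_le_max _ _ _ _).trans (max_le (by simp) le_rfl))
  linarith

end WidthAux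

open WidthAux MeasureTheory Filter Topology in
theorem width_case {S : Set ℂ} (hS : IsCompact S) {D : ℝ} (hD : 0 < D)
    (hle : ∀ p ∈ S, ∀ q ∈ S, ‖p - q‖ ≤ D)
    (hall : ∀ θ : ℝ, ∃ p ∈ S, ∃ q ∈ S, q - p = (D : ℂ) * ee θ) :
    ∃ τ > 0, ∀ s t : ℝ, 0 < s → s < τ → 0 < t → t < τ → Ins S s t := by
  obtain ⟨p, hp, q, hq, hpq⟩ := hall 0
  obtain ⟨R, h0, hR⟩ : ∃ R : ℝ, 0 < R ∧ ∀ z ∈ KK S D, ‖z‖ < R :=
    ⟨‖p‖ + D + 1, by positivity, fun z hz => by
      have := hz p hp
      have := norm_le_insert' z p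
      linarith⟩
  have hf : volume (KK S D) ≠ ⊤ := ne_top_of_le_ne_top
    (measure_ball_lt_top (x := (0 : ℂ)) (r := R)).ne
    (measure_mono fun z hz => mem_ball_zero_iff.2 (hR z hz))
  have hV : 0 < volume.real (KK S D) := by
    refine ENNReal.toReal_pos (Measure.measure_pos_of_mem_nhds volume
      (strict hS (x := p) (y := q) (fun r hr => hle p hp r hr) (fun r hr => hle q hq r hr)
        (fun e => ?_) (l := 1 / 2) (m := 1 / 2) one_half_pos one_half_pos (add_halves 1))).ne' hf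
    have := norm_De hD.le 0
    rw [← hpq, e, sub_self, neg_zero, norm_zero] at this
    exact hD.ne this
  refine ⟨volume.real (KK S D) / (4 * R ^ 2), by positivity, fun s t s0 s1 t0 t1 => ?_⟩
  obtain ⟨θ, a, b, hm⟩ := exists_min K_closed hf h0.le hR s t
  obtain ⟨u₁, u₂, a1, a2, a3, a4⟩ := chord hS hle hall hR θ a
  obtain ⟨v₁, v₂, b1, b2, b3, b4⟩ := chord hS hle hall hR θ b
  have key : ∀ α α' β : ℝ, (α * (u₂ - u₁) + β * ((u₂ ^ 2 - u₁ ^ 2) / 2)) / s -
      (α' * (v₂ - v₁) + β * ((v₂ ^ 2 - v₁ ^ 2) / 2)) / t + (b - a) * (α' - α) = 0 := by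
    intro α α' β
    have d1 := (cap_der K_closed hR a1 a2 a3 α β).div_const s
    have d2 := (cap_der K_closed hR b1 b2 b3 α' β).div_const t
    have d3 : HasDerivAt (fun h : ℝ => (b - a + h * (α' - α)) ^ 2 / 2) ((b - a) * (α' - α)) 0 := by
      have := ((((hasDerivAt_id (0 : ℝ)).mul_const (α' - α)).const_add (b - a)).pow 2).div_const 2
      refine this.congr_deriv ?_
      simp
      ring
    refine IsLocalMin.hasDerivAt_eq_zero (Eventually.of_forall fun h => ?_) ((d1.sub d2).add d3)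
    obtain ⟨θ', k, k1, k2⟩ := tilt θ (h * β)
    have e : ∀ u γ : ℝ, {z | Hc θ z ≤ u + h * (γ + β * Vc θ z)} = {z | Hc θ' z ≤ k * (u + h * γ)} :=
      fun u γ => by
        rw [← k2]
        ext z
        simp only [mem_ofPred_eq]
        constructor <;> intro h <;> linarith
    have := hm θ' (k * (a + h * α)) (k * (b + h * α'))
    have k3 := mul_le_mul_of_nonneg_right k1 (sq_nonneg (b - a + h * (α' - α)))
    simp only [Pi.add_apply, Pi.sub_apply, e, zero_mul, add_zero]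
    simp only [Ar] at this
    nlinarith
  have e1 : u₂ - u₁ = s * (b - a) := by
    have := key 1 0 0
    simp only [zero_mul, add_zero, one_mul, zero_div, sub_zero, zero_sub] at this
    rw [mul_comm, ← div_eq_iff s0.ne']
    linarith
  have e2 : v₂ - v₁ = t * (b - a) := by
    have := key 0 1 0
    simp only [zero_mul, add_zero, one_mul, zero_div, sub_zero, zero_sub] at this
    rw [mul_comm, ← div_eq_iff t0.ne']
    linarith
  have hab : b - a ≠ 0 := by
    intro e
    have f0 := hm 0 (-R) R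
    have f1 : Ar (KK S D) 0 (-R) = 0 := by
      have : KK S D ∩ {z | Hc 0 z ≤ -R} = ∅ := eq_empty_of_forall_notMem fun z hz => by
        have := abs_lt.1 ((abs_Hc_le 0 z).trans_lt (hR z hz.1))
        exact absurd hz.2 (not_le.2 this.1)
      rw [Ar, this, measureReal_empty]
    have f2 : Ar (KK S D) 0 R = volume.real (KK S D) := by
      have : KK S D ⊆ {z | Hc 0 z ≤ R} := fun z hz =>
        (abs_lt.1 ((abs_Hc_le 0 z).trans_lt (hR z hz))).2.le
      rw [Ar, inter_eq_left.2 this]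
    have f3 : 0 ≤ Ar (KK S D) θ a := measureReal_nonneg
    have f4 : Ar (KK S D) θ a ≤ volume.real (KK S D) := measureReal_mono inter_subset_left hf
    rw [f1, f2, e, sub_eq_zero.1 e, zero_div] at f0
    rw [lt_div_iff₀ (by positivity)] at s1 t1
    generalize Ar (KK S D) θ a = A at *
    generalize volume.real (KK S D) = V at *
    have g1 : A * (4 * R ^ 2) ≤ A / s * V := by
      rw [div_mul_eq_mul_div, le_div_iff₀ s0]
      nlinarith
    have g2 : (V - A) * (4 * R ^ 2) ≤ (V / t - A / t) * V := by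
      rw [← sub_div, div_mul_eq_mul_div, le_div_iff₀ t0]
      nlinarith
    have g3 : (A / s + (V / t - A / t)) * V ≤ 2 * R ^ 2 * V :=
      mul_le_mul_of_nonneg_right (by nlinarith) hV.le
    nlinarith [mul_pos hV (pow_pos h0 2)]
  have hlt : 0 < b - a := lt_of_le_of_ne (nn_of_mul (by linarith) s0) hab.symm
  have e3 : u₁ + u₂ = v₁ + v₂ := by
    have := key 0 0 1
    rw [show u₂ ^ 2 - u₁ ^ 2 = (u₂ - u₁) * (u₁ + u₂) by ring,
      show v₂ ^ 2 - v₁ ^ 2 = (v₂ - v₁) * (v₁ + v₂) by ring, e1, e2] at this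
    field_simp at this
    have h2 : (b - a) * (u₁ + u₂ - (v₁ + v₂)) = 0 := by linarith
    exact sub_eq_zero.1 ((mul_eq_zero.1 h2).resolve_left hab)
  obtain ⟨c1, c2⟩ := a4 (by nlinarith [mul_pos s0 hlt])
  obtain ⟨c3, c4⟩ := b4 (by nlinarith [mul_pos t0 hlt])
  have E1 : (u₂ : ℂ) - u₁ = s * (b - a) := by exact_mod_cast e1
  have E2 : (v₂ : ℂ) - v₁ = t * (b - a) := by exact_mod_cast e2
  have E3 : (u₁ : ℂ) + u₂ = v₁ + v₂ := by exact_mod_cast e3
  refine ⟨Ph θ ((u₁ + u₂) / 2, a), ee θ * (b - a : ℝ), mul_ne_zero (fun e => ?_)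
    (by exact_mod_cast hab), ?_, ?_, ?_, ?_⟩
  · have := norm_ee θ
    rw [e, norm_zero] at this
    exact zero_ne_one this
  · convert c2 using 1
    simp only [Ph_eq]
    push_cast
    linear_combination (-(ee θ * Complex.I) / 2) * E1
  · convert c1 using 1
    simp only [Ph_eq]
    push_cast
    linear_combination (ee θ * Complex.I / 2) * E1
  · convert c4 using 1
    simp only [Ph_eq]
    push_cast
    linear_combination (-(ee θ * Complex.I) / 2) * E2 + (ee θ * Complex.I / 2) * E3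
  · convert c3 using 1
    simp only [Ph_eq]
    push_cast
    linear_combination (ee θ * Complex.I / 2) * E2 + (ee θ * Complex.I / 2) * E3

end Pool.Agent.Lib.MP_9488bf_co.Thin
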