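import Pool.Agent.Lib.MP_9488bf_co.Thin.Ends
import Pool.Agent.Lib.MP_9488bf_co.Thin.Setup
import Pool.Agent.Lib.MP_9488bf_co.Thin.Width

/-! Choice of the scales and the main theorem. -/

noncomputable section

namespace Pool.Agent.Lib.MP_9488bf_co.Thin

open Set Real

section

variable {D t₁ t₂ tb tb' ε η μ : ℝ} {a b : ℝ → ℂ} {x y : ℝ → ℝ}

theorem Side.e2 (h : Side D t₁ t₂ a x) (hb : IsTb x t₁ t₂ tb) :
    ∃ ε₀ > 0, ∀ θ ∈ Icc t₁ t₂, x t₂ - ε₀ ≤ x θ → tb - kp / 2 ≤ θ := by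
  have k0 := kp_pos
  rcases le_or_gt (tb - kp / 2) t₁ with k | k
  · exact ⟨1, one_pos, fun θ hθ _ => k.trans hθ.1⟩
  have m : tb - kp / 2 ∈ Icc t₁ t₂ := ⟨k.le, by linarith [hb.mem.2]⟩
  have l := hb.lt _ m (by linarith)
  refine ⟨(x t₂ - x (tb - kp / 2)) / 2, by linarith, fun θ hθ e => ?_⟩
  by_contra hc
  linarith [h.mono hθ m (not_le.1 hc).le]

theorem Side.eps (h : Side D t₁ t₂ a x) (hD : 0 < D) : ∃ ε₀ > 0, ∀ ε, 0 < ε → ε ≤ ε₀ →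
    InjOn a (Icc (x t₁ - 3 * ε) (x t₂ + 3 * ε)) ∧ ∃ μ₀ > 0, ∀ μ, 0 < μ → μ ≤ μ₀ → ∃ η₀ > 0,
      ∀ η ≤ η₀, Sm D t₁ t₂ a x ε η μ := by
  obtain ⟨ρ, hρ, hi⟩ := h.inj
  have k0 := kp_pos
  have kk : kp = π / 24 := rfl
  have s0 : 0 < sin (kp / 2) := sin_pos_of_pos_of_lt_pi (by linarith) (by linarith)
  obtain ⟨δ, hδ, w1⟩ := modulus h.ca (x t₁ - ρ) (x t₂ + ρ) (ω := D * sin (kp / 2) / 2) (by positivity)
  obtain ⟨e, he, e3⟩ : ∃ e > 0, x t₁ < x t₂ → e ≤ x t₂ - x t₁ := by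
    by_cases k : x t₁ < x t₂
    · exact ⟨x t₂ - x t₁, by linarith, fun _ => le_rfl⟩
    · exact ⟨1, one_pos, fun k' => absurd k' k⟩
  refine ⟨min e (min ρ δ / 3), by positivity, fun ε h0 h1 => ?_⟩
  have q1 := h1.trans (min_le_left _ _)
  have q2 := h1.trans (min_le_right _ _)
  have q3 := min_le_left ρ δ
  have q4 := min_le_right ρ δ
  have sub : Icc (x t₁ - 3 * ε) (x t₂ + 3 * ε) ⊆ Icc (x t₁ - ρ) (x t₂ + ρ) :=
    Icc_subset_Icc (by linarith) (by linarith)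
  refine ⟨hi.mono sub, ?_⟩
  have ca := h.ca
  have kc : IsCompact ((Icc (x t₁ - 3 * ε) (x t₂ + 3 * ε) ×ˢ Icc (x t₁ - 3 * ε) (x t₂ + 3 * ε)) ∩
      {z : ℝ × ℝ | ε / 2 ≤ |z.1 - z.2|}) :=
    (isCompact_Icc.prod isCompact_Icc).inter_right (isClosed_le continuous_const (by fun_prop))
  obtain ⟨μ₀, hμ₀, sep⟩ := kc.exists_forall_le' (f := fun z : ℝ × ℝ => ‖a z.1 - a z.2‖)
    (Continuous.continuousOn (by fun_prop)) (a := 0) fun z hz =>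
      norm_pos_iff.2 (sub_ne_zero.2 fun e => by
        have e1 := hi (sub hz.1.1) (sub hz.1.2) e
        have e2 : ε / 2 ≤ |z.1 - z.2| := hz.2
        rw [e1, sub_self, abs_zero] at e2
        linarith)
  refine ⟨μ₀, hμ₀, fun μ m0 m1 => ?_⟩
  obtain ⟨δ', hδ', w2⟩ := modulus h.ca (x t₁ - 3 * ε) (x t₂ + 3 * ε) (ω := μ ^ 2 / (8 * D))
    (by positivity)
  exact ⟨δ' / 4, by positivity, fun η hη => ⟨fun s hs t ht k => w1 s (sub hs) t (sub ht) (by linarith),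
    fun s hs t ht k => m1.trans (sep (s, t) ⟨⟨hs, ht⟩, k⟩), fun s hs t ht k => w2 s hs t ht (by linarith),
    fun k => q1.trans (e3 k)⟩⟩

theorem bad_unique (mx : MonotoneOn x (Icc t₁ t₂)) (my : MonotoneOn y (Icc t₁ t₂)) {e e' : ℝ}
    (h : e < e') (h1 : ∃ θ ∈ Icc t₁ t₂, x θ + e = x t₂ ∧ y θ - e = y t₁)
    (h2 : ∃ θ ∈ Icc t₁ t₂, x θ + e' = x t₂ ∧ y θ - e' = y t₁) : False := by
  obtain ⟨θ, hθ, a1, a2⟩ := h1
  obtain ⟨φ, hφ, b1, b2⟩ := h2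
  rcases le_total θ φ with k | k
  · linarith [mx hθ hφ k]
  · linarith [my hφ hθ k]

theorem avoid_ex (hx : Continuous x) (hy : Continuous y)
    (h : ¬∃ θ ∈ Icc t₁ t₂, x θ + ε = x t₂ ∧ y θ - ε = y t₁) :
    ∃ η₀ > 0, ∀ η ≤ η₀, Avoid x y t₁ t₂ ε η := by
  obtain ⟨c, hc, k⟩ := (isCompact_Icc (a := t₁) (b := t₂)).exists_forall_le'
    (f := fun θ => |x θ + ε - x t₂| + |y θ - ε - y t₁|) (Continuous.continuousOn (by fun_prop))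
    (a := 0) fun θ hθ => by
      by_contra hc
      have e1 := abs_nonneg (x θ + ε - x t₂)
      have e2 := abs_nonneg (y θ - ε - y t₁)
      exact h ⟨θ, hθ, sub_eq_zero.1 (abs_eq_zero.1 (by linarith)),
        sub_eq_zero.1 (abs_eq_zero.1 (by linarith))⟩
  exact ⟨c / 5, by positivity, fun η hη θ hθ e => by linarith [k θ hθ, e.1, e.2]⟩

theorem dir_rv {x₀ θ s : ℝ} (h : ∀ s' ∈ Icc (-x₀) (-x₀ + s), Hc (-θ) (rv a s' - rv a (-x₀)) ≤ 0) :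
    ∀ z ∈ Icc (x₀ - s) x₀, Hc θ (a z - a x₀) ≤ 0 := fun z hz => by
  have := h (-z) ⟨by linarith [hz.2], by linarith [hz.1]⟩
  rwa [rv_sub, Hc_conj, neg_neg, neg_neg] at this

theorem dir_rv' {x₀ θ s : ℝ} (h : ∀ s' ∈ Icc x₀ (x₀ + s), Hc θ (a s' - a x₀) ≤ 0) :
    ∀ z ∈ Icc (-x₀ - s) (-x₀), Hc (-θ) (rv a z - rv a (-x₀)) ≤ 0 := fun z hz => by
  rw [rv_sub, Hc_conj, neg_neg]
  exact h (-z) ⟨by linarith [hz.2], by linarith [hz.1]⟩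

theorem mod_rv {lo hi σ ω : ℝ} (h : ∀ s ∈ Icc lo hi, ∀ t ∈ Icc lo hi, |s - t| ≤ σ → ‖a s - a t‖ ≤ ω)
    {lo' hi' : ℝ} (h1 : lo ≤ -hi') (h2 : -lo' ≤ hi) :
    ∀ s ∈ Icc lo' hi', ∀ t ∈ Icc lo' hi', |s - t| ≤ σ → ‖rv a s - rv a t‖ ≤ ω := fun s hs t ht k => by
  rw [rv_sub, Complex.norm_conj]
  exact h _ ⟨by linarith [hs.2], by linarith [hs.1]⟩ _ ⟨by linarith [ht.2], by linarith [ht.1]⟩
    (by rwa [show -s - -t = -(s - t) by ring, abs_neg])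

theorem inj_rv {lo hi lo' hi' : ℝ} (h : InjOn a (Icc lo hi)) (h1 : lo ≤ -hi') (h2 : -lo' ≤ hi) :
    InjOn (rv a) (Icc lo' hi') := fun s hs t ht e =>
  neg_injective (h ⟨by linarith [hs.2], by linarith [hs.1]⟩ ⟨by linarith [ht.2], by linarith [ht.1]⟩
    ((starRingEnd ℂ).injective e))

theorem anchor_rev {s t t' σ : ℝ}
    (h : Anchor (rx x (-t₁) - σ) (rx x (-t₁) + s + σ) (RelP (rv a) (rv b) (rx x) (rx y) (-t₂) (-t₁) ε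
      (rx y (-t₂) - t' - σ) (rx y (-t₁) + t + σ))) :
    Anchor (x t₁ - s - σ) (x t₁ + σ) (RelM a b x y t₁ t₂ ε (y t₁ - t - σ) (y t₂ + t' + σ)) := by
  have e1 : x t₁ - s - σ = -(rx x (-t₁) + s + σ) := by simp only [rx, neg_neg]; ring
  have e2 : x t₁ + σ = -(rx x (-t₁) - σ) := by simp only [rx, neg_neg]; ring
  have e3 : rx y (-t₂) - t' - σ = -(y t₂ + t' + σ) := by simp only [rx, neg_neg]; ring
  have e4 : rx y (-t₁) + t + σ = -(y t₁ - t - σ) := by simp only [rx, neg_neg]; ring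
  rw [e1, e2]
  rw [e3, e4] at h
  exact h.neg.mono fun u v _ _ _ k => RelP.rev k

theorem Pair.concl (P : Pair D t₁ t₂ a b x y) (e1 : EndT a x t₁ t₂) (e2 : EndT b y t₁ t₂)
    (e3 : EndT (rv a) (rx x) (-t₂) (-t₁)) (e4 : EndT (rv b) (rx y) (-t₂) (-t₁)) : Concl a b := by
  have hD := P.hD
  have l1 : t₁ ∈ Icc t₁ t₂ := ⟨le_rfl, P.h12⟩
  have l2 : t₂ ∈ Icc t₁ t₂ := ⟨P.h12, le_rfl⟩
  have x12 := P.sa.mono l1 l2 P.h12
  have y12 := P.sb.mono l1 l2 P.h12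
  obtain ⟨b₁, i1, y1⟩ := e1
  obtain ⟨b₂, i2, y2⟩ := e2
  obtain ⟨b₃, i3, y3⟩ := e3
  obtain ⟨b₄, i4, y4⟩ := e4
  obtain ⟨ε₁, p1, f1⟩ := P.sa.e2 i1
  obtain ⟨ε₂, p2, f2⟩ := P.sb.e2 i2
  obtain ⟨ε₃, p3, f3⟩ := P.rev.sa.e2 i3
  obtain ⟨ε₄, p4, f4⟩ := P.rev.sb.e2 i4
  obtain ⟨ε₅, p5, f5⟩ := P.sa.eps hD
  obtain ⟨ε₆, p6, f6⟩ := P.sb.eps hD
  obtain ⟨e, e0, g1, g2, g3, g4, g5, g6⟩ : ∃ e > 0, e ≤ ε₁ ∧ e ≤ ε₂ ∧ e ≤ ε₃ ∧ e ≤ ε₄ ∧ e ≤ ε₅ ∧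
      e ≤ ε₆ := ⟨min (min (min ε₁ ε₂) (min ε₃ ε₄)) (min ε₅ ε₆), by positivity, by simp, by simp,
        by simp, by simp, by simp, by simp⟩
  obtain ⟨ε, hε, hε', n1, n2⟩ : ∃ ε > 0, ε ≤ e ∧
      (¬∃ θ ∈ Icc t₁ t₂, x θ + ε = x t₂ ∧ y θ - ε = y t₁) ∧
      ¬∃ θ ∈ Icc t₁ t₂, y θ + ε = y t₂ ∧ x θ - ε = x t₁ := by
    by_contra hc
    have k : ∀ ε > 0, ε ≤ e → (∃ θ ∈ Icc t₁ t₂, x θ + ε = x t₂ ∧ y θ - ε = y t₁) ∨
        ∃ θ ∈ Icc t₁ t₂, y θ + ε = y t₂ ∧ x θ - ε = x t₁ := fun ε h1 h2 => by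
      by_contra h
      exact hc ⟨ε, h1, h2, not_or.1 h⟩
    have u1 := @bad_unique t₁ t₂ x y P.sa.mono P.sb.mono
    have u2 := @bad_unique t₁ t₂ y x P.sb.mono P.sa.mono
    have d1 : e / 3 < e / 2 := by linarith
    have d2 : e / 2 < e := by linarith
    rcases k (e / 3) (by positivity) (by linarith) with k1 | k1 <;>
      rcases k (e / 2) (by positivity) (by linarith) with k2 | k2 <;>
      rcases k e e0 le_rfl with k3 | k3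
    exacts [u1 d1 k1 k2, u1 d1 k1 k2, u1 (d1.trans d2) k1 k3, u2 d2 k2 k3, u1 d2 k2 k3,
      u2 (d1.trans d2) k1 k3, u2 d1 k1 k2, u2 d1 k1 k2]
  obtain ⟨ia, μ₁, m1, f5⟩ := f5 ε hε (by linarith)
  obtain ⟨ib, μ₂, m2, f6⟩ := f6 ε hε (by linarith)
  obtain ⟨μ, hμ, m3, m4, hμ'⟩ : ∃ μ > 0, μ ≤ μ₁ ∧ μ ≤ μ₂ ∧ μ ≤ D / 2 :=
    ⟨min (min μ₁ μ₂) (D / 2), by positivity, by simp, by simp, by simp⟩
  obtain ⟨η₁, r1, f5⟩ := f5 μ hμ m3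
  obtain ⟨η₂, r2, f6⟩ := f6 μ hμ m4
  obtain ⟨η₃, r3, v1⟩ := avoid_ex P.sa.cx P.sb.cx n1
  obtain ⟨η₄, r4, v2⟩ := avoid_ex P.sb.cx P.sa.cx n2
  obtain ⟨η, hη, s1, s2, s3, s4, s5⟩ : ∃ η > 0, η ≤ η₁ ∧ η ≤ η₂ ∧ η ≤ η₃ ∧ η ≤ η₄ ∧ η ≤ ε / 4 :=
    ⟨min (min (min η₁ η₂) (min η₃ η₄)) (ε / 4), by positivity, by simp, by simp, by simp, by simp,
      by simp⟩
  have h4 : 4 * η ≤ ε := by linarith
  have sa := f5 η s1
  have sb := f6 η s2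
  have hm : 0 < μ ^ 2 / (8 * D) / D := by positivity
  obtain ⟨θ, s, t, g, c1, c2, c3, E⟩ := P.endD i1 i2 y1 y2 hη hm
  obtain ⟨θ', s', t', g', d1, d2, d3, E'⟩ := P.rev.endD i3 i4 y3 y4 hη hm
  have c4 : D * (θ - t₂) ≤ μ ^ 2 / (8 * D) := by
    rw [mul_comm, ← le_div_iff₀ hD]; linarith
  have d4 : D * (θ' - -t₁) ≤ μ ^ 2 / (8 * D) := by
    rw [mul_comm, ← le_div_iff₀ hD]; linarith
  have hg : 0 < min g g' / 2 := half_pos (lt_min E.hg E'.hg)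
  obtain ⟨σ₁, z1, o1⟩ := modulus P.sa.ca (x t₁ - 3 * ε) (x t₂ + 3 * ε) hg
  obtain ⟨σ₂, z2, o2⟩ := modulus P.sb.ca (y t₁ - 3 * ε) (y t₂ + 3 * ε) hg
  obtain ⟨σ, hσ, z3, z4, z5⟩ : ∃ σ > 0, σ ≤ σ₁ ∧ σ ≤ σ₂ ∧ σ ≤ η / 2 :=
    ⟨min (min σ₁ σ₂) (η / 2), by positivity, by simp, by simp, by simp⟩
  have oa : ∀ G, min g g' ≤ G → ∀ s ∈ Icc (x t₁ - 3 * ε) (x t₂ + 3 * ε),
      ∀ t ∈ Icc (x t₁ - 3 * ε) (x t₂ + 3 * ε), |s - t| ≤ σ → ‖a s - a t‖ ≤ G / 2 :=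
    fun G hG s hs t ht k => (o1 s hs t ht (k.trans z3)).trans (by linarith)
  have ob : ∀ G, min g g' ≤ G → ∀ s ∈ Icc (y t₁ - 3 * ε) (y t₂ + 3 * ε),
      ∀ t ∈ Icc (y t₁ - 3 * ε) (y t₂ + 3 * ε), |s - t| ≤ σ → ‖b s - b t‖ ≤ G / 2 :=
    fun G hG s hs t ht k => (o2 s hs t ht (k.trans z4)).trans (by linarith)
  have ea : ∀ θ ∈ Icc t₁ t₂, x t₂ - ε ≤ x θ → b₁ - kp / 2 ≤ θ := fun θ hθ k => f1 θ hθ (by linarith)
  have eb : ∀ θ ∈ Icc t₁ t₂, y t₂ - ε ≤ y θ → b₂ - kp / 2 ≤ θ := fun θ hθ k => f2 θ hθ (by linarith)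
  have ec : ∀ θ ∈ Icc (-t₂) (-t₁), rx x (-t₁) - ε ≤ rx x θ → b₃ - kp / 2 ≤ θ :=
    fun θ hθ k => f3 θ hθ (by linarith)
  have ed : ∀ θ ∈ Icc (-t₂) (-t₁), rx y (-t₁) - ε ≤ rx y θ → b₄ - kp / 2 ≤ θ :=
    fun θ hθ k => f4 θ hθ (by linarith)
  have w1 : rx x (-t₁) = -x t₁ := by simp only [rx, neg_neg]
  have w2 : rx x (-t₂) = -x t₂ := by simp only [rx, neg_neg]
  have w3 : rx y (-t₁) = -y t₁ := by simp only [rx, neg_neg]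
  have w4 : rx y (-t₂) = -y t₂ := by simp only [rx, neg_neg]
  have w5 : -t₁ + kp = -(t₁ - kp) := by ring
  have w6 : -t₂ - kp = -(t₂ + kp) := by ring
  have oa' := mod_rv (oa g' (min_le_right _ _)) (lo' := rx x (-t₂) - 3 * ε)
    (hi' := rx x (-t₁) + 3 * ε) (by linarith) (by linarith)
  have ob' := mod_rv (ob g' (min_le_right _ _)) (lo' := rx y (-t₂) - 3 * ε)
    (hi' := rx y (-t₁) + 3 * ε) (by linarith) (by linarith)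
  have ap := P.anchorP sa sb hη h4 hμ hμ' i1 i2 ea eb c1 c2 c4 E ia E'.mt
    (dir_rv (by rw [← w3, ← w5]; exact E'.db)) hσ z5 (oa g (min_le_left _ _)) (ob g (min_le_left _ _))
  have bp := P.swap.anchorP sb sa hη h4 hμ hμ' i2 i1 eb ea c1 c2 c4 E.swap ib E'.ms
    (dir_rv (by rw [← w1, ← w5]; exact E'.da)) hσ z5 (ob g (min_le_left _ _)) (oa g (min_le_left _ _))
  have am := anchor_rev (P.rev.anchorP sa.rev sb.rev hη h4 hμ hμ' i3 i4 ec ed d1 d2 d4 E'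
    (inj_rv ia (by linarith) (by linarith)) E.mt (by rw [w4, w6]; exact dir_rv' E.db) hσ z5 oa' ob')
  have bm := anchor_rev (P.swap.rev.anchorP sb.rev sa.rev hη h4 hμ hμ' i4 i3 ed ec d1 d2 d4 E'.swap
    (inj_rv ib (by linarith) (by linarith)) E.ms (by rw [w2, w6]; exact dir_rv' E.da) hσ z5 ob' oa')
  have near : ∀ {a : ℝ → ℂ} {x : ℝ → ℝ}, Side D t₁ t₂ a x → Sm D t₁ t₂ a x ε η μ →
      ∀ θ ∈ Icc t₁ t₂, ∀ s, |s - x θ| ≤ 2 * ε → ‖a s - a (x θ)‖ ≤ D / 4 := by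
    intro a x h sm θ hθ s k
    have x1 := h.mono l1 hθ hθ.1
    have x2 := h.mono hθ l2 hθ.2
    have k' := abs_le.1 k
    have := sm.w1 s ⟨by linarith, by linarith⟩ (x θ) ⟨by linarith, by linarith⟩ (by linarith)
    nlinarith [sin_kp]
  obtain ⟨a1, a2⟩ := E.ms
  obtain ⟨a3, a4⟩ := E.mt
  obtain ⟨a5, a6⟩ := E'.ms
  obtain ⟨a7, a8⟩ := E'.mt
  exact core P.sa.ca P.sb.ca P.sa.cx P.sb.cx hD P.h12 P.sa.mono P.sb.mono hη h4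
    (ia.mono (Icc_subset_Icc (by linarith) (by linarith)))
    (ib.mono (Icc_subset_Icc (by linarith) (by linarith))) P.hab
    (fun θ hθ => by rw [P.key θ hθ, norm_De hD.le]) (near P.sa sa) (near P.sb sb)
    ⟨by linarith, by linarith, by linarith, by linarith, by linarith, by linarith⟩
    ⟨by linarith, by linarith, by linarith, by linarith, by linarith, by linarith⟩ am ap bm bp
    (P.tameP sa sb hη h4 hμ.le hμ') (P.rev.tameP sa.rev sb.rev hη h4 hμ.le hμ').rev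
    (P.swap.tameP sb sa hη h4 hμ.le hμ') (P.swap.rev.tameP sb.rev sa.rev hη h4 hμ.le hμ').rev
    (v1 η s3) (v2 η s4)

end

theorem perp {c M : ℂ} {s : ℝ} (hM : M ≠ 0) (h1 : ip c M = 0) (h2 : ‖c‖ = s * ‖M‖) :
    c = s * Complex.I * M ∨ c = -(s * Complex.I * M) := by
  obtain ⟨k, rfl⟩ : ∃ k, c = k * M := ⟨c / M, (div_mul_cancel₀ c hM).symm⟩
  have n0 : 0 < M.re ^ 2 + M.im ^ 2 := by
    have := Complex.normSq_pos.2 hM
    rwa [Complex.normSq_apply, ← sq, ← sq] at this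
  have e1 : k.re = 0 := by
    have : k.re * (M.re ^ 2 + M.im ^ 2) = 0 := by
      simp only [ip, Complex.mul_re, Complex.mul_im] at h1
      linear_combination h1
    exact (mul_eq_zero.1 this).resolve_right n0.ne'
  rw [norm_mul] at h2
  have e2 := mul_right_cancel₀ (norm_ne_zero_iff.2 hM) h2
  have e3 : k.im ^ 2 = s ^ 2 := by
    rw [← e2, Complex.sq_norm, Complex.normSq_apply, e1]; ring
  rcases sq_eq_sq_iff_eq_or_eq_neg.1 e3 with e | e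
  · left
    congr 1
    apply Complex.ext <;> simp [e1, e]
  · right
    rw [← neg_mul]
    congr 1
    apply Complex.ext <;> simp [e1, e]

theorem ends_mem {S : Set ℂ} {p q M : ℂ} {s : ℝ} (hp : p ∈ S) (hq : q ∈ S)
    (h : q - p = s * Complex.I * M ∨ q - p = -(s * Complex.I * M)) :
    (p + q) / 2 + (s / 2 : ℝ) * Complex.I * M ∈ S ∧ (p + q) / 2 - (s / 2 : ℝ) * Complex.I * M ∈ S := by
  rcases h with h | h
  · refine ⟨?_, ?_⟩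
    · convert hq using 1
      push_cast
      linear_combination -h / 2
    · convert hp using 1
      push_cast
      linear_combination h / 2
  · refine ⟨?_, ?_⟩
    · convert hp using 1
      push_cast
      linear_combination h / 2
    · convert hq using 1
      push_cast
      linear_combination -h / 2

theorem thin {γ : Circle → ℂ} (hγ : Continuous γ) (hi : Function.Injective γ) :
    ∃ τ > 0, ∀ s t : ℝ, 0 < s → s < τ → 0 < t → t < τ → Ins (range γ) s t := by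
  obtain ⟨D, hD, hle, h | ⟨t₁, t₂, a, b, x, y, P, ma, mb⟩⟩ := setup hγ hi
  · exact width_case (isCompact_range hγ) hD hle h
  obtain ⟨a', x', sa, e1, e3, k1, k2⟩ := P.sa.orient hD P.h12 P.hπ
  obtain ⟨b', y', sb, e2, e4, k3, k4⟩ := P.sb.orient hD P.h12 P.hπ
  have tr : ∀ s t, ∃ s' t', a' s + b' t = a s' + b t' := fun s t => by
    obtain ⟨s', e⟩ := k2 s
    obtain ⟨t', e'⟩ := k4 t
    exact ⟨s', t', by rw [e, e']⟩
  have P' : Pair D t₁ t₂ a' b' x' y' := by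
    refine ⟨hD, P.h12, P.hπ, sa, sb, fun s t => ?_, fun θ hθ => by rw [k1, k3, P.key θ hθ],
      fun m hm => ?_, fun m hm => ?_⟩
    · obtain ⟨s', t', e⟩ := tr s t
      exact e ▸ P.hab s' t'
    · obtain ⟨θ, h1, h2, h3⟩ := P.eR m hm
      refine ⟨θ, h1, h2, fun s t => ?_⟩
      obtain ⟨s', t', e⟩ := tr s t
      exact e ▸ h3 s' t'
    · obtain ⟨θ, h1, h2, h3⟩ := P.eL m hm
      refine ⟨θ, h1, h2, fun s t => ?_⟩
      obtain ⟨s', t', e⟩ := tr s t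
      exact e ▸ h3 s' t'
  have ma' : ∀ s, a' s ∈ range γ := fun s => by
    obtain ⟨s', e⟩ := k2 s
    exact e ▸ ma s'
  have mb' : ∀ s, -b' s ∈ range γ := fun s => by
    obtain ⟨s', e⟩ := k4 s
    exact e ▸ mb s'
  obtain ⟨τ, hτ, h⟩ := P'.concl e1 e2 e3 e4
  refine ⟨τ, hτ, fun s t s0 s1 t0 t1 => ?_⟩
  obtain ⟨u, v, u', v', M, e, hM, g1, g2, g3, g4⟩ := h s t s0 s1 t0 t1
  obtain ⟨z1, z2⟩ := ends_mem (M := M) (ma' u) (ma' v) (perp hM g1 g3)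
  obtain ⟨z3, z4⟩ := ends_mem (M := M) (s := t) (mb' v') (mb' u') (by
    rw [show -b' u' - -b' v' = b' v' - b' u' by ring]
    exact perp hM g2 g4)
  refine ⟨(a' u + a' v) / 2, -M, neg_ne_zero.2 hM, ?_, ?_, ?_, ?_⟩
  · convert z2 using 1; ring
  · convert z1 using 1; ring
  · convert z4 using 1; rw [e]; ring
  · convert z3 using 1; rw [e]; ring

end Pool.Agent.Lib.MP_9488bf_co.Thin
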