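import Pool.Agent.Lib.MP_9488bf_co.Thin.Basic

/-! One side of a family of diameters. -/

noncomputable section

namespace Pool.Agent.Lib.MP_9488bf_co.Thin

open Set Real

/-- the curve `a` has its extreme point in the direction opposite to `θ` at the parameter `x θ` -/
structure Side (D t₁ t₂ : ℝ) (a : ℝ → ℂ) (x : ℝ → ℝ) : Prop where
  ca : Continuous a
  cx : Continuous x
  inj : ∃ ρ > 0, InjOn a (Icc (x t₁ - ρ) (x t₂ + ρ))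
  mono : MonotoneOn x (Icc t₁ t₂)
  lens : ∀ θ ∈ Icc t₁ t₂, ∀ s, ‖a s - a (x θ)‖ ^ 2 ≤ 2 * D * Hc θ (a s - a (x θ))
  corner : ∀ θ ∈ Icc t₁ t₂, ∀ φ ∈ Icc t₁ t₂, x θ = x φ → 1 / 2 ≤ cos (θ - φ)
  diam : ∀ s t, ‖a s - a t‖ ≤ D

/-- two sides that are joined by a maximal interval of diameters -/
structure Pair (D t₁ t₂ : ℝ) (a b : ℝ → ℂ) (x y : ℝ → ℝ) : Prop where
  hD : 0 < D
  h12 : t₁ ≤ t₂
  hπ : t₂ - t₁ < π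
  sa : Side D t₁ t₂ a x
  sb : Side D t₁ t₂ b y
  hab : ∀ s t, ‖a s + b t‖ ≤ D
  key : ∀ θ ∈ Icc t₁ t₂, a (x θ) + b (y θ) = -((D : ℂ) * ee θ)
  eR : ∀ m > 0, ∃ θ, t₂ < θ ∧ θ ≤ t₂ + m ∧ ∀ s t, -Hc θ (a s + b t) < D
  eL : ∀ m > 0, ∃ θ, t₁ - m ≤ θ ∧ θ < t₁ ∧ ∀ s t, -Hc θ (a s + b t) < D

end Pool.Agent.Lib.MP_9488bf_co.Thin
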