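import Pool.Agent.Lib.MP_9488bf_co.Thin.Side

/-! How a curve leaves the end of an interval of diameters. -/

noncomputable section

namespace Pool.Agent.Lib.MP_9488bf_co.Thin

open Set Real

/-- the first angle with the last extreme point -/
structure IsTb (x : ℝ → ℝ) (t₁ t₂ tb : ℝ) : Prop where
  mem : tb ∈ Icc t₁ t₂
  eq : x tb = x t₂
  lt : ∀ θ ∈ Icc t₁ t₂, θ < tb → x θ < x t₂

/-- the branch is flat -/
def Fp (a : ℝ → ℂ) (x₂ θ : ℝ) : Prop :=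
  ∃ r > 0, ∀ s ∈ Icc x₂ (x₂ + r), Hc θ (a s - a x₂) ≤ 0

/-- there are steep chords arbitrarily near -/
def Sp (a : ℝ → ℂ) (x₂ θ φ : ℝ) : Prop :=
  ∀ η > 0, ∃ u v, x₂ - η ≤ u ∧ u < v ∧ v ≤ x₂ + η ∧ 0 < Hc θ (a v - a u) ∧ 0 < Hc φ (a v - a u)

/-- the type of an end -/
def EndT (a : ℝ → ℂ) (x : ℝ → ℝ) (t₁ t₂ : ℝ) : Prop :=
  ∃ tb, IsTb x t₁ t₂ tb ∧ (Fp a (x t₂) (t₂ + kp) ∨ Sp a (x t₂) (t₂ + kp) (tb - kp))

section

variable {D t₁ t₂ tb : ℝ} {a : ℝ → ℂ} {x : ℝ → ℝ}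

theorem Side.rev (h : Side D t₁ t₂ a x) : Side D (-t₂) (-t₁) (rv a) (rx x) := by
  have m : ∀ θ ∈ Icc (-t₂) (-t₁), -θ ∈ Icc t₁ t₂ := fun θ hθ =>
    ⟨by linarith [hθ.2], by linarith [hθ.1]⟩
  refine ⟨continuous_rv h.ca, continuous_rx h.cx, ?_, fun s hs t ht e => ?_, fun θ hθ s => ?_,
    fun θ hθ φ hφ e => ?_, fun s t => ?_⟩
  · obtain ⟨ρ, h0, hi⟩ := h.inj
    refine ⟨ρ, h0, fun s hs t ht e => ?_⟩
    simp only [rx, neg_neg] at hs ht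
    exact neg_injective (hi ⟨by linarith [hs.2], by linarith [hs.1]⟩
      ⟨by linarith [ht.2], by linarith [ht.1]⟩ ((starRingEnd ℂ).injective e))
  · exact neg_le_neg (h.mono (m t ht) (m s hs) (neg_le_neg e))
  · have := h.lens (-θ) (m θ hθ) (-s)
    rw [← Hc_conj, neg_neg] at this
    rw [rv_sub, Complex.norm_conj, rx, neg_neg]
    exact this
  · have := h.corner (-θ) (m θ hθ) (-φ) (m φ hφ) (neg_injective e)
    rwa [show -θ - -φ = -(θ - φ) by ring, cos_neg] at this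
  · rw [rv_sub, Complex.norm_conj]
    exact h.diam _ _

theorem Side.flip (h : Side D t₁ t₂ a x) (h12 : t₁ ≤ t₂) (e : x t₁ = x t₂) :
    Side D t₁ t₂ (fun s => a (-s)) fun θ => -x θ := by
  have c : ∀ θ ∈ Icc t₁ t₂, x θ = x t₂ := fun θ hθ =>
    le_antisymm (h.mono hθ ⟨h12, le_rfl⟩ hθ.2) (e ▸ h.mono ⟨le_rfl, h12⟩ hθ hθ.1)
  refine ⟨h.ca.comp continuous_neg, h.cx.neg, ?_, fun s hs t ht _ => ?_, fun θ hθ s => ?_,
    fun θ hθ φ hφ e => h.corner θ hθ φ hφ (neg_injective e), fun s t => h.diam _ _⟩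
  · obtain ⟨ρ, h0, hi⟩ := h.inj
    exact ⟨ρ, h0, fun s hs t ht e' => neg_injective (hi ⟨by linarith [hs.2], by linarith [hs.1]⟩
      ⟨by linarith [ht.2], by linarith [ht.1]⟩ e')⟩
  · simp only [c s hs, c t ht, le_refl]
  · simpa only [neg_neg] using h.lens θ hθ (-s)

theorem Side.exists_tb (h : Side D t₁ t₂ a x) (h12 : t₁ ≤ t₂) : ∃ tb, IsTb x t₁ t₂ tb := by
  obtain ⟨tb, ⟨h1, h2⟩, h3⟩ := (isCompact_Icc.inter_right (isClosed_eq h.cx (continuous_const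
    (y := x t₂))) (s := Icc t₁ t₂)).exists_isLeast ⟨t₂, ⟨h12, le_rfl⟩, rfl⟩
  exact ⟨tb, h1, h2, fun θ hθ hl => lt_of_le_of_ne (h.mono hθ ⟨h12, le_rfl⟩ hθ.2)
    fun e => absurd (h3 ⟨hθ, e⟩) (not_le.2 hl)⟩

theorem Side.tb_le (h : Side D t₁ t₂ a x) (hπ : t₂ - t₁ < π) (hb : IsTb x t₁ t₂ tb) :
    t₂ - tb ≤ π / 3 :=
  le_third (by linarith [hb.mem.1]) (h.corner t₂ ⟨hb.mem.1.trans hb.mem.2, le_rfl⟩ tb hb.mem hb.eq.symm)

theorem Side.pos (h : Side D t₁ t₂ a x) (hD : 0 < D) {θ s : ℝ} (hθ : θ ∈ Icc t₁ t₂)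
    (hs : a s ≠ a (x θ)) : 0 < Hc θ (a s - a (x θ)) :=
  pos_of_mul (lt_of_lt_of_le (pow_pos (norm_pos_iff.2 (sub_ne_zero.2 hs)) 2) (h.lens θ hθ s))
    (by positivity)

theorem Side.nn (h : Side D t₁ t₂ a x) (hD : 0 < D) {θ : ℝ} (hθ : θ ∈ Icc t₁ t₂) (s : ℝ) :
    0 ≤ Hc θ (a s - a (x θ)) :=
  nn_of_mul (le_trans (sq_nonneg _) (h.lens θ hθ s)) (by positivity)

theorem Side.tri (h : Side D t₁ t₂ a x) (hD : 0 < D) (hπ : t₂ - t₁ < π) (hb : IsTb x t₁ t₂ tb) :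
    Fp a (x t₂) (t₂ + kp) ∨ Fp a (x t₂) (tb - kp) ∨ Sp a (x t₂) (t₂ + kp) (tb - kp) := by
  by_cases hS : Sp a (x t₂) (t₂ + kp) (tb - kp)
  · exact Or.inr (Or.inr hS)
  unfold Sp at hS
  push Not at hS
  obtain ⟨η, hη, hS⟩ := hS
  obtain ⟨ρ, hρ, hi⟩ := h.inj
  have h12 := hb.mem.1.trans hb.mem.2
  have l2 : t₂ ∈ Icc t₁ t₂ := ⟨h12, le_rfl⟩
  have x12 := h.mono ⟨le_rfl, h12⟩ l2 h12
  have hr : 0 < min η ρ := lt_min hη hρ
  have r1 := min_le_left η ρ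
  have r2 := min_le_right η ρ
  have b1 := h.tb_le hπ hb
  have k0 := kp_pos
  have k1 : kp = π / 24 := rfl
  have cov : ∀ s ∈ Ioc (x t₂) (x t₂ + min η ρ), Hc (t₂ + kp) (a s - a (x t₂)) ≤ 0 ∨
      Hc (tb - kp) (a s - a (x t₂)) ≤ 0 := fun s hs => by
    by_contra hc
    push Not at hc
    exact absurd hc.2 (not_lt.2 (hS (x t₂) s (by linarith) hs.1 (by linarith [hs.2]) hc.1))
  have fin : ∀ θ, (∀ s ∈ Ioc (x t₂) (x t₂ + min η ρ), Hc θ (a s - a (x t₂)) ≤ 0) →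
      Fp a (x t₂) θ := fun θ k => ⟨_, hr, fun s hs => by
    rcases eq_or_lt_of_le hs.1 with e | e
    · rw [← e, sub_self, Hc_zero]
    · exact k s ⟨e, hs.2⟩⟩
  by_contra hc
  push Not at hc
  have n1 : ∃ s ∈ Ioc (x t₂) (x t₂ + min η ρ), Hc (tb - kp) (a s - a (x t₂)) ≤ 0 := by
    by_contra k
    push Not at k
    exact hc.1 (fin _ fun s hs => (cov s hs).resolve_right (not_le.2 (k s hs)))
  have n2 : ∃ s ∈ Ioc (x t₂) (x t₂ + min η ρ), Hc (t₂ + kp) (a s - a (x t₂)) ≤ 0 := by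
    by_contra k
    push Not at k
    exact hc.2.1 (fin _ fun s hs => (cov s hs).resolve_left (not_le.2 (k s hs)))
  have ca := h.ca
  obtain ⟨s, hs, s1, s2⟩ := isPreconnected_closed_iff.1
    (isPreconnected_Ioc (a := x t₂) (b := x t₂ + min η ρ))
    {s | Hc (t₂ + kp) (a s - a (x t₂)) ≤ 0} {s | Hc (tb - kp) (a s - a (x t₂)) ≤ 0}
    (isClosed_le ((continuous_Hc _).comp (by fun_prop)) continuous_const)
    (isClosed_le ((continuous_Hc _).comp (by fun_prop)) continuous_const) cov n2 n1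
  have p := h.pos hD l2 (s := s) fun e => hs.1.ne' (hi ⟨by linarith [hs.1], by linarith [hs.2]⟩
    ⟨by linarith, by linarith⟩ e)
  have e := three_id (tb - kp) t₂ (t₂ + kp) (a s - a (x t₂))
  have hb2 := hb.mem.2
  have q1 : 0 < sin (t₂ + kp - (tb - kp)) := sin_pos_of_pos_of_lt_pi (by linarith) (by linarith)
  have q2 : 0 ≤ sin (t₂ + kp - t₂) := sin_nonneg_of_nonneg_of_le_pi (by linarith) (by linarith)
  have q3 : 0 ≤ sin (t₂ - (tb - kp)) := sin_nonneg_of_nonneg_of_le_pi (by linarith) (by linarith)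
  have s1' : Hc (t₂ + kp) (a s - a (x t₂)) ≤ 0 := s1
  have s2' : Hc (tb - kp) (a s - a (x t₂)) ≤ 0 := s2
  nlinarith [mul_pos q1 p, mul_nonneg q2 (neg_nonneg.2 s2'), mul_nonneg q3 (neg_nonneg.2 s1')]

theorem V_pos {c : ℂ} {θ δ : ℝ} (h0 : 0 < δ) (h1 : δ < π / 2) (k1 : 0 < Hc θ c)
    (k2 : Hc (θ - δ) c ≤ 0) : 0 < Vc θ c := by
  have c1 : 0 < cos δ := cos_pos_of_mem_Ioo ⟨by linarith, h1⟩
  have s1 : 0 ≤ sin δ := sin_nonneg_of_nonneg_of_le_pi h0.le (by linarith)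
  rw [Hc_rot θ, show θ - δ - θ = -δ by ring, cos_neg, sin_neg] at k2
  exact pos_of_mul (s := sin δ) (by nlinarith [mul_pos c1 k1]) s1

theorem V_neg {c : ℂ} {θ δ : ℝ} (h0 : 0 < δ) (h1 : δ < π / 2) (k1 : 0 < Hc θ c)
    (k2 : Hc (θ + δ) c ≤ 0) : 0 < -Vc θ c := by
  have c1 : 0 < cos δ := cos_pos_of_mem_Ioo ⟨by linarith, h1⟩
  have s1 : 0 ≤ sin δ := sin_nonneg_of_nonneg_of_le_pi h0.le (by linarith)
  rw [Hc_rot θ, show θ + δ - θ = δ by ring] at k2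
  exact pos_of_mul (s := sin δ) (by nlinarith [mul_pos c1 k1]) s1

theorem H_of_V {c : ℂ} {θ φ : ℝ} (h : Vc θ c = 0) (k : 0 < Hc θ c) (h1 : -(π / 2) < φ - θ)
    (h2 : φ - θ < π / 2) : 0 < Hc φ c := by
  rw [Hc_rot θ, h, mul_zero, add_zero]
  exact mul_pos (cos_pos_of_mem_Ioo ⟨h1, h2⟩) k

theorem level {f g : ℝ → ℝ} (hf : Continuous f) (hg : Continuous g) {p q p' q' : ℝ} (h : p ≤ q)
    (h' : p' ≤ q') (f0 : f q = 0) (g0 : g p' = 0) (f1 : 0 < f p) (g1 : 0 < g q') :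
    ∃ s ∈ Icc p q, ∃ t ∈ Icc p' q', f s = g t ∧ 0 < f s := by
  have m := lt_min f1 g1
  obtain ⟨s, hs, e1⟩ := intermediate_value_Icc' h hf.continuousOn
    (show min (f p) (g q') ∈ Icc (f q) (f p) from ⟨by rw [f0]; exact m.le, min_le_left _ _⟩)
  obtain ⟨t, ht, e2⟩ := intermediate_value_Icc h' hg.continuousOn
    (show min (f p) (g q') ∈ Icc (g p') (g q') from ⟨by rw [g0]; exact m.le, min_le_right _ _⟩)
  exact ⟨s, hs, t, ht, e1.trans e2.symm, e1 ▸ m⟩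

theorem Side.cusp (h : Side D t₁ t₂ a x) (hD : 0 < D) (hπ : t₂ - t₁ < π) (hb : IsTb x t₁ t₂ tb)
    (hx : x t₁ < x t₂) (hU : Fp a (x t₂) (tb - kp)) : Sp a (x t₂) (t₂ + kp) (tb - kp) := by
  intro η hη
  obtain ⟨r, hr, hU⟩ := hU
  obtain ⟨ρ, hρ, hi⟩ := h.inj
  have b1 := h.tb_le hπ hb
  have k0 := kp_pos
  have k1 : kp = π / 24 := rfl
  have hb1 := hb.mem.1
  have hb2 := hb.mem.2
  have l1 : t₁ ∈ Icc t₁ t₂ := ⟨le_rfl, hb1.trans hb2⟩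
  have t1 : t₁ < tb := lt_of_le_of_ne hb1 fun e => hx.ne (e ▸ hb.eq)
  have o : IsOpen ({θ | x t₂ - η < x θ} ∩ Ioi (tb - kp)) :=
    (isOpen_lt continuous_const h.cx).inter isOpen_Ioi
  obtain ⟨l, hl, k⟩ := exists_Ioc_subset_of_mem_nhds
    (o.mem_nhds ⟨show x t₂ - η < x tb by rw [hb.eq]; linarith, show tb - kp < tb by linarith⟩)
    ⟨t₁, t1⟩
  obtain ⟨φ₀, p1, p2⟩ := exists_between (max_lt hl t1)
  obtain ⟨p3, p4⟩ := k ⟨(le_max_left _ _).trans_lt p1, p2.le⟩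
  have p3' : x t₂ - η < x φ₀ := p3
  have p4' : tb - kp < φ₀ := p4
  have m0 : φ₀ ∈ Icc t₁ t₂ := ⟨((le_max_right _ _).trans_lt p1).le, by linarith⟩
  have x0 := hb.lt φ₀ m0 p2
  have x1 := h.mono l1 m0 m0.1
  have hv : 0 < min η (min r ρ) := by positivity
  have v1 := min_le_left η (min r ρ)
  have v2 := (min_le_right η (min r ρ)).trans (min_le_left r ρ)
  have v3 := (min_le_right η (min r ρ)).trans (min_le_right r ρ)
  have ca := h.ca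
  have cx := h.cx
  have ptb : ∀ s ∈ Icc (x t₁ - ρ) (x t₂ + ρ), s ≠ x t₂ → 0 < Hc tb (a s - a (x t₂)) := fun s hs e => by
    have := h.pos hD hb.mem (s := s) fun e' => e (hi hs ⟨by linarith, by linarith⟩ (hb.eq ▸ e'))
    rwa [hb.eq] at this
  obtain ⟨φ, hφ, v, hv', e1, e2⟩ := level (f := fun θ => Vc tb (a (x θ) - a (x t₂)))
    (g := fun s => Vc tb (a s - a (x t₂))) ((continuous_Vc _).comp (by fun_prop))
    ((continuous_Vc _).comp (by fun_prop)) p2.le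
    (show x t₂ ≤ x t₂ + min η (min r ρ) by linarith) (by simp only [hb.eq, sub_self, Vc_zero])
    (by simp only [sub_self, Vc_zero])
    (V_pos (δ := tb - φ₀) (by linarith) (by linarith) (ptb _ ⟨by linarith, by linarith⟩ x0.ne) (by
      have := h.nn hD m0 (x t₂)
      rw [show tb - (tb - φ₀) = φ₀ by ring, ← neg_sub, Hc_neg]
      linarith))
    (V_pos k0 (by linarith) (ptb _ ⟨by linarith, by linarith⟩ (by linarith))
      (hU _ ⟨by linarith, by linarith⟩))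
  have mφ : φ ∈ Icc t₁ t₂ := ⟨m0.1.trans hφ.1, hφ.2.trans hb2⟩
  have u1 := h.mono m0 mφ hφ.1
  have u2 := h.mono mφ ⟨hb1.trans hb2, le_rfl⟩ mφ.2
  have u3 : x φ < x t₂ := lt_of_le_of_ne u2 fun e => by
    simp only [e, sub_self, Vc_zero, lt_irrefl] at e2
  have u4 : x φ < v := u3.trans_le hv'.1
  have z : Vc tb (a v - a (x φ)) = 0 := by
    simp only [Vc_sub] at e1 ⊢
    linarith
  have q := h.pos hD mφ (s := v) fun e => u4.ne' (hi ⟨by linarith [hv'.1], by linarith [hv'.2]⟩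
    ⟨by linarith, by linarith⟩ e)
  rw [Hc_rot tb, z, mul_zero, add_zero] at q
  have q' := pos_of_mul q (cos_nonneg_of_mem_Icc ⟨by linarith [hφ.1], by linarith [hφ.2]⟩)
  exact ⟨x φ, v, by linarith, u4, by linarith [hv'.2], H_of_V z q' (by linarith) (by linarith),
    H_of_V z q' (by linarith) (by linarith)⟩

theorem cusp2 (ha : Continuous a) {x₀ β σ θ φ r : ℝ} (hr : 0 < r) (hσ : σ ≠ 0)
    (hi : InjOn a (Icc (x₀ - r) (x₀ + r))) (h1 : -(π / 2) < θ - β) (h2 : θ - β < π / 2)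
    (h3 : -(π / 2) < φ - β) (h4 : φ - β < π / 2)
    (hV : ∀ s ∈ Icc (x₀ - r) (x₀ + r), s ≠ x₀ → 0 < σ * Vc β (a s - a x₀)) :
    Sp a x₀ θ φ ∨ Sp (fun s => a (-s)) (-x₀) θ φ := by
  by_contra hc
  unfold Sp at hc
  push Not at hc
  obtain ⟨⟨η₁, e1, k1⟩, η₂, e2, k2⟩ := hc
  have hv : 0 < min r (min η₁ η₂) := by positivity
  have v1 := min_le_left r (min η₁ η₂)
  have v2 := (min_le_right r (min η₁ η₂)).trans (min_le_left η₁ η₂)
  have v3 := (min_le_right r (min η₁ η₂)).trans (min_le_right η₁ η₂)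
  have cg : Continuous fun s => σ * Vc β (a s - a x₀) :=
    continuous_const.mul ((continuous_Vc _).comp (by fun_prop))
  obtain ⟨u, hu, v, hv', z1, z2⟩ := level cg cg (show x₀ - min r (min η₁ η₂) ≤ x₀ by linarith)
    (show x₀ ≤ x₀ + min r (min η₁ η₂) by linarith) (by simp only [sub_self, Vc_zero, mul_zero])
    (by simp only [sub_self, Vc_zero, mul_zero]) (hV _ ⟨by linarith, by linarith⟩ (by linarith))
    (hV _ ⟨by linarith, by linarith⟩ (by linarith))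
  have u3 : u < x₀ := lt_of_le_of_ne hu.2 fun e => by
    simp only [e, sub_self, Vc_zero, mul_zero, lt_irrefl] at z2
  have u4 : u < v := u3.trans_le hv'.1
  have z : Vc β (a v - a u) = 0 := by
    have := mul_left_cancel₀ hσ z1
    simp only [Vc_sub] at this ⊢
    linarith
  have n : Hc β (a v - a u) ≠ 0 := fun e => by
    have := norm_sq_eq β (a v - a u)
    rw [e, z] at this
    exact u4.ne' (hi ⟨by linarith [hv'.1], by linarith [hv'.2]⟩ ⟨by linarith [hu.1], by linarith⟩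
      (sub_eq_zero.1 (norm_eq_zero.1 (by nlinarith [norm_nonneg (a v - a u)]))))
  rcases lt_or_gt_of_ne n with q | q
  · have z' : Vc β (a u - a v) = 0 := by rw [← neg_sub, Vc_neg, z, neg_zero]
    have q' : 0 < Hc β (a u - a v) := by rw [← neg_sub, Hc_neg]; linarith
    have := k2 (-v) (-u) (by linarith [hv'.2]) (by linarith) (by linarith [hu.1])
    simp only [neg_neg] at this
    exact absurd (H_of_V z' q' h3 h4) (not_lt.2 (this (H_of_V z' q' h1 h2)))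
  · exact absurd (H_of_V z q h3 h4) (not_lt.2 (k1 u v (by linarith [hu.1]) u4 (by linarith [hv'.2])
      (H_of_V z q h1 h2)))

theorem Fp_rv {x₀ θ : ℝ} (h : Fp (fun s => a (-s)) x₀ θ) : Fp (rv a) x₀ (-θ) := by
  obtain ⟨r, hr, h⟩ := h
  exact ⟨r, hr, fun s hs => by rw [rv_sub, Hc_conj]; exact h s hs⟩

theorem Sp_rv {x₀ θ φ : ℝ} (h : Sp (fun s => a (-s)) x₀ θ φ) : Sp (rv a) x₀ (-φ) (-θ) := by
  intro η hη
  obtain ⟨u, v, h1, h2, h3, h4, h5⟩ := h η hη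
  exact ⟨u, v, h1, h2, h3, by rw [rv_sub, Hc_conj]; exact h5, by rw [rv_sub, Hc_conj]; exact h4⟩

theorem Side.endT (h : Side D t₁ t₂ a x) (hD : 0 < D) (h12 : t₁ ≤ t₂) (hπ : t₂ - t₁ < π)
    (hx : x t₁ < x t₂) : EndT a x t₁ t₂ := by
  obtain ⟨tb, hb⟩ := h.exists_tb h12
  refine ⟨tb, hb, ?_⟩
  rcases h.tri hD hπ hb with k | k | k
  exacts [Or.inl k, Or.inr (h.cusp hD hπ hb hx k), Or.inr k]

theorem deg_end (h12 : t₁ ≤ t₂) (e : x t₁ = x t₂)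
    (k1 : Fp a (x t₂) (t₂ + kp) ∨ Sp a (x t₂) (t₂ + kp) (t₁ - kp))
    (k2 : Fp (fun s => a (-s)) (-x t₂) (t₁ - kp) ∨
      Sp (fun s => a (-s)) (-x t₂) (t₂ + kp) (t₁ - kp)) :
    EndT a x t₁ t₂ ∧ EndT (rv a) (rx x) (-t₂) (-t₁) := by
  refine ⟨⟨t₁, ⟨⟨le_rfl, h12⟩, e, fun θ hθ hl => absurd hθ.1 (not_le.2 hl)⟩, k1⟩, -t₂,
    ⟨⟨le_rfl, neg_le_neg h12⟩, by simp only [rx, neg_neg, e],
      fun θ hθ hl => absurd hθ.1 (not_le.2 hl)⟩, ?_⟩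
  have e1 : rx x (-t₁) = -x t₂ := by simp only [rx, neg_neg, e]
  rw [e1, show -t₁ + kp = -(t₁ - kp) by ring, show -t₂ - kp = -(t₂ + kp) by ring]
  exact k2.imp Fp_rv Sp_rv

theorem Side.orient (h : Side D t₁ t₂ a x) (hD : 0 < D) (h12 : t₁ ≤ t₂) (hπ : t₂ - t₁ < π) :
    ∃ (a' : ℝ → ℂ) (x' : ℝ → ℝ), Side D t₁ t₂ a' x' ∧ EndT a' x' t₁ t₂ ∧
      EndT (rv a') (rx x') (-t₂) (-t₁) ∧ (∀ θ, a' (x' θ) = a (x θ)) ∧ ∀ s, ∃ t, a' s = a t := by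
  have l1 : t₁ ∈ Icc t₁ t₂ := ⟨le_rfl, h12⟩
  have l2 : t₂ ∈ Icc t₁ t₂ := ⟨h12, le_rfl⟩
  rcases eq_or_lt_of_le (h.mono l1 l2 h12) with e | hx
  swap
  · exact ⟨a, x, h, h.endT hD h12 hπ hx, h.rev.endT hD (neg_le_neg h12) (by linarith)
      (by simp only [rx, neg_neg]; linarith), fun _ => rfl, fun s => ⟨s, rfl⟩⟩
  have h' := h.flip h12 e
  have b1 : IsTb x t₁ t₂ t₁ := ⟨l1, e, fun θ hθ hl => absurd hθ.1 (not_le.2 hl)⟩
  have b2 : IsTb (fun θ => -x θ) t₁ t₂ t₁ :=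
    ⟨l1, congrArg Neg.neg e, fun θ hθ hl => absurd hθ.1 (not_le.2 hl)⟩
  have f1 := h.tri hD hπ b1
  have f2 := h'.tri hD hπ b2
  have b3 := h.tb_le hπ b1
  have k0 := kp_pos
  have k1 : kp = π / 24 := rfl
  obtain ⟨ρ, hρ, hi⟩ := h.inj
  rw [e] at hi
  have two : ∀ (θ β σ : ℝ), σ ≠ 0 → β ∈ Icc t₁ t₂ → x β = x t₂ →
      (∀ c : ℂ, 0 < Hc β c → Hc θ c ≤ 0 → 0 < σ * Vc β c) → Fp a (x t₂) θ →
      Fp (fun s => a (-s)) (-x t₂) θ →
      Sp a (x t₂) (t₂ + kp) (t₁ - kp) ∨ Sp (fun s => a (-s)) (-x t₂) (t₂ + kp) (t₁ - kp) := by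
    rintro θ β σ hσ hβ eβ hc ⟨r, hr, g1⟩ ⟨r', hr', g2⟩
    have hv : 0 < min ρ (min r r') := by positivity
    have v1 := min_le_left ρ (min r r')
    have v2 := (min_le_right ρ (min r r')).trans (min_le_left r r')
    have v3 := (min_le_right ρ (min r r')).trans (min_le_right r r')
    refine cusp2 h.ca hv hσ (β := β) (hi.mono (Icc_subset_Icc (by linarith) (by linarith)))
      (by linarith [hβ.2]) (by linarith [hβ.1]) (by linarith [hβ.2]) (by linarith [hβ.1])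
      fun s hs hne => hc _ ?_ ?_
    · have := h.pos hD hβ (s := s) fun e' => hne (hi ⟨by linarith [hs.1], by linarith [hs.2]⟩
        ⟨by linarith, by linarith⟩ (eβ ▸ e'))
      rwa [eβ] at this
    · rcases le_total (x t₂) s with k | k
      · exact g1 s ⟨k, by linarith [hs.2]⟩
      · simpa only [neg_neg] using g2 (-s) ⟨by linarith, by linarith [hs.1]⟩
  have f3 := two (t₂ + kp) t₂ (-1) (by norm_num) l2 rfl fun c c1 c2 => by
    have := V_neg k0 (by linarith) c1 c2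
    linarith
  have f4 := two (t₁ - kp) t₁ 1 one_ne_zero l1 e fun c c1 c2 => by
    have := V_pos k0 (by linarith) c1 c2
    linarith
  have f5 : ((Fp a (x t₂) (t₂ + kp) ∨ Sp a (x t₂) (t₂ + kp) (t₁ - kp)) ∧
      (Fp (fun s => a (-s)) (-x t₂) (t₁ - kp) ∨ Sp (fun s => a (-s)) (-x t₂) (t₂ + kp) (t₁ - kp))) ∨
      ((Fp (fun s => a (-s)) (-x t₂) (t₂ + kp) ∨ Sp (fun s => a (-s)) (-x t₂) (t₂ + kp) (t₁ - kp)) ∧
        (Fp a (x t₂) (t₁ - kp) ∨ Sp a (x t₂) (t₂ + kp) (t₁ - kp))) := by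
    tauto
  rcases f5 with k | k
  · obtain ⟨z1, z2⟩ := deg_end h12 e k.1 k.2
    exact ⟨a, x, h, z1, z2, fun _ => rfl, fun s => ⟨s, rfl⟩⟩
  · obtain ⟨z1, z2⟩ := deg_end (a := fun s => a (-s)) (x := fun θ => -x θ) h12 (congrArg Neg.neg e)
      k.1 (by simpa only [neg_neg] using k.2)
    exact ⟨_, _, h', z1, z2, fun _ => by simp only [neg_neg], fun s => ⟨-s, rfl⟩⟩

end

end Pool.Agent.Lib.MP_9488bf_co.Thin
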