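import Pool.Agent.Lib.MP_9488bf_co.Thin.Core
import Pool.Agent.Lib.MP_9488bf_co.Thin.Types

/-! The signs on the boundary of the domain. -/

noncomputable section

namespace Pool.Agent.Lib.MP_9488bf_co.Thin

open Set Real

/-- the scales are small for one side -/
structure Sm (D t₁ t₂ : ℝ) (a : ℝ → ℂ) (x : ℝ → ℝ) (ε η μ : ℝ) : Prop where
  w1 : ∀ s ∈ Icc (x t₁ - 3 * ε) (x t₂ + 3 * ε), ∀ t ∈ Icc (x t₁ - 3 * ε) (x t₂ + 3 * ε),
    |s - t| ≤ 3 * ε → ‖a s - a t‖ ≤ D * sin (kp / 2) / 2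
  sep : ∀ s ∈ Icc (x t₁ - 3 * ε) (x t₂ + 3 * ε), ∀ t ∈ Icc (x t₁ - 3 * ε) (x t₂ + 3 * ε),
    ε / 2 ≤ |s - t| → μ ≤ ‖a s - a t‖
  w2 : ∀ s ∈ Icc (x t₁ - 3 * ε) (x t₂ + 3 * ε), ∀ t ∈ Icc (x t₁ - 3 * ε) (x t₂ + 3 * ε),
    |s - t| ≤ 4 * η → ‖a s - a t‖ ≤ μ ^ 2 / (8 * D)
  e3 : x t₁ < x t₂ → ε ≤ x t₂ - x t₁

theorem sin_kp : sin (kp / 2) ≤ 1 / 2 := by
  have := sin_le (x := kp / 2) (by linarith [kp_pos])
  have k1 : kp = π / 24 := rfl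
  linarith [pi_le_four]

theorem Hc_half (θ : ℝ) (z : ℂ) : Hc (θ + π / 2) z = Vc θ z := by
  simp only [Hc, Vc, cos_add_pi_div_two, sin_add_pi_div_two]; ring

theorem V_nonneg {α β θ : ℝ} {c : ℂ} (h1 : α < β) (h2 : β - α < π) (h3 : β ≤ θ + π / 2)
    (h4 : θ + π / 2 - α ≤ π) (k1 : 0 ≤ Hc β c) (k2 : Hc α c ≤ 0) : 0 ≤ Vc θ c := by
  have e := three_id α β (θ + π / 2) c
  rw [Hc_half] at e
  have s1 : 0 < sin (β - α) := sin_pos_of_pos_of_lt_pi (by linarith) h2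
  have s2 : 0 ≤ sin (θ + π / 2 - α) := sin_nonneg_of_nonneg_of_le_pi (by linarith) h4
  have s3 : 0 ≤ sin (θ + π / 2 - β) := sin_nonneg_of_nonneg_of_le_pi (by linarith) (by linarith)
  exact nn_of_mul (s := sin (β - α))
    (by nlinarith [mul_nonneg s2 k1, mul_nonneg s3 (neg_nonneg.2 k2)]) s1

section

variable {D t₁ t₂ ε η μ : ℝ} {a b : ℝ → ℂ} {x y : ℝ → ℝ}

theorem Pair.swap (P : Pair D t₁ t₂ a b x y) : Pair D t₁ t₂ b a y x := by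
  refine ⟨P.hD, P.h12, P.hπ, P.sb, P.sa, fun s t => by rw [add_comm]; exact P.hab t s,
    fun θ hθ => by rw [add_comm]; exact P.key θ hθ, fun m hm => ?_, fun m hm => ?_⟩
  · obtain ⟨θ, h1, h2, h3⟩ := P.eR m hm
    exact ⟨θ, h1, h2, fun s t => by rw [add_comm]; exact h3 t s⟩
  · obtain ⟨θ, h1, h2, h3⟩ := P.eL m hm
    exact ⟨θ, h1, h2, fun s t => by rw [add_comm]; exact h3 t s⟩

theorem Pair.rev (P : Pair D t₁ t₂ a b x y) : Pair D (-t₂) (-t₁) (rv a) (rv b) (rx x) (rx y) := by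
  refine ⟨P.hD, neg_le_neg P.h12, by linarith [P.hπ], P.sa.rev, P.sb.rev, fun s t => ?_,
    fun θ hθ => ?_, fun m hm => ?_, fun m hm => ?_⟩
  · rw [rv_add, Complex.norm_conj]
    exact P.hab _ _
  · rw [rv_add, rx, rx, neg_neg, neg_neg, P.key (-θ) ⟨by linarith [hθ.2], by linarith [hθ.1]⟩,
      ee_neg]
    simp
  · obtain ⟨θ, h1, h2, h3⟩ := P.eL m hm
    exact ⟨-θ, by linarith, by linarith, fun s t => by rw [rv_add, Hc_conj]; exact h3 _ _⟩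
  · obtain ⟨θ, h1, h2, h3⟩ := P.eR m hm
    exact ⟨-θ, by linarith, by linarith, fun s t => by rw [rv_add, Hc_conj]; exact h3 _ _⟩

theorem Sm.rev (h : Sm D t₁ t₂ a x ε η μ) : Sm D (-t₂) (-t₁) (rv a) (rx x) ε η μ := by
  have m : ∀ s ∈ Icc (rx x (-t₂) - 3 * ε) (rx x (-t₁) + 3 * ε),
      -s ∈ Icc (x t₁ - 3 * ε) (x t₂ + 3 * ε) := fun s hs => by
    simp only [rx, neg_neg] at hs
    exact ⟨by linarith [hs.2], by linarith [hs.1]⟩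
  have e : ∀ s t : ℝ, |-s - -t| = |s - t| := fun s t => by
    rw [show -s - -t = -(s - t) by ring, abs_neg]
  refine ⟨fun s hs t ht k => ?_, fun s hs t ht k => ?_, fun s hs t ht k => ?_, fun k => ?_⟩
  · rw [rv_sub, Complex.norm_conj]
    exact h.w1 _ (m s hs) _ (m t ht) (by rwa [e])
  · rw [rv_sub, Complex.norm_conj]
    exact h.sep _ (m s hs) _ (m t ht) (by rwa [e])
  · rw [rv_sub, Complex.norm_conj]
    exact h.w2 _ (m s hs) _ (m t ht) (by rwa [e])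
  · simp only [rx, neg_neg] at k ⊢
    linarith [h.e3 (by linarith)]

theorem TameP.rev (h : TameP (rv a) (rv b) (rx x) (rx y) (-t₂) (-t₁) ε η) :
    TameM a b x y t₁ t₂ ε η := by
  intro θ hθ u v z h1 h2 h3 h4 h5 h6 h7 h8 h9
  have := h (-θ) ⟨by linarith [hθ.2], by linarith [hθ.1]⟩ (-v) (-u) (-z)
  simp only [rx, neg_neg, rv_add, Complex.norm_conj] at this
  exact this (by linarith) (by linarith) (by linarith) (by linarith) (by linarith) (by linarith)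
    (by linarith) (by linarith) (by linarith)

theorem RelP.rev {lo hi u v : ℝ}
    (h : RelP (rv a) (rv b) (rx x) (rx y) (-t₂) (-t₁) ε (-hi) (-lo) (-v) (-u)) :
    RelM a b x y t₁ t₂ ε lo hi u v := by
  intro θ hθ h1 z hz h2
  have := h (-θ) ⟨by linarith [hθ.2], by linarith [hθ.1]⟩ (by simp only [rx, neg_neg]; linarith) (-z)
    ⟨by linarith [hz.2], by linarith [hz.1]⟩ (by simp only [rx, neg_neg]; linarith)
  simpa only [neg_neg, rv_add, Complex.norm_conj] using this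

theorem Side.ivt (h : Side D t₁ t₂ a x) {p q s : ℝ} (hpq : p ≤ q) (h1 : x p ≤ s) (h2 : s ≤ x q) :
    ∃ θ ∈ Icc p q, x θ = s :=
  intermediate_value_Icc hpq h.cx.continuousOn ⟨h1, h2⟩

theorem Side.lt_of (h : Side D t₁ t₂ a x) {p q : ℝ} (hp : p ∈ Icc t₁ t₂) (hq : q ∈ Icc t₁ t₂)
    (k : x p < x q) : p < q := by
  by_contra hc
  exact absurd (h.mono hq hp (not_lt.1 hc)) (not_le.2 k)

theorem Pair.far (P : Pair D t₁ t₂ a b x y) (sa : Sm D t₁ t₂ a x ε η μ) (sb : Sm D t₁ t₂ b y ε η μ)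
    (hε : 0 ≤ ε) {θ s t : ℝ} (hθ : θ ∈ Icc t₁ t₂) (hs : |s - x θ| ≤ 3 * ε) (ht : |t - y θ| ≤ 3 * ε) :
    ∃ c : ℂ, a s + b t = -((D : ℂ) * ee θ) + c ∧ ‖c‖ ≤ D * sin (kp / 2) := by
  have l1 : t₁ ∈ Icc t₁ t₂ := ⟨le_rfl, P.h12⟩
  have l2 : t₂ ∈ Icc t₁ t₂ := ⟨P.h12, le_rfl⟩
  have x1 := P.sa.mono l1 hθ hθ.1
  have x2 := P.sa.mono hθ l2 hθ.2
  have y1 := P.sb.mono l1 hθ hθ.1
  have y2 := P.sb.mono hθ l2 hθ.2
  have k1 := abs_le.1 hs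
  have k2 := abs_le.1 ht
  have n1 := sa.w1 s ⟨by linarith, by linarith⟩ (x θ) ⟨by linarith, by linarith⟩ hs
  have n2 := sb.w1 t ⟨by linarith, by linarith⟩ (y θ) ⟨by linarith, by linarith⟩ ht
  exact ⟨(a s - a (x θ)) + (b t - b (y θ)), by rw [← P.key θ hθ]; ring,
    by linarith [norm_add_le (a s - a (x θ)) (b t - b (y θ))]⟩

theorem Pair.half (P : Pair D t₁ t₂ a b x y) (sa : Sm D t₁ t₂ a x ε η μ) (sb : Sm D t₁ t₂ b y ε η μ)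
    (hε : 0 ≤ ε) {θ s t : ℝ} (hθ : θ ∈ Icc t₁ t₂) (hs : |s - x θ| ≤ 3 * ε) (ht : |t - y θ| ≤ 3 * ε) :
    D / 2 ≤ ‖a s + b t‖ := by
  obtain ⟨c, e, hc⟩ := P.far sa sb hε hθ hs ht
  have k := norm_sub_le (a s + b t) c
  rw [show a s + b t - c = -((D : ℂ) * ee θ) by rw [e]; ring, norm_De P.hD.le] at k
  nlinarith [sin_kp, P.hD]

theorem Pair.margin (P : Pair D t₁ t₂ a b x y) {φ ψ : ℝ} (hφ : φ ∈ Icc t₁ t₂) (hψ : ψ ∈ Icc t₁ t₂)
    (h : ψ < φ) (hμ : 0 ≤ μ) (m1 : μ ≤ ‖b (y ψ) - b (y φ)‖) (m2 : μ ≤ ‖a (x φ) + b (y ψ)‖) :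
    μ ^ 2 / (2 * D) ≤ Vc φ (a (x φ) + b (y ψ)) := by
  have := cross_margin P.hD h (by linarith [hφ.2, hψ.1, P.hπ]) (P.key φ hφ) (P.key ψ hψ) (P.hab _ _)
    (P.hab _ _) (P.sa.diam _ _) (P.sb.diam _ _) hμ m1 m2
  rw [div_le_iff₀ (by linarith [P.hD])]
  linarith

theorem Pair.tameP (P : Pair D t₁ t₂ a b x y) (sa : Sm D t₁ t₂ a x ε η μ)
    (sb : Sm D t₁ t₂ b y ε η μ) (hη : 0 < η) (hε : 4 * η ≤ ε) (hμ : 0 ≤ μ) (hμ' : μ ≤ D / 2) :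
    TameP a b x y t₁ t₂ ε η := by
  intro θ hθ u v z h1 h2 h3 h4 h5 h6 h7 h8 h9
  have l1 : t₁ ∈ Icc t₁ t₂ := ⟨le_rfl, P.h12⟩
  have l2 : t₂ ∈ Icc t₁ t₂ := ⟨P.h12, le_rfl⟩
  have x1 := P.sa.mono l1 hθ hθ.1
  have y2 := P.sb.mono hθ l2 hθ.2
  obtain ⟨φ, hφ, rfl⟩ := P.sa.ivt hθ.2 (s := u) (by linarith) (by linarith)
  obtain ⟨φ', hφ', rfl⟩ := P.sa.ivt hθ.2 (s := v) (by linarith) h3
  have z1 := le_max_left z (y t₁)
  have z2 := le_max_right z (y t₁)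
  have z3 : max z (y t₁) ≤ y θ - ε / 2 := max_le h9 h7
  have z4 : max z (y t₁) ≤ z + η := max_le (by linarith) (by linarith)
  obtain ⟨ψ, hψ, eψ⟩ := P.sb.ivt hθ.1 (s := max z (y t₁)) z2 (by linarith)
  rw [← eψ] at z1 z2 z3 z4
  have mφ : φ ∈ Icc t₁ t₂ := ⟨hθ.1.trans hφ.1, hφ.2⟩
  have mφ' : φ' ∈ Icc t₁ t₂ := ⟨hθ.1.trans hφ'.1, hφ'.2⟩
  have mψ : ψ ∈ Icc t₁ t₂ := ⟨hψ.1, hψ.2.trans hθ.2⟩
  have lt := P.sa.lt_of mφ mφ' h1
  have n1 := sa.w2 (x φ') ⟨by linarith, by linarith⟩ (x φ) ⟨by linarith, by linarith⟩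
    (abs_le.2 ⟨by linarith, by linarith⟩)
  have n2 := sb.w2 z ⟨by linarith, by linarith⟩ (y ψ) ⟨by linarith, by linarith⟩
    (abs_le.2 ⟨by linarith, by linarith⟩)
  have hD := P.hD
  have e8 : μ ^ 2 / (2 * D) = 4 * (μ ^ 2 / (8 * D)) := by field_simp; ring
  have key : ∀ χ ∈ Icc θ t₂, x θ + ε / 2 ≤ x χ → x χ ≤ x θ + 2 * ε → ∀ c : ℂ,
      ‖c‖ ≤ μ ^ 2 / (8 * D) → 0 ≤ Vc χ (a (x χ) + c + b z) := by
    intro χ hχ k1 k2 c hc
    have mχ : χ ∈ Icc t₁ t₂ := ⟨hθ.1.trans hχ.1, hχ.2⟩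
    have q1 := P.sa.lt_of hθ mχ (by linarith)
    have q2 := P.sb.mono hθ mχ q1.le
    have q3 := P.sb.mono mχ l2 mχ.2
    have q4 := P.margin mχ mψ (hψ.2.trans_lt q1) hμ
      (sb.sep _ ⟨by linarith, by linarith⟩ _ ⟨by linarith, by linarith⟩
        (by rw [abs_sub_comm]; exact le_abs.2 (Or.inl (by linarith))))
      (hμ'.trans (P.half sa sb (by linarith) hθ (abs_le.2 ⟨by linarith, by linarith⟩)
        (abs_le.2 ⟨by linarith, by linarith⟩)))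
    rw [show a (x χ) + c + b z = a (x χ) + b (y ψ) + c + (b z - b (y ψ)) by ring, Vc_add, Vc_add _ _ c]
    have q5 := (abs_le.1 (abs_Vc_le χ c)).1
    have q6 := (abs_le.1 (abs_Vc_le χ (b z - b (y ψ)))).1
    have : 0 ≤ μ ^ 2 / (8 * D) := by positivity
    linarith
  have hc : ‖(a (x φ') - a (x φ)) / 2‖ ≤ μ ^ 2 / (8 * D) := by
    rw [norm_div, Complex.norm_ofNat]
    linarith [norm_nonneg (a (x φ') - a (x φ))]
  have w1 := key φ hφ h2 (by linarith) _ hc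
  have w2 := key φ' hφ' (by linarith) h4 (-((a (x φ') - a (x φ)) / 2)) (by rwa [norm_neg])
  rw [show a (x φ) + (a (x φ') - a (x φ)) / 2 = (a (x φ) + a (x φ')) / 2 by ring] at w1
  rw [show a (x φ') + -((a (x φ') - a (x φ)) / 2) = (a (x φ) + a (x φ')) / 2 by ring] at w2
  have c1 := P.sa.nn hD mφ (x φ')
  have c2 := P.sa.nn hD mφ' (x φ)
  rw [← neg_sub, Hc_neg] at c2
  refine norm_le_of_ip (np_of_mul (s := sin (φ' - φ)) ?_
    (sin_pos_of_pos_of_lt_pi (by linarith) (by linarith [mφ.1, mφ'.2, P.hπ])))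
  rw [cone_id]
  nlinarith [mul_nonneg c2 w1, mul_nonneg c1 w2]

theorem Pair.valP (P : Pair D t₁ t₂ a b x y) (sa : Sm D t₁ t₂ a x ε η μ)
    (sb : Sm D t₁ t₂ b y ε η μ) (hη : 0 < η) (hε : 4 * η ≤ ε) (hμ : 0 ≤ μ) (hμ' : μ ≤ D / 2)
    {tb tb' θp A₃ A₄ B₁ B₄ : ℝ} (ba : IsTb x t₁ t₂ tb) (bb : IsTb y t₁ t₂ tb')
    (ea : ∀ θ ∈ Icc t₁ t₂, x t₂ - ε ≤ x θ → tb - kp / 2 ≤ θ)
    (eb : ∀ θ ∈ Icc t₁ t₂, y t₂ - ε ≤ y θ → tb' - kp / 2 ≤ θ) (p1 : t₂ ≤ θp) (p2 : θp ≤ t₂ + kp)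
    (p3 : D * (θp - t₂) ≤ μ ^ 2 / (8 * D)) (A3 : x t₂ - η ≤ A₃) (A4 : A₄ ≤ x t₂ + η)
    (B1 : y t₁ - η ≤ B₁) (B4 : B₄ ≤ y t₂ + η) (B5 : y t₂ ≤ B₄)
    (h1 : ∀ s ∈ Icc A₃ A₄, ∀ z ∈ Icc (y t₂) B₄, 0 ≤ Vc θp (a s + b z))
    (h2 : y t₁ = y t₂ → ∀ s ∈ Icc A₃ A₄, ∀ z ∈ Icc B₁ (y t₁), 0 ≤ Vc θp (a s + b z))
    {u v : ℝ} (u1 : A₃ ≤ u) (u2 : u < v) (u3 : v ≤ A₄) (k1 : 0 < Hc θp (a v - a u))
    (k2 : 0 < Hc (tb - kp) (a v - a u)) : RelP a b x y t₁ t₂ ε B₁ B₄ u v := by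
  intro θ hθ hx z hz hz'
  have l1 : t₁ ∈ Icc t₁ t₂ := ⟨le_rfl, P.h12⟩
  have l2 : t₂ ∈ Icc t₁ t₂ := ⟨P.h12, le_rfl⟩
  have hD := P.hD
  have k0 := kp_pos
  have kk : kp = π / 24 := rfl
  have b1 := P.sa.tb_le P.hπ ba
  have b2 := P.sb.tb_le P.hπ bb
  have b3 := ba.mem.2
  have z1 := hz.1
  have z2 := hz.2
  have y12 := P.sb.mono l1 l2 P.h12
  obtain ⟨φ, mφ, f1, f2⟩ : ∃ φ ∈ Icc t₁ t₂, x t₂ - ε ≤ x φ ∧ |z - y φ| ≤ 2 * ε := by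
    rcases le_total z (y θ) with k | k
    · exact ⟨θ, hθ, hx, abs_le.2 ⟨by linarith, by linarith⟩⟩
    rcases le_total z (y t₂) with k' | k'
    · obtain ⟨φ, hφ, e⟩ := P.sb.ivt hθ.2 k k'
      exact ⟨φ, ⟨hθ.1.trans hφ.1, hφ.2⟩, hx.trans (P.sa.mono hθ ⟨hθ.1.trans hφ.1, hφ.2⟩ hφ.1),
        by rw [e, sub_self, abs_zero]; linarith⟩
    · exact ⟨t₂, l2, by linarith, abs_le.2 ⟨by linarith, by linarith⟩⟩
  have f3 := P.sa.mono mφ l2 mφ.2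
  have f4 := abs_le.1 f2
  have V2 : ∀ s ∈ Icc A₃ A₄, Vc (tb - kp) (a s + b z) ≤ 0 := fun s hs => by
    obtain ⟨c, e, hc⟩ := P.far sa sb (by linarith) mφ (s := s) (t := z)
      (abs_le.2 ⟨by linarith [hs.1], by linarith [hs.2]⟩) (f2.trans (by linarith))
    have q1 := ea φ mφ f1
    have q2 : sin (kp / 2) ≤ sin (φ - (tb - kp)) :=
      sin_le_sin_of_le_of_le_pi_div_two (by linarith) (by linarith [mφ.2]) (by linarith)
    rw [e, Vc_add, Vc_De]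
    linarith [(abs_le.1 (abs_Vc_le (tb - kp) c)).2, mul_le_mul_of_nonneg_left q2 hD.le]
  have V1 : ∀ s ∈ Icc A₃ A₄, 0 ≤ Vc θp (a s + b z) := fun s hs => by
    rcases le_or_gt (y t₂) z with k | k
    · exact h1 s hs z ⟨k, z2⟩
    rcases eq_or_lt_of_le y12 with e | e
    · exact h2 e s hs z ⟨z1, by linarith⟩
    have g0 := h1 s hs (y t₂) ⟨le_rfl, B5⟩
    suffices h : 0 ≤ Vc θp (b z - b (y t₂)) by
      rw [show a s + b z = a s + b (y t₂) + (b z - b (y t₂)) by ring, Vc_add]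
      linarith
    have e3 := sb.e3 e
    have m1 := le_max_left z (y t₁)
    have m2 := le_max_right z (y t₁)
    have m3 : max z (y t₁) < y t₂ := max_lt k e
    have m4 : max z (y t₁) ≤ z + η := max_le (by linarith) (by linarith)
    obtain ⟨ψ, mψ, eψ⟩ := P.sb.ivt P.h12 (s := max z (y t₁)) m2 m3.le
    rw [← eψ] at m1 m2 m3 m4
    have lt := P.sb.lt_of mψ l2 m3
    rcases le_or_gt (y ψ) (y t₂ - ε) with q | q
    · have q4 := P.margin l2 mψ lt hμ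
        (sb.sep _ ⟨by linarith, by linarith⟩ _ ⟨by linarith, by linarith⟩
          (by rw [abs_sub_comm]; exact le_abs.2 (Or.inl (by linarith))))
        (hμ'.trans (P.half sa sb (by linarith) mφ (abs_le.2 ⟨by linarith, by linarith⟩)
          (abs_le.2 ⟨by linarith, by linarith⟩)))
      have q5 : Vc t₂ (b (y ψ) - b (y t₂)) = Vc t₂ (a (x t₂) + b (y ψ)) := by
        rw [show a (x t₂) + b (y ψ) = a (x t₂) + b (y t₂) + (b (y ψ) - b (y t₂)) by ring, Vc_add,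
          P.key t₂ l2, Vc_De, sub_self, sin_zero]
        ring
      have q6 := ((abs_le.1 (abs_Hc_le t₂ (b (y ψ) - b (y t₂)))).2).trans (P.sb.diam _ _)
      have q7 := half_le_cos (δ := θp - t₂) (by linarith) (by linarith)
      have q8 : 0 ≤ sin (θp - t₂) := sin_nonneg_of_nonneg_of_le_pi (by linarith) (by linarith)
      have q9 : sin (θp - t₂) ≤ θp - t₂ := sin_le (by linarith)
      have n2 := sb.w2 z ⟨by linarith, by linarith⟩ (y ψ) ⟨by linarith, by linarith⟩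
        (abs_le.2 ⟨by linarith, by linarith⟩)
      have e8 : μ ^ 2 / (2 * D) = 4 * (μ ^ 2 / (8 * D)) := by field_simp; ring
      have g1 : 0 ≤ μ ^ 2 / (8 * D) := by positivity
      rw [show b z - b (y t₂) = b (y ψ) - b (y t₂) + (b z - b (y ψ)) by ring, Vc_add, Vc_rot t₂, q5]
      have g2 := (abs_le.1 (abs_Vc_le θp (b z - b (y ψ)))).1
      have g3 := mul_le_mul_of_nonneg_left q6 q8
      have g4 := mul_le_mul_of_nonneg_left q9 hD.le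
      have g5 := mul_le_mul_of_nonneg_right q7 (show 0 ≤ Vc t₂ (a (x t₂) + b (y ψ)) by linarith)
      linarith
    · have e4 : z = y ψ := by
        rcases le_total z (y t₁) with r | r
        · rw [max_eq_right r] at eψ; linarith
        · rw [max_eq_left r] at eψ; exact eψ.symm
      have q1 := eb ψ mψ q.le
      have c2 := P.sb.nn hD mψ (y t₂)
      rw [← neg_sub, Hc_neg] at c2
      rw [e4]
      exact V_nonneg lt (by linarith [mψ.1, P.hπ]) (by linarith) (by linarith)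
        (P.sb.nn hD l2 (y ψ)) (by linarith)
  have mu : u ∈ Icc A₃ A₄ := ⟨u1, by linarith⟩
  have mv : v ∈ Icc A₃ A₄ := ⟨by linarith, u3⟩
  have w1 := Vc_mid θp (a u) (a v) (b z)
  have w2 := Vc_mid (tb - kp) (a u) (a v) (b z)
  have w3 : 0 ≤ Vc θp ((a u + a v) / 2 + b z) := by linarith [V1 u mu, V1 v mv]
  have w4 : 0 ≤ -Vc (tb - kp) ((a u + a v) / 2 + b z) := by linarith [V2 u mu, V2 v mv]
  refine norm_le_of_ip (np_of_mul (s := sin (θp - (tb - kp))) ?_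
    (sin_pos_of_pos_of_lt_pi (by linarith) (by linarith)))
  rw [cone_id]
  nlinarith [mul_nonneg k1.le w4, mul_nonneg k2.le w3]

end

end Pool.Agent.Lib.MP_9488bf_co.Thin
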